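import Pool.Agent.Lib.MP_097655_pr.SMain

set_option autoImplicit false

open MeasureTheory ProbabilityTheory Set Filter
open scoped NNReal ENNReal Topology Pointwise

namespace Pool.Agent.Lib.MP_097655_pr

variable {μ : Measure Path}

lemma vS_pos_of_spR {w : Path} (h : spR w 1 ≠ 0) : vS w 1 ≠ 0 := by
  have hpos : 0 < spR w 1 := lt_of_le_of_ne (spR_nonneg _ _) (Ne.symm h)
  have hsub : Ioo 0 (spR w 1) ⊆ Sp w 1 := by
    intro r hr
    exact mem_Sp_of_lt_spT hr.1 (hr.2.trans_le (spR_le_spT w.continuous 1))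
  intro h0
  have h1 := measure_mono (μ := volume) hsub
  rw [Real.volume_Ioo, sub_zero] at h1
  have h2 : ENNReal.ofReal (spR w 1) ≤ 0 := h1.trans_eq h0
  rw [nonpos_iff_eq_zero, ENNReal.ofReal_eq_zero] at h2
  linarith

theorem measure_S_eq (hμ : IsWiener μ) (c : ℝ) : μ {w : Path | (vS w 1).toReal = c} = 0 := by
  rcases lt_trichotomy c 0 with hc | hc | hc
  · have : {w : Path | (vS w 1).toReal = c} = ∅ := by
      ext w; simp only [mem_ofPred_eq, mem_empty_iff_false, iff_false]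
      intro h; have : 0 ≤ (vS w 1).toReal := ENNReal.toReal_nonneg; linarith
    rw [this, measure_empty]
  · refine measure_mono_null (fun w hw => ?_) (measure_spR_zero hμ)
    by_contra h
    have h1 := vS_pos_of_spR (w := w) h
    rw [mem_ofPred_eq, hc] at hw
    rw [ENNReal.toReal_eq_zero_iff] at hw
    rcases hw with hw | hw
    · exact h1 hw
    · exact vS_ne_top w 1 hw
  · refine measure_mono_null (fun w hw => ?_) (measure_LineEv_eq_zero hμ hc)
    rw [mem_ofPred_eq] at hw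
    change vS w 1 = ENNReal.ofReal (c * 1)
    rw [mul_one, ← hw, ENNReal.ofReal_toReal (vS_ne_top w 1)]

lemma exists_nnreal {x : ℝ} (hx : 0 ≤ x) : ∃ s : ℝ≥0, (s : ℝ) = x :=
  ⟨x.toNNReal, Real.coe_toNNReal x hx⟩

/-- Identification of the span set of the restriction to nonnegative times. -/
lemma span_eq (w : Path) :
    {x : ℝ | ∃ s t : ℝ≥0, s ≤ t ∧ t ≤ 1 ∧ w (t : ℝ) = w (s : ℝ) ∧ x = (t : ℝ) - s} = Sp w 1 := by
  ext x
  constructor
  · rintro ⟨s, t, h1, h2, h3, rfl⟩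
    have h1' : (s : ℝ) ≤ t := by exact_mod_cast h1
    have h2' : (t : ℝ) ≤ 1 := by exact_mod_cast h2
    refine ⟨by linarith, t, by linarith [s.coe_nonneg], h2', ?_⟩
    rw [h3]; congr 1; ring
  · rintro ⟨h0, v, h1, h2, h3⟩
    obtain ⟨s, hs⟩ := exists_nnreal (sub_nonneg.mpr h1)
    obtain ⟨t, ht⟩ := exists_nnreal (h0.trans h1)
    refine ⟨s, t, ?_, ?_, ?_, ?_⟩
    · rw [← NNReal.coe_le_coe, hs, ht]; linarith
    · rw [← NNReal.coe_le_coe, ht]; exact h2
    · rw [hs, ht]; exact h3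
    · rw [hs, ht]; ring

lemma exc_eq (w : Path) :
    {l : ℝ | ∃ p q : ℝ≥0, p < q ∧ q ≤ 1 ∧ w (p : ℝ) = w (q : ℝ) ∧
      (∀ u : ℝ≥0, p < u → u < q → w (u : ℝ) ≠ w (p : ℝ)) ∧ l = (q : ℝ) - p} = Exc w 1 := by
  ext l
  constructor
  · rintro ⟨p, q, h1, h2, h3, h4, rfl⟩
    refine ⟨p, q, p.coe_nonneg, by exact_mod_cast h1, by exact_mod_cast h2, h3, ?_, rfl⟩
    rintro u ⟨hu1, hu2⟩
    obtain ⟨u', hu'⟩ := exists_nnreal (p.coe_nonneg.trans hu1.le)
    rw [← hu'] at hu1 hu2 ⊢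
    exact h4 u' (by exact_mod_cast hu1) (by exact_mod_cast hu2)
  · rintro ⟨p, q, h0, h1, h2, h3, h4, rfl⟩
    obtain ⟨p', hp'⟩ := exists_nnreal h0
    obtain ⟨q', hq'⟩ := exists_nnreal (h0.trans h1.le)
    refine ⟨p', q', ?_, ?_, ?_, ?_, ?_⟩
    · rw [← NNReal.coe_lt_coe, hp', hq']; exact h1
    · rw [← NNReal.coe_le_coe, hq']; exact h2
    · rw [hp', hq']; exact h3
    · intro u hu1 hu2
      rw [← NNReal.coe_lt_coe, hp'] at hu1
      rw [← NNReal.coe_lt_coe, hq'] at hu2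
      rw [hp']
      exact h4 u ⟨hu1, hu2⟩
    · rw [hp', hq']

/-- Transfer of a measurable path functional without atoms to an arbitrary Brownian motion. -/
lemma transfer {Ω : Type*} {mΩ : MeasurableSpace Ω} {P : Measure Ω} {B : ℝ≥0 → Ω → ℝ}
    (hB : IsBrownianReal B P) {F : (ℝ≥0 → ℝ) → ℝ} {G : Path → ℝ} (hG : Measurable G)
    (hFG : ∀ w : Path, F (fun t => w (t : ℝ)) = G w)
    (hatom : ∀ {μ : Measure Path}, IsWiener μ → ∀ c, μ {w | G w = c} = 0) :
    AEMeasurable (fun ω => F (fun t => B t ω)) P ∧ ∀ c : ℝ, P {ω | F (fun t => B t ω) = c} = 0 := by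
  obtain ⟨b, hb, hbB⟩ := exists_path_version hB
  have hμ := isWiener_of_brownian hB hb hbB
  have hae : (fun ω => F (fun t => B t ω)) =ᵐ[P] fun ω => G (b ω) := by
    filter_upwards [hbB] with ω hω
    rw [← hFG]
    congr 1
    funext t
    exact (hω t).symm
  refine ⟨⟨fun ω => G (b ω), hG.comp hb, hae⟩, fun c => ?_⟩
  have h1 : P {ω | G (b ω) = c} = 0 := by
    have := hatom hμ c
    rw [Measure.map_apply hb (show MeasurableSet {w : Path | G w = c} from
      hG (measurableSet_singleton c))] at this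
    exact this
  have h2 : {ω | F (fun t => B t ω) = c} =ᵐ[P] {ω | G (b ω) = c} := by
    filter_upwards [hae] with ω hω
    change (F (fun t => B t ω) = c) = (G (b ω) = c)
    rw [hω]
  rw [measure_congr h2, h1]

end Pool.Agent.Lib.MP_097655_pr
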