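import Pool.Agent.Lib.MP_097655_pr.Comp

set_option autoImplicit false

open MeasureTheory ProbabilityTheory Set Filter
open scoped NNReal ENNReal Topology Pointwise

namespace Pool.Agent.Lib.MP_097655_pr

variable {μ : Measure Path}

/-- The bad set of span lengths. -/
def BadSet (n K κ : ℝ) (w : ℝ → ℝ) : Set ℝ :=
  {r | r ∉ Sp w n ∧ (∃ y ∈ Icc 0 2, |w (n - r + y) - w n| < K) ∧
    (κ < |w (n - r + 1 / 2) - w n| ∨ κ < |w (n - r + 1) - w n|)}

/-- One-sided part of the covering lemma. -/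
lemma cover_aux {w : Path} {u l T m : ℝ} (hl : 0 ≤ l) (hlu : l ≤ u) (hlT : l ≤ T)
    (hr : 2 + T ∉ Sp w (u + 2 + T)) (h0 : w (u + 2 + T) < w u)
    (h1 : |w (u + 2 + T) - w (u + 2)| ≤ 3 * m) (h2 : w u - w (u + 2) ≤ m) :
    (w, Path.shift (u + 2) w) ∈ EE u l T m := by
  have hT0 : 0 ≤ T := hl.trans hlT
  constructor
  · simp only
    rw [Path.shift_apply _ _ hT0]
    exact h1
  · intro x hx
    simp only
    rw [Path.shift_apply _ _ (by linarith [hx.2])]
    have key : w (u + 2 + T - x) < w (u - x) := by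
      by_contra hcon
      push Not at hcon
      have hc : ContinuousOn (fun z => w (u + 2 + T - z) - w (u - z)) (Icc 0 x) := by
        have := w.continuous
        fun_prop
      obtain ⟨z, hz, hz0⟩ := intermediate_value_Icc hx.1 hc
        (show (0 : ℝ) ∈ Icc (w (u + 2 + T - 0) - w (u - 0)) (w (u + 2 + T - x) - w (u - x)) from
          ⟨by rw [sub_zero, sub_zero]; linarith, by linarith⟩)
      apply hr
      refine ⟨by linarith, u + 2 + T - z, by linarith [hz.2, hx.2], by linarith [hz.1], ?_⟩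
      have e1 : u + 2 + T - z - (2 + T) = u - z := by ring
      rw [e1]
      simp only at hz0
      linarith
    have e2 : u + 2 + (T - x) = u + 2 + T - x := by ring
    rw [e2]
    linarith

lemma Sp_refl (w : Path) (t : ℝ) : Sp (Path.refl w) t = Sp w t := by
  ext r
  simp only [Sp, mem_ofPred_eq, Path.refl_apply, neg_inj]

/-- Covering lemma. -/
lemma cover {w : Path} {u l T K κ κ' : ℝ} (hl : 0 ≤ l) (hlu : l ≤ u) (hlT : l ≤ T)
    (hκ' : 0 < κ') (hK : K ≤ κ') (hκ : K + 2 * κ' ≤ κ)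
    (hr : 2 + T ∉ Sp w (u + 2 + T)) {y y' : ℝ} (hy : y ∈ Icc (0 : ℝ) 2) (hy' : y' ∈ Icc (0 : ℝ) 2)
    (h1 : |w (u + y) - w (u + 2 + T)| < K) (h2 : κ < |w (u + y') - w (u + 2 + T)|) :
    ∃ j : ℕ, Path.shift u w ∈ Big 2 (2 ^ j * κ' / 2) ∧
      ((w, Path.shift (u + 2) w) ∈ EE u l T (2 ^ (j + 1) * κ') ∨
        (Path.refl w, Path.shift (u + 2) (Path.refl w)) ∈ EE u l T (2 ^ (j + 1) * κ')) := by
  have hu0 : 0 ≤ u := hl.trans hlu
  -- the maximal oscillation
  have hcont : ContinuousOn (fun z => |w (u + z) - w u|) (Icc (0 : ℝ) 2) := by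
    have := w.continuous
    fun_prop
  obtain ⟨z, hz, hmax⟩ := isCompact_Icc.exists_isMaxOn (nonempty_Icc.mpr (by norm_num : (0 : ℝ) ≤ 2)) hcont
  set M := |w (u + z) - w u| with hM
  have hall : ∀ x ∈ Icc (0 : ℝ) 2, |w (u + x) - w u| ≤ M := fun x hx => hmax hx
  have hMκ : κ' < M := by
    have a1 := hall y hy
    have a2 := hall y' hy'
    rw [abs_le] at a1 a2
    rw [abs_lt] at h1
    rcases lt_abs.mp h2 with h3 | h3 <;> linarith
  obtain ⟨j, hj1, hj2⟩ := exists_nat_pow_near (x := M / κ') (y := 2)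
    (by rw [one_le_div hκ']; exact hMκ.le) (by norm_num)
  rw [le_div_iff₀ hκ'] at hj1
  rw [div_lt_iff₀ hκ'] at hj2
  refine ⟨j, ?_, ?_⟩
  · refine ⟨z, hz, ?_⟩
    rw [Path.shift_apply _ _ hz.1]
    have : 0 < 2 ^ j * κ' := by positivity
    linarith
  · have a0 := hall 2 ⟨by norm_num, le_rfl⟩
    have a1 := hall y hy
    have b0 := abs_le.mp a0
    have b1 := abs_le.mp a1
    have b2 := abs_lt.mp h1
    have h3 : |w (u + 2 + T) - w (u + 2)| ≤ 3 * (2 ^ (j + 1) * κ') := by
      rw [abs_le]; constructor <;> linarith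
    have h4 : w u - w (u + 2) ≤ 2 ^ (j + 1) * κ' := by linarith
    have h4' : w (u + 2) - w u ≤ 2 ^ (j + 1) * κ' := by linarith
    have hne : w (u + 2 + T) ≠ w u := by
      intro hcon
      apply hr
      refine ⟨by linarith, u + 2 + T, by linarith, le_rfl, ?_⟩
      have : u + 2 + T - (2 + T) = u := by ring
      rw [this, hcon]
    rcases lt_or_gt_of_ne hne with h5 | h5
    · left
      exact cover_aux hl hlu hlT hr h5 h3 h4
    · right
      refine cover_aux hl hlu hlT (by rwa [Sp_refl]) ?_ ?_ ?_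
      · simp only [Path.refl_apply]; linarith
      · simp only [Path.refl_apply]
        rw [← abs_neg]
        have : -(-w (u + 2 + T) - -w (u + 2)) = w (u + 2 + T) - w (u + 2) := by ring
        rw [this]; exact h3
      · simp only [Path.refl_apply]; linarith

/-- Probability of one dyadic piece. -/
lemma IsWiener.piece (hμ : IsWiener μ) {u l T m x : ℝ} (hl : 0 ≤ l) (hlu : l ≤ u) (hlT : l ≤ T) :
    μ {w | Path.shift u w ∈ Big 2 x ∧ (w, Path.shift (u + 2) w) ∈ EE u l T m} ≤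
      μ (Big 2 x) * (μ.prod μ) (EE l l T m) := by
  have := hμ.isProbabilityMeasure
  have hu0 : 0 ≤ u := hl.trans hlu
  have hT0 : 0 ≤ T := hl.trans hlT
  have hI := (hμ.indepFun_middle (u := u) (h := 2) hu0 (by norm_num)).comp
      (φ := fun q : Path × Path => (Path.stop u q.1, Path.stop T q.2)) (ψ := fun f : Path => f)
      (by fun_prop) measurable_id
  have hEE := measurableSet_EE' u hl T m
  have hBig := measurableSet_Big (b := 2) (by norm_num) x
  have h2 := hI.measure_inter_preimage_eq_mul (EE u l T m) (Big 2 x) hEE hBig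
  have eA : ((fun q : Path × Path => (Path.stop u q.1, Path.stop T q.2)) ∘
      fun w : Path => (Path.stop u w, Path.shift (u + 2) w)) ⁻¹' EE u l T m =
      {w | (Path.stop u w, Path.stop T (Path.shift (u + 2) w)) ∈ EE u l T m} := by
    ext w
    simp only [mem_preimage, Function.comp_apply, mem_ofPred_eq]
    have : Path.stop u (Path.stop u w) = Path.stop u w := by
      ext x; simp only [Path.stop_apply]; rw [min_assoc, min_self]
    rw [this]
  have eB : ((fun f : Path => f) ∘ fun w : Path => Path.stop 2 (Path.shift u w)) ⁻¹' Big 2 x =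
      Path.shift u ⁻¹' Big 2 x := by
    ext w
    simp only [mem_preimage, Function.comp_apply, Big, mem_ofPred_eq]
    refine exists_congr fun y => and_congr_right fun hy => ?_
    rw [Path.stop_apply_of_le _ hy.2]
  rw [eA, eB, hμ.pair_law hu0 (by norm_num) hT0 hEE,
    ← Measure.map_apply (Path.measurable_shift u) hBig, hμ.map_shift hu0] at h2
  have e3 : {w | Path.shift u w ∈ Big 2 x ∧ (w, Path.shift (u + 2) w) ∈ EE u l T m} =
      {w | (Path.stop u w, Path.stop T (Path.shift (u + 2) w)) ∈ EE u l T m} ∩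
        Path.shift u ⁻¹' Big 2 x := by
    ext w
    simp only [mem_ofPred_eq, mem_inter_iff, mem_preimage]
    rw [EE_stop (w, Path.shift (u + 2) w), and_comm]
  rw [e3, h2, mul_comm]
  refine mul_le_mul' le_rfl ?_
  have e4 : {p : Path × Path | (Path.stop u p.1, Path.stop T p.2) ∈ EE u l T m} = EE u l T m := by
    ext q; exact EE_stop q
  rw [e4]
  exact hμ.EE_mono hl le_rfl hlu

/-- Pointwise bound for the probability that `r` is bad. -/
lemma IsWiener.bad_pointwise (hμ : IsWiener μ) {n r l K κ κ' : ℝ} (hl : 0 ≤ l) (hlu : l ≤ n - r)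
    (hlT : l ≤ r - 2) (hκ' : 0 < κ') (hK : K ≤ κ') (hκ : K + 2 * κ' ≤ κ) :
    μ {w | r ∈ BadSet n K κ w} ≤ ∑' j : ℕ, 2 * (μ (Big 2 (2 ^ j * κ' / 2)) *
      (μ.prod μ) (EE l l (r - 2) (2 ^ (j + 1) * κ'))) := by
  have := hμ.isProbabilityMeasure
  set u := n - r with hu
  set T := r - 2 with hT
  have en : u + 2 + T = n := by rw [hu, hT]; ring
  have er : 2 + T = r := by rw [hT]; ring
  let P1 : ℕ → Set Path := fun j => {w | Path.shift u w ∈ Big 2 (2 ^ j * κ' / 2) ∧
    (w, Path.shift (u + 2) w) ∈ EE u l T (2 ^ (j + 1) * κ')}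
  have hsub : {w : Path | r ∈ BadSet n K κ w} ⊆ ⋃ j, (P1 j ∪ {w | Path.refl w ∈ P1 j}) := by
    rintro w ⟨h1, ⟨y, hy, hyK⟩, h2⟩
    obtain ⟨y', hy', hy'κ⟩ : ∃ y' ∈ Icc (0 : ℝ) 2, κ < |w (u + y') - w (u + 2 + T)| := by
      rcases h2 with h2 | h2
      · exact ⟨1 / 2, ⟨by norm_num, by norm_num⟩, by rw [en]; exact h2⟩
      · exact ⟨1, ⟨by norm_num, by norm_num⟩, by rw [en]; exact h2⟩
    obtain ⟨j, hj1, hj2⟩ := cover hl hlu hlT hκ' hK hκ (by rw [er, en]; exact h1) hy hy'
      (by rw [en]; exact hyK) hy'κ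
    rw [mem_iUnion]
    refine ⟨j, ?_⟩
    rcases hj2 with hj2 | hj2
    · left; exact ⟨hj1, hj2⟩
    · right
      refine ⟨?_, hj2⟩
      have : Path.shift u (Path.refl w) = Path.refl (Path.shift u w) := by
        ext x
        simp only [Path.shift_apply', Path.refl_apply]
        ring
      rw [this, Big_refl]
      exact hj1
  have hP1m : ∀ j, MeasurableSet (P1 j) := by
    intro j
    have h1 : MeasurableSet {w : Path | Path.shift u w ∈ Big 2 (2 ^ j * κ' / 2)} :=
      Path.measurable_shift u (measurableSet_Big (by norm_num) _)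
    have h2 : MeasurableSet {w : Path | (w, Path.shift (u + 2) w) ∈ EE u l T (2 ^ (j + 1) * κ')} :=
      measurableSet_EE u _ hl measurable_const measurable_id (Path.measurable_shift _)
    exact h1.inter h2
  calc μ {w | r ∈ BadSet n K κ w} ≤ μ (⋃ j, (P1 j ∪ {w | Path.refl w ∈ P1 j})) := measure_mono hsub
    _ ≤ ∑' j, μ (P1 j ∪ {w | Path.refl w ∈ P1 j}) := measure_iUnion_le _
    _ ≤ ∑' j, 2 * (μ (Big 2 (2 ^ j * κ' / 2)) * (μ.prod μ) (EE l l T (2 ^ (j + 1) * κ'))) := by
      refine ENNReal.tsum_le_tsum fun j => ?_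
      calc μ (P1 j ∪ {w | Path.refl w ∈ P1 j}) ≤ μ (P1 j) + μ {w | Path.refl w ∈ P1 j} :=
            measure_union_le _ _
        _ = 2 * μ (P1 j) := by rw [hμ.refl_law (hP1m j), two_mul]
        _ ≤ _ := mul_le_mul' le_rfl (hμ.piece hl hlu hlT)

lemma IsWiener.integrated_N (hμ : IsWiener μ) {l m : ℝ} (hl : 0 < l) (hm : 0 < m) (N : ℕ) :
    ∫⁻ T in Icc l ((N + 1) * l), (μ.prod μ) (EE l l T m) * (μ {w | 3 ≤ w 1} * μ {w | 3 ≤ w 1}) ≤
      N * ENNReal.ofReal (m ^ 2) := by
  induction N with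
  | zero =>
    simp
  | succ N ih =>
    have hsub : Icc l (((N + 1 : ℕ) + 1) * l) ⊆ Icc l ((N + 1) * l) ∪
        Icc ((N + 1) * l) ((N + 1) * l + l) := by
      intro x hx
      rcases le_total x ((N + 1) * l) with h | h
      · exact Or.inl ⟨hx.1, h⟩
      · right
        refine ⟨h, hx.2.trans (le_of_eq ?_)⟩
        push_cast; ring
    have hle : l ≤ ((N : ℝ) + 1) * l := by
      have : (0 : ℝ) ≤ N := Nat.cast_nonneg N
      nlinarith
    calc ∫⁻ T in Icc l (((N + 1 : ℕ) + 1) * l), (μ.prod μ) (EE l l T m) *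
          (μ {w | 3 ≤ w 1} * μ {w | 3 ≤ w 1})
        ≤ ∫⁻ T in Icc l ((N + 1) * l) ∪ Icc ((N + 1) * l) ((N + 1) * l + l),
          (μ.prod μ) (EE l l T m) * (μ {w | 3 ≤ w 1} * μ {w | 3 ≤ w 1}) := lintegral_mono_set hsub
      _ ≤ _ := lintegral_union_le _ _ _
      _ ≤ N * ENNReal.ofReal (m ^ 2) + ENNReal.ofReal (m ^ 2) :=
        add_le_add ih (hμ.integrated hl hm hle)
      _ = _ := by push_cast; ring

end Pool.Agent.Lib.MP_097655_pr
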