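import Pool.Agent.Lib.MP_097655_pr.Bad

set_option autoImplicit false

open MeasureTheory ProbabilityTheory Set Filter
open scoped NNReal ENNReal Topology Pointwise

namespace Pool.Agent.Lib.MP_097655_pr

variable {μ : Measure Path}

lemma measurableSet_near {α : Type*} [MeasurableSpace α] {r n : α → ℝ} {w : α → Path} (K : ℝ)
    (hr : Measurable r) (hn : Measurable n) (hw : Measurable w) :
    MeasurableSet {a | ∃ y ∈ Icc (0 : ℝ) 2, |w a (n a - r a + y) - w a (n a)| < K} := by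
  refine measurableSet_exists_lt' (g := fun a y => |w a (n a - r a + y) - w a (n a)|)
    (fun a => ?_) (by norm_num) (fun y => ?_)
  · have := (w a).continuous
    fun_prop
  · have h1 : Measurable (fun a => w a (n a - r a + y)) :=
      Path.measurable_eval_comp hw (by fun_prop)
    have h2 : Measurable (fun a => w a (n a)) := Path.measurable_eval_comp hw hn
    exact (h1.sub h2).norm

lemma measurableSet_Bad (n K κ : ℝ) :
    MeasurableSet {q : ℝ × Path | q.1 ∈ BadSet n K κ q.2} := by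
  have h1 : MeasurableSet {q : ℝ × Path | q.1 ∉ Sp q.2 n} :=
    (measurableSet_Sp measurable_fst measurable_const measurable_snd).compl
  have h2 : MeasurableSet {q : ℝ × Path | ∃ y ∈ Icc (0 : ℝ) 2, |q.2 (n - q.1 + y) - q.2 n| < K} :=
    measurableSet_near (r := fun q : ℝ × Path => q.1) (n := fun _ => n) (w := fun q => q.2) K
      measurable_fst measurable_const measurable_snd
  have h3 : ∀ y : ℝ, MeasurableSet {q : ℝ × Path | κ < |q.2 (n - q.1 + y) - q.2 n|} := by
    intro y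
    have h4 : Measurable (fun q : ℝ × Path => q.2 (n - q.1 + y)) :=
      Path.measurable_eval_comp measurable_snd (by fun_prop)
    have h5 : Measurable (fun q : ℝ × Path => q.2 n) :=
      Path.measurable_eval_comp measurable_snd measurable_const
    exact measurableSet_lt measurable_const (h4.sub h5).norm
  exact h1.inter (h2.inter ((h3 (1 / 2)).union (h3 1)))

/-- Expected measure of the bad set. -/
lemma IsWiener.bad_expect (hμ : IsWiener μ) {n r0 r1 l K κ κ' C : ℝ} {N : ℕ} (hl : 0 < l)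
    (hr0 : l + 2 ≤ r0) (hr1 : r1 ≤ n - l) (hr1' : r1 ≤ (N + 1) * l + 2) (hκ' : 0 < κ')
    (hK : K ≤ κ') (hκ : K + 2 * κ' ≤ κ) (hC0 : 0 ≤ C)
    (hC : ∀ x, 0 < x → μ (Big 2 x) ≤ ENNReal.ofReal (C / x ^ 4)) :
    (∫⁻ w, volume (Ioo r0 r1 ∩ BadSet n K κ w) ∂μ) * (μ {w | 3 ≤ w 1} * μ {w | 3 ≤ w 1}) ≤
      ENNReal.ofReal (256 * C * N / κ' ^ 2) := by
  have := hμ.isProbabilityMeasure
  set p2 := μ {w | 3 ≤ w 1} * μ {w | 3 ≤ w 1} with hp2
  let D : Set (ℝ × Path) := {q | q.1 ∈ Ioo r0 r1 ∧ q.1 ∈ BadSet n K κ q.2}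
  have hD : MeasurableSet D := (measurable_fst measurableSet_Ioo).inter (measurableSet_Bad n K κ)
  have e1 : ∫⁻ w, volume (Ioo r0 r1 ∩ BadSet n K κ w) ∂μ =
      ∫⁻ r in Ioo r0 r1, μ {w | r ∈ BadSet n K κ w} := by
    have h1 : ∫⁻ w, volume (Ioo r0 r1 ∩ BadSet n K κ w) ∂μ =
        ∫⁻ w, volume ((fun r => (r, w)) ⁻¹' D) ∂μ := rfl
    rw [h1, ← Measure.prod_apply_symm hD, Measure.prod_apply hD, ← lintegral_indicator measurableSet_Ioo]
    refine lintegral_congr fun r => ?_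
    by_cases hr : r ∈ Ioo r0 r1
    · rw [indicator_of_mem hr]
      congr 1
      ext w
      simp only [mem_preimage, D, mem_ofPred_eq, hr, true_and]
    · rw [indicator_of_notMem hr]
      have : Prod.mk r ⁻¹' D = ∅ := by
        ext w
        simp only [mem_preimage, D, mem_ofPred_eq, hr, false_and, mem_empty_iff_false]
      rw [this, measure_empty]
  -- dyadic bound
  let G : ℕ → ℝ → ℝ≥0∞ := fun j T => (μ.prod μ) (EE l l T (2 ^ (j + 1) * κ'))
  have hGm : ∀ j, Measurable (G j) := by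
    intro j
    have h1 : MeasurableSet {q : ℝ × (Path × Path) | (q.2.1, q.2.2) ∈ EE l l q.1 (2 ^ (j + 1) * κ')} :=
      measurableSet_EE l _ hl.le measurable_fst (measurable_fst.comp measurable_snd)
        (measurable_snd.comp measurable_snd)
    exact measurable_measure_prodMk_left (ν := μ.prod μ) h1
  have h2 : ∫⁻ r in Ioo r0 r1, μ {w | r ∈ BadSet n K κ w} ≤
      ∫⁻ r in Ioo r0 r1, ∑' j : ℕ, 2 * (μ (Big 2 (2 ^ j * κ' / 2)) * G j (r - 2)) := by
    refine setLIntegral_mono' measurableSet_Ioo fun r hr => ?_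
    exact hμ.bad_pointwise hl.le (by linarith [hr.2]) (by linarith [hr.1]) hκ' hK hκ
  have h3 : ∫⁻ r in Ioo r0 r1, ∑' j : ℕ, 2 * (μ (Big 2 (2 ^ j * κ' / 2)) * G j (r - 2)) =
      ∑' j : ℕ, 2 * (μ (Big 2 (2 ^ j * κ' / 2)) * ∫⁻ r in Ioo r0 r1, G j (r - 2)) := by
    have hm : ∀ j, Measurable (fun r : ℝ => G j (r - 2)) := fun j =>
      (hGm j).comp (by fun_prop)
    rw [lintegral_tsum (fun j => (((hm j).const_mul _).const_mul _).aemeasurable)]
    refine tsum_congr fun j => ?_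
    rw [lintegral_const_mul _ ((hm j).const_mul _), lintegral_const_mul _ (hm j)]
  have h4 : ∀ j, (∫⁻ r in Ioo r0 r1, G j (r - 2)) * p2 ≤ N * ENNReal.ofReal ((2 ^ (j + 1) * κ') ^ 2) := by
    intro j
    have hm : Measurable (fun r : ℝ => G j (r - 2)) := (hGm j).comp (by fun_prop)
    have h5 := hμ.integrated_N (l := l) (m := 2 ^ (j + 1) * κ') hl (by positivity) N
    have h6 : (∫⁻ r in Ioo r0 r1, G j (r - 2)) ≤ ∫⁻ T in Icc l ((N + 1) * l), G j T := by
      rw [← lintegral_indicator measurableSet_Icc, ← lintegral_indicator measurableSet_Ioo,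
        ← lintegral_sub_right_eq_self ((Icc l ((N + 1) * l)).indicator (G j)) (2 : ℝ)]
      refine lintegral_mono fun r => ?_
      by_cases hr : r ∈ Ioo r0 r1
      · rw [indicator_of_mem hr, indicator_of_mem]
        exact ⟨by linarith [hr.1], by linarith [hr.2]⟩
      · rw [indicator_of_notMem hr]; exact bot_le
    calc (∫⁻ r in Ioo r0 r1, G j (r - 2)) * p2 ≤ (∫⁻ T in Icc l ((N + 1) * l), G j T) * p2 :=
          mul_le_mul' h6 le_rfl
      _ = ∫⁻ T in Icc l ((N + 1) * l), G j T * p2 := (lintegral_mul_const _ (hGm j)).symm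
      _ ≤ _ := h5
  have h5 : ∀ j : ℕ, 2 * (μ (Big 2 (2 ^ j * κ' / 2)) * ∫⁻ r in Ioo r0 r1, G j (r - 2)) * p2 ≤
      ENNReal.ofReal (128 * C * N / κ' ^ 2 * (1 / 4) ^ j) := by
    intro j
    calc 2 * (μ (Big 2 (2 ^ j * κ' / 2)) * ∫⁻ r in Ioo r0 r1, G j (r - 2)) * p2
        = 2 * (μ (Big 2 (2 ^ j * κ' / 2)) * ((∫⁻ r in Ioo r0 r1, G j (r - 2)) * p2)) := by ring
      _ ≤ 2 * (ENNReal.ofReal (C / (2 ^ j * κ' / 2) ^ 4) *
          (N * ENNReal.ofReal ((2 ^ (j + 1) * κ') ^ 2))) :=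
          mul_le_mul' le_rfl (mul_le_mul' (hC _ (by positivity)) (h4 j))
      _ = ENNReal.ofReal (2 * ((C / (2 ^ j * κ' / 2) ^ 4) * (N * ((2 ^ (j + 1) * κ') ^ 2)))) := by
          rw [ENNReal.ofReal_mul (by norm_num), ENNReal.ofReal_mul (by positivity),
            ENNReal.ofReal_mul (by positivity), ENNReal.ofReal_natCast]
          norm_num
      _ = _ := by
          congr 1
          have h4j : (4 : ℝ) ^ j = (2 ^ j) ^ 2 := by rw [← pow_mul, mul_comm, pow_mul]; norm_num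
          rw [one_div_pow, h4j, pow_succ]
          field_simp
          ring
  calc (∫⁻ w, volume (Ioo r0 r1 ∩ BadSet n K κ w) ∂μ) * p2
      ≤ (∑' j : ℕ, 2 * (μ (Big 2 (2 ^ j * κ' / 2)) * ∫⁻ r in Ioo r0 r1, G j (r - 2))) * p2 := by
        rw [e1]
        exact mul_le_mul' (h2.trans_eq h3) le_rfl
    _ = ∑' j : ℕ, 2 * (μ (Big 2 (2 ^ j * κ' / 2)) * ∫⁻ r in Ioo r0 r1, G j (r - 2)) * p2 :=
        ENNReal.tsum_mul_right.symm
    _ ≤ ∑' j : ℕ, ENNReal.ofReal (128 * C * N / κ' ^ 2 * (1 / 4) ^ j) := ENNReal.tsum_le_tsum h5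
    _ = ENNReal.ofReal (∑' j : ℕ, 128 * C * N / κ' ^ 2 * (1 / 4) ^ j) := by
        rw [ENNReal.ofReal_tsum_of_nonneg (fun j => by positivity)]
        exact (summable_geometric_of_lt_one (by norm_num) (by norm_num)).mul_left _
    _ ≤ ENNReal.ofReal (256 * C * N / κ' ^ 2) := by
        refine ENNReal.ofReal_le_ofReal ?_
        rw [tsum_mul_left, tsum_geometric_of_lt_one (by norm_num) (by norm_num)]
        have : 0 ≤ 128 * C * N / κ' ^ 2 := by positivity
        have e : 256 * C * N / κ' ^ 2 = 128 * C * N / κ' ^ 2 * 2 := by ring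
        rw [e]
        gcongr
        norm_num

end Pool.Agent.Lib.MP_097655_pr
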