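import Mathlib

set_option autoImplicit false

open MeasureTheory ProbabilityTheory Set Filter
open scoped NNReal ENNReal Topology

namespace Pool.Agent.Lib.MP_097655_pr

/-- Continuous real paths indexed by the real line that vanish on the nonpositive half line. -/
structure Path : Type where
  /-- the underlying function -/
  toFun : ℝ → ℝ
  cont' : Continuous toFun
  nonpos' : ∀ x, x ≤ 0 → toFun x = 0

instance : MeasurableSpace Path :=
  MeasurableSpace.comap (fun w : Path => w.toFun) MeasurableSpace.pi

instance : CoeFun Path (fun _ => ℝ → ℝ) := ⟨Path.toFun⟩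

namespace Path

@[ext] lemma ext {w w' : Path} (h : ∀ x, w x = w' x) : w = w' := by
  cases w; cases w'
  have : (fun x => _) = _ := funext h
  simp only at this
  subst this
  rfl

@[fun_prop] lemma continuous (w : Path) : Continuous (fun x => w x) := w.cont'

lemma of_nonpos (w : Path) {x : ℝ} (hx : x ≤ 0) : w x = 0 := w.nonpos' x hx

@[simp] lemma zero (w : Path) : w 0 = 0 := w.nonpos' 0 le_rfl

lemma measurable_val : Measurable (fun w : Path => w.toFun) := comap_measurable _

@[fun_prop] lemma measurable_eval (x : ℝ) : Measurable (fun w : Path => w x) :=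
  (measurable_pi_apply x).comp measurable_val

lemma measurable_of_eval {α : Type*} [MeasurableSpace α] {f : α → Path}
    (h : ∀ x, Measurable (fun a => f a x)) : Measurable f := by
  rw [measurable_iff_comap_le]
  change MeasurableSpace.comap f (MeasurableSpace.comap _ _) ≤ _
  rw [MeasurableSpace.comap_comp, ← measurable_iff_comap_le]
  exact measurable_pi_lambda _ h

/-- Joint measurability of the evaluation. -/
lemma measurable_eval_uncurry : Measurable (fun p : ℝ × Path => p.2 p.1) := by
  have := measurable_uncurry_of_continuous_of_measurable (u := fun (x : ℝ) (w : Path) => w x)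
    (fun w => w.continuous) (fun x => measurable_eval x)
  exact this

lemma measurable_eval_comp {α : Type*} [MeasurableSpace α] {f : α → Path} {g : α → ℝ}
    (hf : Measurable f) (hg : Measurable g) : Measurable (fun a => f a (g a)) :=
  measurable_eval_uncurry.comp (hg.prodMk hf)

/-- time-space scaling -/
noncomputable def scale (k : ℝ) (w : Path) : Path :=
  ⟨fun x => (√k)⁻¹ * w ((max k 0) * x), by
      have := w.continuous
      fun_prop, by
      intro x hx
      have : w (max k 0 * x) = 0 := w.of_nonpos (mul_nonpos_of_nonneg_of_nonpos (le_max_right _ _) hx)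
      simp [this]⟩

lemma scale_apply {k : ℝ} (hk : 0 ≤ k) (w : Path) (x : ℝ) : scale k w x = (√k)⁻¹ * w (k * x) := by
  change (√k)⁻¹ * w ((max k 0) * x) = _
  rw [max_eq_left hk]

/-- reflection -/
def refl (w : Path) : Path :=
  ⟨fun x => - w x, by
      have := w.continuous
      fun_prop, by
      intro x hx
      simp [w.of_nonpos hx]⟩

lemma refl_apply (w : Path) (x : ℝ) : refl w x = - w x := rfl

/-- time shift -/
def shift (t : ℝ) (w : Path) : Path :=
  ⟨fun x => w (t + max x 0) - w t, by
      have := w.continuous
      fun_prop, by
      intro x hx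
      simp [max_eq_right hx]⟩

lemma shift_apply' (t : ℝ) (w : Path) (x : ℝ) : shift t w x = w (t + max x 0) - w t := rfl

lemma shift_apply (t : ℝ) (w : Path) {x : ℝ} (hx : 0 ≤ x) : shift t w x = w (t + x) - w t := by
  rw [shift_apply', max_eq_left hx]

/-- stopping at a deterministic time -/
def stop (t : ℝ) (w : Path) : Path :=
  ⟨fun x => w (min x t), by
      have := w.continuous
      fun_prop, by
      intro x hx
      exact w.of_nonpos (min_le_of_left_le hx)⟩

lemma stop_apply (t : ℝ) (w : Path) (x : ℝ) : stop t w x = w (min x t) := rfl

lemma stop_apply_of_le {t : ℝ} (w : Path) {x : ℝ} (hx : x ≤ t) : stop t w x = w x := by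
  rw [stop_apply, min_eq_left hx]

@[fun_prop] lemma measurable_refl : Measurable refl :=
  measurable_of_eval fun x => (measurable_eval x).neg

@[fun_prop] lemma measurable_scale (k : ℝ) : Measurable (scale k) :=
  measurable_of_eval fun _ => (measurable_eval _).const_mul _

lemma measurable_scale_uncurry : Measurable (fun p : ℝ × Path => scale p.1 p.2) := by
  refine measurable_of_eval fun x => ?_
  change Measurable (fun p : ℝ × Path => (√p.1)⁻¹ * p.2 ((max p.1 0) * x))
  have h1 : Measurable (fun p : ℝ × Path => p.2 ((max p.1 0) * x)) :=
    measurable_eval_comp measurable_snd (by fun_prop)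
  fun_prop

@[fun_prop] lemma measurable_shift (t : ℝ) : Measurable (shift t) :=
  measurable_of_eval fun _ => (measurable_eval _).sub (measurable_eval _)

@[fun_prop] lemma measurable_stop (t : ℝ) : Measurable (stop t) :=
  measurable_of_eval fun _ => (measurable_eval _)

/-- The restriction to nonnegative times. -/
def restr (w : Path) : ℝ≥0 → ℝ := fun t => w (t : ℝ)

lemma measurable_restr : Measurable restr :=
  measurable_pi_lambda _ fun t => measurable_eval (t : ℝ)

end Path

/-- A measure on the path space is a Wiener measure if the coordinate process has the law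
of Brownian motion. -/
def IsWiener (μ : Measure Path) : Prop :=
  IsPreBrownianReal (fun (t : ℝ≥0) (w : Path) => w (t : ℝ)) μ

lemma IsWiener.isProbabilityMeasure {μ : Measure Path} (h : IsWiener μ) :
    IsProbabilityMeasure μ :=
  IsGaussianProcess.isProbabilityMeasure (IsPreBrownianReal.isGaussianProcess h)

/-- measures on path space are determined by their images on nonnegative times -/
lemma Path.measure_ext {μ ν : Measure Path} (h : μ.map Path.restr = ν.map Path.restr) : μ = ν := by
  ext s hs
  obtain ⟨A, hA, rfl⟩ := hs
  let e : (ℝ≥0 → ℝ) → (ℝ → ℝ) := fun f x => if 0 ≤ x then f x.toNNReal else 0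
  have he : Measurable e := by
    refine measurable_pi_lambda _ fun x => ?_
    by_cases hx : 0 ≤ x
    · simp only [e, hx, if_true]; exact measurable_pi_apply _
    · simp only [e, hx, if_false]; exact measurable_const
  have hcomp : ∀ w : Path, e (Path.restr w) = w.toFun := by
    intro w
    funext x
    by_cases hx : 0 ≤ x
    · simp only [e, hx, if_true, Path.restr]
      rw [Real.coe_toNNReal x hx]
    · simp only [e, hx, if_false]
      exact (w.of_nonpos (le_of_not_ge hx)).symm
  have hset : (fun w : Path => w.toFun) ⁻¹' A = Path.restr ⁻¹' (e ⁻¹' A) := by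
    ext w
    simp only [mem_preimage, hcomp]
  rw [hset, ← Measure.map_apply Path.measurable_restr (he hA),
    ← Measure.map_apply Path.measurable_restr (he hA), h]

/-- Uniqueness of Wiener measure. -/
lemma IsWiener.unique {μ ν : Measure Path} (hμ : IsWiener μ) (hν : IsWiener ν) : μ = ν := by
  have := hμ.isProbabilityMeasure
  have := hν.isProbabilityMeasure
  apply Path.measure_ext
  have h1 : IsProjectiveLimit (μ.map Path.restr) BrownianReal.projectiveFamily := by
    intro I
    rw [Measure.map_map (Finset.measurable_restrict _) Path.measurable_restr]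
    exact (hμ.hasLaw I).map_eq
  have h2 : IsProjectiveLimit (ν.map Path.restr) BrownianReal.projectiveFamily := by
    intro I
    rw [Measure.map_map (Finset.measurable_restrict _) Path.measurable_restr]
    exact (hν.hasLaw I).map_eq
  have : ∀ I, IsFiniteMeasure (BrownianReal.projectiveFamily I) := fun I => inferInstance
  exact h1.unique h2

/-- If a process on paths is pre-Brownian then the law is Wiener -/
lemma isWiener_map {Ω : Type*} {mΩ : MeasurableSpace Ω} {P : Measure Ω} {b : Ω → Path}
    (hb : Measurable b) (h : IsPreBrownianReal (fun (t : ℝ≥0) (ω : Ω) => b ω (t : ℝ)) P) :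
    IsWiener (P.map b) := by
  refine ⟨fun I => ⟨?_, ?_⟩⟩
  · refine Measurable.aemeasurable ?_
    exact measurable_pi_lambda _ fun t => Path.measurable_eval _
  · have hm : Measurable (fun w : Path => I.restrict (fun t : ℝ≥0 => w (t : ℝ))) :=
      measurable_pi_lambda _ fun t => Path.measurable_eval _
    rw [Measure.map_map hm hb]
    exact (h.hasLaw I).map_eq

end Pool.Agent.Lib.MP_097655_pr
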