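import Pool.Agent.Lib.MP_097655_pr.SLaw

set_option autoImplicit false

open MeasureTheory ProbabilityTheory Set Filter
open scoped NNReal ENNReal Topology Pointwise

namespace Pool.Agent.Lib.MP_097655_pr

variable {μ : Measure Path}

/-- The persistence event for a pair (past, future). -/
def EE (u l T m : ℝ) : Set (Path × Path) :=
  {p | |p.2 T| ≤ 3 * m ∧ ∀ x ∈ Icc 0 l, p.2 (T - x) ≤ m + (p.1 (u - x) - p.1 u)}

lemma measurableSet_EE {α : Type*} [MeasurableSpace α] {T : α → ℝ} {p f : α → Path} (u m : ℝ)
    {l : ℝ} (hl : 0 ≤ l) (hT : Measurable T) (hp : Measurable p) (hf : Measurable f) :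
    MeasurableSet {a | (p a, f a) ∈ EE u l (T a) m} := by
  have h1 : MeasurableSet {a | |f a (T a)| ≤ 3 * m} :=
    measurableSet_le (Path.measurable_eval_comp hf hT).norm measurable_const
  have h2 : MeasurableSet {a | ∃ x ∈ Icc 0 l, m + (p a (u - x) - p a u) - f a (T a - x) < 0} := by
    refine measurableSet_exists_lt' (g := fun a x => m + (p a (u - x) - p a u) - f a (T a - x))
      (fun a => ?_) hl (fun x => ?_)
    · have h3 := (p a).continuous
      have h4 := (f a).continuous
      fun_prop
    · have h3 : Measurable (fun a => p a (u - x)) := Path.measurable_eval_comp hp measurable_const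
      have h4 : Measurable (fun a => p a u) := Path.measurable_eval_comp hp measurable_const
      have h5 : Measurable (fun a => f a (T a - x)) :=
        Path.measurable_eval_comp hf (hT.sub measurable_const)
      exact (measurable_const.add (h3.sub h4)).sub h5
  have h3 : {a | (p a, f a) ∈ EE u l (T a) m} = {a | |f a (T a)| ≤ 3 * m} ∩
      {a | ∃ x ∈ Icc 0 l, m + (p a (u - x) - p a u) - f a (T a - x) < 0}ᶜ := by
    ext a
    simp only [EE, mem_ofPred_eq, mem_inter_iff, mem_compl_iff, not_exists, not_and, not_lt,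
      sub_nonneg]
  rw [h3]
  exact h1.inter h2.compl

lemma measurableSet_EE' (u : ℝ) {l : ℝ} (hl : 0 ≤ l) (T m : ℝ) : MeasurableSet (EE u l T m) :=
  measurableSet_EE u m hl measurable_const measurable_fst measurable_snd

/-- Law of the pair (past, future) across a gap. -/
lemma IsWiener.pair_law (hμ : IsWiener μ) {u h T : ℝ} (hu : 0 ≤ u) (hh : 0 ≤ h) (hT : 0 ≤ T)
    {E : Set (Path × Path)} (hE : MeasurableSet E) :
    μ {w | (Path.stop u w, Path.stop T (Path.shift (u + h) w)) ∈ E} =
      (μ.prod μ) {p | (Path.stop u p.1, Path.stop T p.2) ∈ E} := by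
  have := hμ.isProbabilityMeasure
  have h1 : IndepFun (fun w : Path => Path.stop u w)
      (fun w : Path => Path.stop T (Path.shift (u + h) w)) μ := by
    have h2 := (hμ.indepFun_past (u := u + h) (h := T) (by linarith) hT).comp
      (Path.measurable_stop u) measurable_id
    have h3 : (Path.stop u ∘ fun w : Path => Path.stop (u + h) w) = fun w => Path.stop u w := by
      funext w
      ext x
      simp only [Function.comp_apply, Path.stop_apply]
      rw [min_assoc, min_eq_left (by linarith : u ≤ u + h)]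
    rw [h3] at h2
    exact h2
  have hm1 : Measurable (fun w : Path => Path.stop u w) := Path.measurable_stop u
  have hm2 : Measurable (fun w : Path => Path.stop T (Path.shift (u + h) w)) :=
    (Path.measurable_stop T).comp (Path.measurable_shift (u + h))
  have h4 := (indepFun_iff_map_prod_eq_prod_map_map hm1.aemeasurable hm2.aemeasurable).mp h1
  have h5 : μ.map (fun w : Path => Path.stop T (Path.shift (u + h) w)) = μ.map (Path.stop T) := by
    conv_rhs => rw [← hμ.map_shift (t := u + h) (by linarith)]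
    rw [Measure.map_map (Path.measurable_stop T) (Path.measurable_shift (u + h))]
    rfl
  rw [h5] at h4
  have h6 : (μ.map (fun w : Path => Path.stop u w)).prod (μ.map (Path.stop T)) =
      (μ.prod μ).map (Prod.map (fun w : Path => Path.stop u w) (Path.stop T)) :=
    Measure.map_prod_map μ μ hm1 (Path.measurable_stop T)
  rw [h6] at h4
  have h7 : μ {w | (Path.stop u w, Path.stop T (Path.shift (u + h) w)) ∈ E} =
      (μ.map (fun w : Path => (Path.stop u w, Path.stop T (Path.shift (u + h) w)))) E := by
    rw [Measure.map_apply (hm1.prodMk hm2) hE]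
    rfl
  rw [h7, h4, Measure.map_apply (hm1.prodMap (Path.measurable_stop T)) hE]
  rfl

lemma EE_stop {u l T m : ℝ} (p : Path × Path) :
    (Path.stop u p.1, Path.stop T p.2) ∈ EE u l T m ↔ p ∈ EE u l T m := by
  simp only [EE, mem_ofPred_eq]
  rw [Path.stop_apply_of_le _ le_rfl, Path.stop_apply_of_le _ le_rfl]
  refine and_congr_right fun _ => forall₂_congr fun x hx => ?_
  rw [Path.stop_apply_of_le _ (by linarith [hx.1]), Path.stop_apply_of_le _ (by linarith [hx.1])]

lemma IsWiener.EE_mono (hμ : IsWiener μ) {u' l u T m : ℝ} (h0 : 0 ≤ u') (h1 : u' ≤ l)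
    (h2 : l ≤ u) : (μ.prod μ) (EE u l T m) ≤ (μ.prod μ) (EE u' u' T m) := by
  have := hμ.isProbabilityMeasure
  have e1 : (μ.prod μ) (EE u' u' T m) =
      (μ.prod μ) (Prod.map (Path.shift (u - u')) id ⁻¹' (EE u' u' T m)) := by
    rw [← Measure.map_apply ((Path.measurable_shift _).prodMap measurable_id)
      (measurableSet_EE' u' h0 T m), ← Measure.map_prod_map μ μ (Path.measurable_shift _) measurable_id,
      hμ.map_shift (by linarith), Measure.map_id]
  rw [e1]
  refine measure_mono ?_
  rintro ⟨p, f⟩ ⟨h3, h4⟩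
  refine ⟨h3, fun x hx => ?_⟩
  have h5 := h4 x ⟨hx.1, hx.2.trans h1⟩
  simp only [Prod.map_snd, Prod.map_fst, id_eq] at h5 ⊢
  rw [Path.shift_apply _ _ (by linarith [hx.2]), Path.shift_apply _ _ h0]
  have e2 : u - u' + (u' - x) = u - x := by ring
  have e3 : u - u' + u' = u := by ring
  rw [e2, e3]
  linarith

/-- Capture lemma (deterministic). -/
lemma capture {w : Path} {u h T m : ℝ} (hu : 0 ≤ u) (hh : 0 ≤ h) (hT : u ≤ T)
    (hE : (w, Path.shift (u + h) w) ∈ EE u u T m) (h1 : m < w u - w (u + h))
    (h2 : 3 * m ≤ w (u + h + T + h) - w (u + h + T)) :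
    h + T ∈ Sp w (u + h + T + h) \ Sp w (u + h + T) := by
  obtain ⟨h3, h4⟩ := hE
  simp only at h3 h4
  have hT0 : 0 ≤ T := hu.trans hT
  have key : ∀ x ∈ Icc 0 u, w (u + h + T - x) < w (u - x) := by
    intro x hx
    have h5 := h4 x hx
    rw [Path.shift_apply _ _ (by linarith [hx.2])] at h5
    have e1 : u + h + (T - x) = u + h + T - x := by ring
    rw [e1] at h5
    linarith
  constructor
  · refine ⟨by linarith, ?_⟩
    -- intermediate value on [0,h]
    have hc : ContinuousOn (fun y => w (u + h + T + y) - w (u + y)) (Icc 0 h) := by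
      have := w.continuous
      fun_prop
    have h6 : w (u + h + T + 0) - w (u + 0) ≤ 0 := by
      have := key 0 ⟨le_rfl, hu⟩
      rw [sub_zero, sub_zero] at this
      rw [add_zero, add_zero]; linarith
    have h7 : 0 ≤ w (u + h + T + h) - w (u + h) := by
      rw [Path.shift_apply _ _ hT0] at h3
      have := (abs_le.mp h3).1
      linarith
    obtain ⟨y, hy, hy0⟩ := intermediate_value_Icc hh hc ⟨h6, h7⟩
    refine ⟨u + h + T + y, by linarith [hy.1], by linarith [hy.2], ?_⟩
    simp only at hy0
    have e1 : u + h + T + y - (h + T) = u + y := by ring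
    rw [e1]; linarith
  · rintro ⟨h5, v, h6, h7, h8⟩
    have h9 := key (u + h + T - v) ⟨by linarith, by linarith⟩
    have e1 : u + h + T - (u + h + T - v) = v := by ring
    have e2 : u - (u + h + T - v) = v - (h + T) := by ring
    rw [e1, e2] at h9
    linarith

/-- The constant: probability that a standard Gaussian is at least 3. -/
lemma IsWiener.pos_const (hμ : IsWiener μ) : μ {w | 3 ≤ w 1} ≠ 0 := by
  have h1 := IsPreBrownianReal.hasLaw_eval hμ 1
  have h2 := h1.measure_eq (p := fun x => 3 ≤ x) measurableSet_Ici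
  simp only [NNReal.coe_one] at h2
  rw [h2]
  intro h3
  have h4 := gaussianReal_absolutelyContinuous' 0 (one_ne_zero : (1 : ℝ≥0) ≠ 0) h3
  have h5 : {x : ℝ | 3 ≤ x} = Ici 3 := rfl
  rw [h5, Real.volume_Ici] at h4
  exact absurd h4 (by simp)

lemma IsWiener.incr_law (hμ : IsWiener μ) {s h : ℝ} (hs : 0 ≤ s) (hh : 0 ≤ h) {A : Set ℝ}
    (hA : MeasurableSet A) : μ {w | w (s + h) - w s ∈ A} = μ {w | w h ∈ A} := by
  conv_rhs => rw [← hμ.map_shift hs]
  rw [Measure.map_apply (Path.measurable_shift s)
    (show MeasurableSet {w : Path | w h ∈ A} from Path.measurable_eval h hA)]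
  congr 1
  ext w
  simp only [mem_ofPred_eq, mem_preimage, Path.shift_apply s w hh]

lemma IsWiener.scaled_law (hμ : IsWiener μ) {m : ℝ} (hm : 0 < m) {A : Set ℝ}
    (hA : MeasurableSet A) : μ {w | w (m ^ 2) / m ∈ A} = μ {w | w 1 ∈ A} := by
  have hm2 : 0 < m ^ 2 := by positivity
  conv_rhs => rw [← hμ.map_scale hm2]
  rw [Measure.map_apply (Path.measurable_scale _)
    (show MeasurableSet {w : Path | w 1 ∈ A} from Path.measurable_eval 1 hA)]
  congr 1
  ext w
  simp only [mem_ofPred_eq, mem_preimage, Path.scale_apply hm2.le, mul_one, Real.sqrt_sq hm.le]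
  rw [div_eq_inv_mul]

lemma IsWiener.refl_law (hμ : IsWiener μ) {A : Set Path} (hA : MeasurableSet A) :
    μ {w | Path.refl w ∈ A} = μ A := by
  conv_rhs => rw [← hμ.map_refl]
  rw [Measure.map_apply Path.measurable_refl hA]
  rfl

/-- Probability lower bound for the capture event. -/
lemma IsWiener.capture_prob (hμ : IsWiener μ) {u T m : ℝ} (hu : 0 ≤ u) (hm : 0 < m) (hT : u ≤ T) :
    (μ.prod μ) (EE u u T m) * (μ {w | 3 ≤ w 1} * μ {w | 3 ≤ w 1}) ≤
      μ {w | m ^ 2 + T ∈ Sp w (u + m ^ 2 + T + m ^ 2) \ Sp w (u + m ^ 2 + T)} := by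
  have := hμ.isProbabilityMeasure
  have hT0 : 0 ≤ T := hu.trans hT
  set h := m ^ 2 with hh
  have hh0 : 0 < h := by positivity
  set p := μ {w | 3 ≤ w 1} with hp
  -- the three events
  let A : Set Path := {w | (Path.stop u w, Path.stop T (Path.shift (u + h) w)) ∈ EE u u T m}
  let B : Set Path := {w | m < w u - w (u + h)}
  let C : Set Path := {w | 3 * m ≤ w (u + h + T + h) - w (u + h + T)}
  have hEE := measurableSet_EE' u hu T m
  have hA : μ A = (μ.prod μ) (EE u u T m) := by
    rw [hμ.pair_law hu hh0.le hT0 hEE]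
    congr 1
    ext q; exact EE_stop q
  have hpB : p ≤ μ B := by
    have h1 : μ B = μ {w | w (m ^ 2) / m ∈ Ioi 1} := by
      have e1 : B = {w | Path.refl w ∈ {w : Path | w (u + h) - w u ∈ Ioi m}} := by
        ext w
        simp only [B, mem_ofPred_eq, Path.refl_apply, mem_Ioi]
        constructor <;> intro h <;> linarith
      rw [e1, hμ.refl_law (A := {w : Path | w (u + h) - w u ∈ Ioi m})
        (((Path.measurable_eval _).sub (Path.measurable_eval _)) measurableSet_Ioi),
        hμ.incr_law hu hh0.le measurableSet_Ioi]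
      congr 1
      ext w
      simp only [mem_ofPred_eq, mem_Ioi, ← hh]
      rw [lt_div_iff₀ hm, one_mul]
    rw [h1, hμ.scaled_law hm measurableSet_Ioi]
    refine measure_mono fun w hw => ?_
    simp only [mem_ofPred_eq, mem_Ioi] at hw ⊢
    linarith
  have hpC : p = μ C := by
    have h1 : μ C = μ {w | w (m ^ 2) / m ∈ Ici 3} := by
      have e1 : C = {w : Path | w (u + h + T + h) - w (u + h + T) ∈ Ici (3 * m)} := rfl
      rw [e1, hμ.incr_law (by positivity) hh0.le measurableSet_Ici]
      congr 1
      ext w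
      simp only [mem_ofPred_eq, mem_Ici, ← hh]
      rw [le_div_iff₀ hm]
    rw [h1, hμ.scaled_law hm measurableSet_Ici]
    rfl
  -- independence of A and B
  have hAB : μ (A ∩ B) = μ A * μ B := by
    have hI := (hμ.indepFun_middle (u := u) (h := h) hu hh0.le).comp
      (φ := fun q : Path × Path => (Path.stop u q.1, Path.stop T q.2)) (ψ := fun f : Path => f)
      (by fun_prop) measurable_id
    have hBm : MeasurableSet {f : Path | m < - f h} :=
      measurableSet_lt measurable_const (Path.measurable_eval h).neg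
    have h2 := hI.measure_inter_preimage_eq_mul (EE u u T m) {f : Path | m < - f h} hEE hBm
    have eA : ((fun q : Path × Path => (Path.stop u q.1, Path.stop T q.2)) ∘
        fun w : Path => (Path.stop u w, Path.shift (u + h) w)) ⁻¹' EE u u T m = A := by
      ext w
      simp only [mem_preimage, Function.comp_apply, A, mem_ofPred_eq]
      have : Path.stop u (Path.stop u w) = Path.stop u w := by
        ext x; simp only [Path.stop_apply]; rw [min_assoc, min_self]
      rw [this]
    have eB : ((fun f : Path => f) ∘ fun w : Path => Path.stop h (Path.shift u w)) ⁻¹'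
        {f : Path | m < - f h} = B := by
      ext w
      simp only [mem_preimage, Function.comp_apply, B, mem_ofPred_eq]
      rw [Path.stop_apply_of_le _ le_rfl, Path.shift_apply _ _ hh0.le]
      constructor <;> intro h <;> linarith
    rw [eA, eB] at h2
    exact h2
  -- independence of C and the past
  have hABC : μ ((A ∩ B) ∩ C) = μ (A ∩ B) * μ C := by
    have hI := hμ.indepFun_past (u := u + h + T) (h := h) (by positivity) hh0.le
    have hAm : MeasurableSet A := by
      have : Measurable (fun w : Path => (Path.stop u w, Path.stop T (Path.shift (u + h) w))) := by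
        fun_prop
      exact this hEE
    have hBm : MeasurableSet B :=
      measurableSet_lt measurable_const ((Path.measurable_eval _).sub (Path.measurable_eval _))
    have hCm : MeasurableSet {f : Path | 3 * m ≤ f h} :=
      measurableSet_le measurable_const (Path.measurable_eval h)
    have h2 := hI.measure_inter_preimage_eq_mul (A ∩ B) {f : Path | 3 * m ≤ f h}
      (hAm.inter hBm) hCm
    have eAB : (fun w : Path => Path.stop (u + h + T) w) ⁻¹' (A ∩ B) = A ∩ B := by
      ext w
      simp only [mem_preimage, mem_inter_iff, A, B, mem_ofPred_eq]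
      have e1 : Path.stop u (Path.stop (u + h + T) w) = Path.stop u w := by
        ext x; simp only [Path.stop_apply]
        rw [min_assoc, min_eq_left (by linarith : u ≤ u + h + T)]
      have e2 : Path.stop T (Path.shift (u + h) (Path.stop (u + h + T) w)) =
          Path.stop T (Path.shift (u + h) w) := by
        ext x
        simp only [Path.stop_apply, Path.shift_apply']
        have h3 : max (min x T) 0 ≤ T := max_le (min_le_right _ _) hT0
        rw [min_eq_left (by linarith : u + h + max (min x T) 0 ≤ u + h + T),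
          min_eq_left (by linarith : u + h ≤ u + h + T)]
      rw [e1, e2, Path.stop_apply_of_le w (by linarith : u ≤ u + h + T),
        Path.stop_apply_of_le w (by linarith : u + h ≤ u + h + T)]
    have eC : (fun w : Path => Path.stop h (Path.shift (u + h + T) w)) ⁻¹'
        {f : Path | 3 * m ≤ f h} = C := by
      ext w
      simp only [mem_preimage, C, mem_ofPred_eq]
      rw [Path.stop_apply_of_le _ le_rfl, Path.shift_apply _ _ hh0.le]
    rw [eAB, eC] at h2
    exact h2
  calc (μ.prod μ) (EE u u T m) * (p * p) ≤ μ A * (μ B * μ C) := by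
        rw [hA, ← hpC]; gcongr
    _ = μ ((A ∩ B) ∩ C) := by rw [hABC, hAB, mul_assoc]
    _ ≤ _ := by
      refine measure_mono ?_
      rintro w ⟨⟨h1, h2⟩, h3⟩
      have h4 : (w, Path.shift (u + h) w) ∈ EE u u T m :=
        (EE_stop (w, Path.shift (u + h) w)).mp h1
      exact capture hu hh0.le hT h4 h2 h3

/-- Integrated persistence bound. -/
lemma IsWiener.integrated (hμ : IsWiener μ) {l m T0 : ℝ} (hl : 0 < l) (hm : 0 < m) (hT : l ≤ T0) :
    ∫⁻ T in Icc T0 (T0 + l), (μ.prod μ) (EE l l T m) * (μ {w | 3 ≤ w 1} * μ {w | 3 ≤ w 1}) ≤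
      ENNReal.ofReal (m ^ 2) := by
  have := hμ.isProbabilityMeasure
  set t := T0 + l + m ^ 2 with ht
  have ht0 : 0 < t := by
    have := hl.trans_le hT
    positivity
  have h1 : ∀ T ∈ Icc T0 (T0 + l),
      (μ.prod μ) (EE l l T m) * (μ {w | 3 ≤ w 1} * μ {w | 3 ≤ w 1}) ≤
        μ {w | m ^ 2 + T ∈ Sp w (t + m ^ 2) \ Sp w t} := by
    intro T hTT
    have hu0 : 0 ≤ T0 + l - T := by linarith [hTT.2]
    have hul : T0 + l - T ≤ l := by linarith [hTT.1]
    calc (μ.prod μ) (EE l l T m) * (μ {w | 3 ≤ w 1} * μ {w | 3 ≤ w 1}) ≤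
        (μ.prod μ) (EE (T0 + l - T) (T0 + l - T) T m) * (μ {w | 3 ≤ w 1} * μ {w | 3 ≤ w 1}) :=
          mul_le_mul' (hμ.EE_mono hu0 hul le_rfl) le_rfl
      _ ≤ _ := by
        have h2 := hμ.capture_prob hu0 hm (by linarith [hTT.1] : T0 + l - T ≤ T)
        have e1 : T0 + l - T + m ^ 2 + T = t := by rw [ht]; ring
        rw [e1] at h2
        exact h2
  let D : Set (ℝ × Path) := {q | q.1 ∈ Sp q.2 (t + m ^ 2) \ Sp q.2 t}
  have hD : MeasurableSet D :=
    (measurableSet_Sp measurable_fst measurable_const measurable_snd).diff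
      (measurableSet_Sp measurable_fst measurable_const measurable_snd)
  calc ∫⁻ T in Icc T0 (T0 + l), (μ.prod μ) (EE l l T m) * (μ {w | 3 ≤ w 1} * μ {w | 3 ≤ w 1})
      ≤ ∫⁻ T in Icc T0 (T0 + l), μ {w | m ^ 2 + T ∈ Sp w (t + m ^ 2) \ Sp w t} :=
        setLIntegral_mono' measurableSet_Icc h1
    _ ≤ ∫⁻ T, μ {w | m ^ 2 + T ∈ Sp w (t + m ^ 2) \ Sp w t} := setLIntegral_le_lintegral _ _
    _ = ∫⁻ r, μ (Prod.mk r ⁻¹' D) := by
      exact lintegral_add_left_eq_self (μ := (volume : Measure ℝ)) (fun r => μ (Prod.mk r ⁻¹' D)) (m ^ 2)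
    _ = ∫⁻ w, volume ((fun r => (r, w)) ⁻¹' D) ∂μ := by
      rw [← Measure.prod_apply hD, ← Measure.prod_apply_symm hD]
    _ ≤ ENNReal.ofReal (m ^ 2) := hμ.lintegral_diff_le ht0 (by positivity)

end Pool.Agent.Lib.MP_097655_pr
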