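import Pool.Agent.Lib.MP_097655_pr.Bad2

set_option autoImplicit false

open MeasureTheory ProbabilityTheory Set Filter
open scoped NNReal ENNReal Topology Pointwise

namespace Pool.Agent.Lib.MP_097655_pr

variable {μ : Measure Path}

/-! ### Auxiliary choices -/

lemma IsWiener.exists_rho (hμ : IsWiener μ) {ε : ℝ≥0∞} (hε : ε ≠ 0) :
    ∃ ρ : ℝ, 0 < ρ ∧ ρ ≤ 1 / 2 ∧ μ {w | spT w 1 ≤ ρ} < ε := by
  have := hμ.isProbabilityMeasure
  let s : ℕ → Set Path := fun k => {w | spT w 1 ≤ 1 / ((k : ℝ) + 2)}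
  have hanti : Antitone s := by
    intro i j hij w hw
    simp only [s, mem_ofPred_eq] at hw ⊢
    refine hw.trans ?_
    have : (i : ℝ) ≤ j := by exact_mod_cast hij
    gcongr
  have hm : ∀ k, NullMeasurableSet (s k) μ := fun k =>
    (measurableSet_le measurable_spT measurable_const).nullMeasurableSet
  have hlim := tendsto_measure_iInter_atTop (μ := μ) hm hanti ⟨0, measure_ne_top _ _⟩
  have hzero : μ (⋂ k, s k) = 0 := by
    refine measure_mono_null (fun w hw => ?_) (measure_spT_eq hμ 0)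
    simp only [mem_iInter, s, mem_ofPred_eq] at hw ⊢
    refine le_antisymm ?_ (spT_nonneg _ _)
    refine le_of_forall_pos_lt_add fun η hη => ?_
    obtain ⟨k, hk⟩ := exists_nat_one_div_lt hη
    have h1 := hw k
    have h2 : 1 / ((k : ℝ) + 2) ≤ 1 / ((k : ℝ) + 1) := by gcongr; norm_num
    linarith
  rw [hzero] at hlim
  have h1 := (tendsto_order.1 hlim).2 ε (pos_iff_ne_zero.mpr hε)
  obtain ⟨k, hk⟩ := h1.exists
  refine ⟨1 / ((k : ℝ) + 2), by positivity, ?_, hk⟩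
  have : (0 : ℝ) ≤ k := Nat.cast_nonneg k
  gcongr
  linarith

/-- near return to the final value at early times -/
def Near (θ : ℝ) : Set Path := {w | ∃ v ∈ Icc 0 θ, |w v - w 1| < θ}

lemma measurableSet_Near {θ : ℝ} (hθ : 0 ≤ θ) : MeasurableSet (Near θ) := by
  refine measurableSet_exists_lt' (g := fun (w : Path) v => |w v - w 1|) (fun w => ?_) hθ
    (fun v => ?_)
  · have := w.continuous
    fun_prop
  · exact ((Path.measurable_eval v).sub (Path.measurable_eval 1)).norm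

lemma IsWiener.exists_theta (hμ : IsWiener μ) {ε : ℝ≥0∞} (hε : ε ≠ 0) :
    ∃ θ : ℝ, 0 < θ ∧ θ ≤ 1 ∧ μ (Near θ) < ε := by
  have := hμ.isProbabilityMeasure
  let s : ℕ → Set Path := fun k => Near (1 / ((k : ℝ) + 1))
  have hanti : Antitone s := by
    intro i j hij w hw
    obtain ⟨v, hv, hv2⟩ := hw
    have h0 : (i : ℝ) ≤ j := by exact_mod_cast hij
    have h1 : 1 / ((j : ℝ) + 1) ≤ 1 / ((i : ℝ) + 1) := by gcongr
    exact ⟨v, ⟨hv.1, hv.2.trans h1⟩, hv2.trans_le h1⟩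
  have hm : ∀ k, NullMeasurableSet (s k) μ := fun k =>
    (measurableSet_Near (by positivity)).nullMeasurableSet
  have hlim := tendsto_measure_iInter_atTop (μ := μ) hm hanti ⟨0, measure_ne_top _ _⟩
  have hzero : μ (⋂ k, s k) = 0 := by
    refine measure_mono_null (fun w hw => ?_) (hμ.measure_eval_eq le_rfl zero_le_one zero_ne_one)
    simp only [mem_iInter, s] at hw
    simp only [mem_ofPred_eq]
    by_contra hne
    -- continuity at 0
    have hd : 0 < |w 0 - w 1| := abs_pos.mpr (sub_ne_zero.mpr hne)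
    have hopen : IsOpen {u : ℝ | |w 0 - w 1| / 2 < |w u - w 1|} :=
      isOpen_lt continuous_const (by have := w.continuous; fun_prop)
    have h0mem : (0 : ℝ) ∈ {u : ℝ | |w 0 - w 1| / 2 < |w u - w 1|} := by
      simp only [mem_ofPred_eq]; linarith
    obtain ⟨η, hη, hball⟩ := Metric.isOpen_iff.mp hopen 0 h0mem
    obtain ⟨k, hk⟩ := exists_nat_one_div_lt (lt_min hη (half_pos hd))
    rw [lt_min_iff] at hk
    obtain ⟨v, hv, hv2⟩ := hw k
    have h2 : v ∈ Metric.ball (0 : ℝ) η := by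
      rw [Metric.mem_ball, Real.dist_eq, sub_zero, abs_of_nonneg hv.1]
      exact hv.2.trans_lt hk.1
    have h3 := hball h2
    simp only [mem_ofPred_eq] at h3
    linarith
  rw [hzero] at hlim
  have h1 := (tendsto_order.1 hlim).2 ε (pos_iff_ne_zero.mpr hε)
  obtain ⟨k, hk⟩ := h1.exists
  refine ⟨1 / ((k : ℝ) + 1), by positivity, ?_, hk⟩
  rw [div_le_one (by positivity)]
  have : (0 : ℝ) ≤ k := Nat.cast_nonneg k
  linarith

/-- The scenario with a large positive value followed by a large negative value. -/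
lemma IsWiener.scenario_pos (hμ : IsWiener μ) (κ : ℝ) :
    μ {w | κ < w (1 / 2) ∧ w 1 < -κ} ≠ 0 := by
  have := hμ.isProbabilityMeasure
  -- choose ranges
  let a : ℝ := max κ 0
  have hgauss : ∀ (s : ℝ) (U : Set ℝ), 0 < s → MeasurableSet U → volume U ≠ 0 →
      μ {w | w s ∈ U} ≠ 0 := by
    intro s U hs hU hvol h
    have h1 := IsPreBrownianReal.hasLaw_eval hμ s.toNNReal
    have h2 := h1.measure_eq (p := fun x => x ∈ U) hU
    simp only [Real.coe_toNNReal s hs.le] at h2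
    rw [h2] at h
    exact hvol (gaussianReal_absolutelyContinuous' 0 (by simpa using hs : s.toNNReal ≠ 0) h)
  have h1 : μ {w | w (1 / 2) ∈ Ioo a (a + 1)} ≠ 0 :=
    hgauss _ _ (by norm_num) measurableSet_Ioo (by rw [Real.volume_Ioo]; simp)
  have h2 : μ {w | w (1 / 2) ∈ Iio (- (2 * a + 1))} ≠ 0 :=
    hgauss _ _ (by norm_num) measurableSet_Iio (by rw [Real.volume_Iio]; simp)
  have hI := (hμ.indepFun_past (u := 1 / 2) (h := 1 / 2) (by norm_num) (by norm_num))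
  have hm1 : MeasurableSet {f : Path | f (1 / 2) ∈ Ioo a (a + 1)} :=
    Path.measurable_eval _ measurableSet_Ioo
  have hm2 : MeasurableSet {f : Path | f (1 / 2) ∈ Iio (- (2 * a + 1))} :=
    Path.measurable_eval _ measurableSet_Iio
  have h3 := hI.measure_inter_preimage_eq_mul _ _ hm1 hm2
  have e1 : (fun w : Path => Path.stop (1 / 2) w) ⁻¹' {f : Path | f (1 / 2) ∈ Ioo a (a + 1)} =
      {w : Path | w (1 / 2) ∈ Ioo a (a + 1)} := by
    ext w
    simp only [mem_preimage, mem_ofPred_eq]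
    rw [Path.stop_apply_of_le _ le_rfl]
  have e2 : μ ((fun w : Path => Path.stop (1 / 2) (Path.shift (1 / 2) w)) ⁻¹'
      {f : Path | f (1 / 2) ∈ Iio (- (2 * a + 1))}) = μ {w : Path | w (1 / 2) ∈ Iio (- (2 * a + 1))} := by
    rw [← hμ.incr_law (s := 1 / 2) (h := 1 / 2) (by norm_num) (by norm_num) measurableSet_Iio]
    congr 1
    ext w
    simp only [mem_preimage, mem_ofPred_eq]
    rw [Path.stop_apply_of_le _ le_rfl, Path.shift_apply _ _ (by norm_num)]
  rw [e1, e2] at h3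
  intro h4
  have h5 : μ ({w : Path | w (1 / 2) ∈ Ioo a (a + 1)} ∩
      (fun w : Path => Path.stop (1 / 2) (Path.shift (1 / 2) w)) ⁻¹'
      {f : Path | f (1 / 2) ∈ Iio (- (2 * a + 1))}) = 0 := by
    refine measure_mono_null ?_ h4
    rintro w ⟨h6, h7⟩
    simp only [mem_preimage, mem_ofPred_eq, mem_Ioo, mem_Iio] at h6 h7 ⊢
    rw [Path.stop_apply_of_le _ le_rfl, Path.shift_apply _ _ (by norm_num)] at h7
    have e3 : (1 / 2 : ℝ) + 1 / 2 = 1 := by norm_num
    rw [e3] at h7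
    have h8 : κ ≤ a := le_max_left _ _
    have h9 : 0 ≤ a := le_max_right _ _
    constructor <;> linarith
  rw [h5] at h3
  rcases mul_eq_zero.mp h3.symm with h6 | h6
  · exact h1 h6
  · exact h2 h6

/-! ### Deterministic sandwich -/

/-- candidate new spans -/
def VSet (n K : ℝ) (w : ℝ → ℝ) : Set ℝ :=
  {r | r ∉ Sp w n ∧ ∃ y ∈ Icc (0 : ℝ) 2, |w (n - r + y) - w n| < K}

/-- surely captured spans -/
def CSet (n κ : ℝ) (w : ℝ → ℝ) : Set ℝ :=
  {r | r ∉ Sp w n ∧ |w (n - r + 1 / 2) - w n| ≤ κ ∧ |w (n - r + 1) - w n| ≤ κ}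

lemma new_subset_V {w : Path} {n ρ δ K K' : ℝ} (hn : 0 < n) (hKK : K' < K)
    (hT : ρ * n < spT w n) (hfar : ∀ v ∈ Icc 0 (δ * n + 2), K ≤ |w v - w n|)
    (hW : ∀ y ∈ Icc (0 : ℝ) 2, |w (n + y) - w n| ≤ K') :
    Sp w (n + 2) \ Sp w n ⊆ Ioo (ρ * n) ((1 - δ) * n) ∩ VSet n K w := by
  rintro r ⟨⟨hr0, v, hv1, hv2, hv3⟩, hrn⟩
  have hvn : n < v := by
    by_contra h
    exact hrn ⟨hr0, v, hv1, not_lt.mp h, hv3⟩
  have hy : v - n ∈ Icc (0 : ℝ) 2 := ⟨by linarith, by linarith⟩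
  have h1 : |w v - w n| ≤ K' := by
    have := hW _ hy
    rwa [add_sub_cancel] at this
  have hrpos : 0 < r := by
    rcases hr0.eq_or_lt with h | h
    · exfalso
      apply hrn
      rw [← h]
      exact ⟨le_rfl, 0, le_rfl, hn.le, by simp⟩
    · exact h
  have h2 : ρ * n < r := by
    refine lt_of_lt_of_le hT ?_
    exact csInf_le (bddBelow_compl w n) ⟨hrpos, hrn⟩
  have h3 : r < (1 - δ) * n := by
    by_contra hcon
    push Not at hcon
    have h4 := hfar (v - r) ⟨by linarith, by linarith⟩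
    rw [← hv3] at h4
    linarith
  refine ⟨⟨h2, h3⟩, hrn, v - n, hy, ?_⟩
  have e1 : n - r + (v - n) = v - r := by ring
  rw [e1, ← hv3]
  exact h1.trans_lt hKK

lemma C_subset_new {w : Path} {n κ : ℝ}
    (h1 : κ < w (n + 1 / 2) - w n) (h2 : w (n + 1) - w n < -κ) :
    Ioo 1 n ∩ CSet n κ w ⊆ Sp w (n + 1) \ Sp w n := by
  rintro r ⟨hr, hrn, h3, h4⟩
  refine ⟨⟨by linarith [hr.1], ?_⟩, hrn⟩
  have hc : ContinuousOn (fun y => w (n + y) - w (n - r + y)) (Icc (1 / 2 : ℝ) 1) := by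
    have := w.continuous
    fun_prop
  have h5 := (abs_le.mp h3).2
  have h6 := (abs_le.mp h4).1
  obtain ⟨y, hy, hy0⟩ := intermediate_value_Icc' (by norm_num : (1 / 2 : ℝ) ≤ 1) hc
    (show (0 : ℝ) ∈ Icc (w (n + 1) - w (n - r + 1)) (w (n + 1 / 2) - w (n - r + 1 / 2)) from
      ⟨by linarith, by linarith⟩)
  simp only at hy0
  refine ⟨n + y, by linarith [hr.2, hy.1], by linarith [hy.2], ?_⟩
  have e1 : n + y - r = n - r + y := by ring
  rw [e1]; linarith

lemma V_subset {w : ℝ → ℝ} {n r0 r1 K κ : ℝ} (h0 : 1 ≤ r0) (h1 : r1 ≤ n) :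
    Ioo r0 r1 ∩ VSet n K w ⊆ (Ioo 1 n ∩ CSet n κ w) ∪ (Ioo r0 r1 ∩ BadSet n K κ w) := by
  rintro r ⟨hr, hrn, hy⟩
  by_cases h3 : |w (n - r + 1 / 2) - w n| ≤ κ ∧ |w (n - r + 1) - w n| ≤ κ
  · exact Or.inl ⟨⟨by linarith [hr.1], by linarith [hr.2]⟩, hrn, h3.1, h3.2⟩
  · right
    refine ⟨hr, hrn, hy, ?_⟩
    rw [not_and_or, not_le, not_le] at h3
    exact h3

end Pool.Agent.Lib.MP_097655_pr
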