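import Pool.Agent.Lib.MP_097655_pr.Sup

set_option autoImplicit false

open MeasureTheory ProbabilityTheory Set Filter
open scoped NNReal ENNReal Topology Pointwise

namespace Pool.Agent.Lib.MP_097655_pr

/-- Lebesgue measure of the span set up to time `t`. -/
noncomputable def vS (w : ℝ → ℝ) (t : ℝ) : ℝ≥0∞ := volume (Sp w t)

lemma vS_le (w : ℝ → ℝ) (t : ℝ) : vS w t ≤ ENNReal.ofReal t := by
  refine (measure_mono (Sp_subset_Icc w t)).trans_eq ?_
  rw [Real.volume_Icc, sub_zero]

lemma vS_ne_top (w : ℝ → ℝ) (t : ℝ) : vS w t ≠ ∞ :=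
  ((vS_le w t).trans_lt ENNReal.ofReal_lt_top).ne

lemma measurable_vS {α : Type*} [MeasurableSpace α] {t : α → ℝ} {w : α → Path}
    (ht : Measurable t) (hw : Measurable w) : Measurable (fun a => vS (w a) (t a)) := by
  have h1 : MeasurableSet {p : ℝ × α | p.1 ∈ Sp (w p.2) (t p.2)} :=
    measurableSet_Sp measurable_fst (ht.comp measurable_snd) (hw.comp measurable_snd)
  exact measurable_measure_prodMk_right (μ := volume) h1

lemma measurable_vS' (t : ℝ) : Measurable (fun w : Path => vS w t) :=
  measurable_vS measurable_const measurable_id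

lemma vS_scale (w : Path) {k : ℝ} (hk : 0 < k) (t : ℝ) :
    vS (Path.scale k w) t = ENNReal.ofReal k⁻¹ * vS w (k * t) := by
  have : Sp (Path.scale k w) t = (fun r => k * r) ⁻¹' Sp w (k * t) := by
    ext r; exact Sp_scale w hk t r
  rw [vS, this, Real.volume_preimage_mul_left hk.ne', abs_of_pos (inv_pos.mpr hk)]
  rfl

variable {μ : Measure Path}

lemma IsWiener.lintegral_vS (hμ : IsWiener μ) {t : ℝ} (ht : 0 < t) :
    ∫⁻ w, vS w t ∂μ = ENNReal.ofReal t * ∫⁻ w, vS w 1 ∂μ := by
  have h1 : ∫⁻ w, vS w 1 ∂μ = ∫⁻ w, vS (Path.scale t w) 1 ∂μ := by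
    conv_lhs => rw [← hμ.map_scale ht]
    rw [lintegral_map (measurable_vS' _) (Path.measurable_scale t)]
  rw [h1]
  simp only [vS_scale _ ht, mul_one]
  rw [lintegral_const_mul _ (measurable_vS' _), ← mul_assoc,
    ← ENNReal.ofReal_mul ht.le, mul_inv_cancel₀ ht.ne', ENNReal.ofReal_one, one_mul]

/-- The expected measure of the new spans appearing during `(t, t + h]` is at most `h`. -/
lemma IsWiener.lintegral_diff_le (hμ : IsWiener μ) {t h : ℝ} (ht : 0 < t) (hh : 0 ≤ h) :
    ∫⁻ w, volume (Sp w (t + h) \ Sp w t) ∂μ ≤ ENNReal.ofReal h := by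
  have := hμ.isProbabilityMeasure
  have h1 : ∀ w : Path, volume (Sp w (t + h) \ Sp w t) = vS w (t + h) - vS w t := by
    intro w
    exact measure_sdiff (Sp_mono w (by linarith)) (isClosed_Sp w.continuous t).measurableSet.nullMeasurableSet
      (vS_ne_top w t)
  simp only [h1]
  have hle : ∀ w : Path, vS w t ≤ vS w (t + h) := fun w => measure_mono (Sp_mono w (by linarith))
  have hm : ∫⁻ w, vS w t ∂μ ≠ ∞ := by
    have : ∫⁻ w, vS w t ∂μ ≤ ∫⁻ _, ENNReal.ofReal t ∂μ := lintegral_mono fun w => vS_le w t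
    rw [lintegral_const, measure_univ, mul_one] at this
    exact (this.trans_lt ENNReal.ofReal_lt_top).ne
  rw [lintegral_sub (measurable_vS' _) hm
    (Filter.Eventually.of_forall hle), hμ.lintegral_vS ht, hμ.lintegral_vS (by linarith)]
  set m := ∫⁻ w, vS w 1 ∂μ with hmdef
  have hm1 : m ≤ 1 := by
    have : ∫⁻ w, vS w 1 ∂μ ≤ ∫⁻ _, ENNReal.ofReal 1 ∂μ := lintegral_mono fun w => vS_le w 1
    rwa [lintegral_const, measure_univ, mul_one, ENNReal.ofReal_one] at this
  have hmt : m ≠ ∞ := (hm1.trans_lt ENNReal.one_lt_top).ne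
  rw [← ENNReal.sub_mul (fun _ _ => hmt), ENNReal.ofReal_add ht.le hh,
    ENNReal.add_sub_cancel_left ENNReal.ofReal_ne_top]
  calc ENNReal.ofReal h * m ≤ ENNReal.ofReal h * 1 := by gcongr
    _ = ENNReal.ofReal h := mul_one _

/-- time scaling of line events for `S` -/
def LineEv (c t : ℝ) : Set Path := {w | vS w t = ENNReal.ofReal (c * t)}

lemma measurableSet_LineEv (c t : ℝ) : MeasurableSet (LineEv c t) :=
  (measurable_vS' _) (measurableSet_singleton _)

lemma LineEv_scale {k : ℝ} (hk : 0 < k) (c t : ℝ) (w : Path) :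
    Path.scale k w ∈ LineEv c t ↔ w ∈ LineEv c (k * t) := by
  simp only [LineEv, mem_ofPred_eq, vS_scale w hk]
  have h1 : ENNReal.ofReal (c * t) = ENNReal.ofReal k⁻¹ * ENNReal.ofReal (c * (k * t)) := by
    rw [← ENNReal.ofReal_mul (inv_nonneg.mpr hk.le)]
    congr 1
    field_simp
  rw [h1]
  constructor
  · intro h
    exact (ENNReal.mul_right_inj (by simpa using hk) ENNReal.ofReal_ne_top).mp h
  · intro h; rw [h]

/-- stopping does not change the span set before the stopping time -/
lemma Sp_stop (w : Path) {t n : ℝ} (h : t ≤ n) : Sp (Path.stop n w) t = Sp w t := by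
  ext r
  constructor
  · rintro ⟨h0, v, h1, h2, h3⟩
    refine ⟨h0, v, h1, h2, ?_⟩
    rwa [Path.stop_apply_of_le w (h2.trans h), Path.stop_apply_of_le w (by linarith)] at h3
  · rintro ⟨h0, v, h1, h2, h3⟩
    refine ⟨h0, v, h1, h2, ?_⟩
    rwa [Path.stop_apply_of_le w (h2.trans h), Path.stop_apply_of_le w (by linarith)]

/-! ### Asymptotic persistence of the line event -/

/-- The probability of leaving the line goes to zero as the relative time step goes to zero. -/
lemma IsWiener.tendsto_leave (hμ : IsWiener μ) (c : ℝ) :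
    Tendsto (fun δ : ℝ => μ (LineEv c 1 \ LineEv c (Real.exp δ))) (𝓝 0) (𝓝 0) := by
  have := hμ.isProbabilityMeasure
  -- sections
  let s : Path → Set ℝ := fun w => {τ | τ ∈ Icc (-1 : ℝ) 2 ∧ w ∈ LineEv c (Real.exp τ)}
  have hsm : MeasurableSet {p : ℝ × Path | p.2 ∈ LineEv c (Real.exp p.1)} := by
    have h1 : Measurable (fun p : ℝ × Path => vS p.2 (Real.exp p.1)) :=
      measurable_vS (Real.measurable_exp.comp measurable_fst) measurable_snd
    have h2 : Measurable (fun p : ℝ × Path => ENNReal.ofReal (c * Real.exp p.1)) := by fun_prop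
    exact measurableSet_eq_fun h1 h2
  have hs : ∀ w, MeasurableSet (s w) := by
    intro w
    exact measurableSet_Icc.inter (measurable_prodMk_right hsm)
  have hsfin : ∀ w, volume (s w) ≠ ∞ := by
    intro w
    have : volume (s w) ≤ volume (Icc (-1 : ℝ) 2) := measure_mono fun x hx => hx.1
    rw [Real.volume_Icc] at this
    exact (this.trans_lt ENNReal.ofReal_lt_top).ne
  -- the key bound
  let D : ℝ → Path → Set ℝ := fun δ w => {τ | τ ∈ Icc (0 : ℝ) 1 ∧ w ∈ LineEv c (Real.exp τ) ∧
    w ∉ LineEv c (Real.exp (δ + τ))}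
  have hDm : ∀ δ, MeasurableSet {p : ℝ × Path | p.1 ∈ D δ p.2} := by
    intro δ
    have h1 : MeasurableSet {p : ℝ × Path | p.1 ∈ Icc (0 : ℝ) 1} := measurable_fst measurableSet_Icc
    have h2 : MeasurableSet {p : ℝ × Path | p.2 ∉ LineEv c (Real.exp (δ + p.1))} := by
      have h3 : Measurable (fun p : ℝ × Path => (δ + p.1, p.2)) := by fun_prop
      exact (h3 hsm).compl
    exact h1.inter (hsm.inter h2)
  have hφ : ∀ δ : ℝ, μ (LineEv c 1 \ LineEv c (Real.exp δ)) = ∫⁻ w, volume (D δ w) ∂μ := by
    intro δ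
    have e1 := Measure.prod_apply (μ := (volume : Measure ℝ)) (ν := μ) (hDm δ)
    have e2 := Measure.prod_apply_symm (μ := (volume : Measure ℝ)) (ν := μ) (hDm δ)
    rw [e1] at e2
    have e3 : ∀ w : Path, (fun τ => (τ, w)) ⁻¹' {p : ℝ × Path | p.1 ∈ D δ p.2} = D δ w := fun w => rfl
    simp only [e3] at e2
    rw [← e2]
    have e4 : ∀ τ : ℝ, μ (Prod.mk τ ⁻¹' {p : ℝ × Path | p.1 ∈ D δ p.2}) =
        (Icc (0 : ℝ) 1).indicator (fun _ => μ (LineEv c 1 \ LineEv c (Real.exp δ))) τ := by
      intro τ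
      by_cases hτ : τ ∈ Icc (0 : ℝ) 1
      · rw [indicator_of_mem hτ]
        have hpos := Real.exp_pos τ
        rw [← hμ.measure_scale hpos ((measurableSet_LineEv c 1).diff (measurableSet_LineEv c (Real.exp δ)))]
        congr 1
        ext w
        simp only [mem_preimage, mem_ofPred_eq, D, Set.mem_sdiff, LineEv_scale hpos, mul_one]
        rw [← Real.exp_add, add_comm τ δ]
        tauto
      · rw [indicator_of_notMem hτ]
        have : Prod.mk τ ⁻¹' {p : ℝ × Path | p.1 ∈ D δ p.2} = ∅ := by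
          ext w
          simp only [mem_preimage, mem_ofPred_eq, D, mem_empty_iff_false, iff_false]
          intro h
          exact hτ h.1
        rw [this, measure_empty]
    simp only [e4]
    rw [lintegral_indicator_const measurableSet_Icc, Real.volume_Icc]
    simp
  simp only [hφ]
  -- pointwise convergence
  have hpt : ∀ w : Path, Tendsto (fun δ : ℝ => volume (D δ w)) (𝓝 0) (𝓝 0) := by
    intro w
    let f : ℝ → C(ℝ, ℝ) := fun δ => ⟨fun x => δ + x, by fun_prop⟩
    have hf : Tendsto f (𝓝 0) (𝓝 (f 0)) := by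
      have : Continuous f := by
        have h2 : Continuous (fun p : ℝ × ℝ => p.1 + p.2) := by fun_prop
        exact ContinuousMap.continuous_of_continuous_uncurry f h2
      exact this.tendsto 0
    have h3 := tendsto_measure_symmDiff_preimage_nhds_zero (μ := (volume : Measure ℝ))
      (ν := (volume : Measure ℝ)) (s := s w) hf
      (Filter.Eventually.of_forall fun δ => measurePreserving_add_left volume δ)
      (measurePreserving_add_left volume 0) (hs w).nullMeasurableSet (hsfin w)
    have hsmall : ∀ᶠ δ : ℝ in 𝓝 0, volume (D δ w) ≤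
        volume (symmDiff ((f δ) ⁻¹' s w) ((f 0) ⁻¹' s w)) := by
      have : Icc (-1 : ℝ) 1 ∈ 𝓝 (0 : ℝ) := Icc_mem_nhds (by norm_num) (by norm_num)
      filter_upwards [this] with δ hδ
      refine measure_mono ?_
      rintro τ ⟨h4, h5, h6⟩
      right
      constructor
      · change (0 : ℝ) + τ ∈ s w
        rw [zero_add]
        exact ⟨⟨by linarith [h4.1], by linarith [h4.2]⟩, h5⟩
      · rintro ⟨-, h7⟩
        exact h6 h7
    exact tendsto_of_tendsto_of_tendsto_of_le_of_le' tendsto_const_nhds h3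
      (Filter.Eventually.of_forall fun _ => bot_le) hsmall
  have hfinal := tendsto_lintegral_filter_of_dominated_convergence (μ := μ) (l := 𝓝 (0 : ℝ))
    (F := fun δ w => volume (D δ w)) (f := fun _ => 0) (fun _ => 1)
    (Filter.Eventually.of_forall fun δ => measurable_measure_prodMk_right (hDm δ))
    (Filter.Eventually.of_forall fun δ => Filter.Eventually.of_forall fun w => by
      have : volume (D δ w) ≤ volume (Icc (0 : ℝ) 1) := measure_mono fun x hx => hx.1
      rw [Real.volume_Icc] at this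
      simpa using this)
    (by simp) (Filter.Eventually.of_forall hpt)
  simpa using hfinal

/-- Leaving the line `c t` in a time step `L` has vanishing probability at large times. -/
lemma IsWiener.tendsto_leave_nat (hμ : IsWiener μ) (c : ℝ) {L : ℝ} (hL : 0 ≤ L) :
    Tendsto (fun n : ℕ => μ (LineEv c n \ LineEv c (n + L))) atTop (𝓝 0) := by
  have h1 : Tendsto (fun n : ℕ => Real.log (1 + L / n)) atTop (𝓝 0) := by
    have h2 : Tendsto (fun n : ℕ => 1 + L / (n : ℝ)) atTop (𝓝 (1 + 0)) :=
      tendsto_const_nhds.add (tendsto_const_div_atTop_nhds_zero_nat L)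
    rw [add_zero] at h2
    have h3 := (Real.continuousAt_log one_ne_zero).tendsto.comp h2
    rwa [Real.log_one] at h3
  have h2 := (hμ.tendsto_leave c).comp h1
  refine h2.congr' ?_
  filter_upwards [eventually_gt_atTop 0] with n hn
  have hn' : (0 : ℝ) < n := by exact_mod_cast hn
  have hpos : 0 < 1 + L / (n : ℝ) := by positivity
  simp only [Function.comp_apply]
  rw [Real.exp_log hpos, ← hμ.measure_scale hn' ((measurableSet_LineEv c 1).diff (measurableSet_LineEv c _))]
  congr 1
  ext w
  simp only [mem_ofPred_eq, Set.mem_sdiff, LineEv_scale hn', mul_one]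
  have : (n : ℝ) * (1 + L / n) = n + L := by field_simp
  rw [this]

end Pool.Agent.Lib.MP_097655_pr
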