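import Pool.Agent.Lib.MP_097655_pr.SFinal

set_option autoImplicit false

open MeasureTheory ProbabilityTheory Set Filter
open scoped NNReal ENNReal Topology Pointwise

namespace Pool.Agent.Lib.MP_097655_pr

variable {μ : Measure Path}

/-- the good event at time `n` -/
def GoodEv (n ρ δ K : ℝ) : Set Path :=
  {w | ρ * n < spT w n ∧ ∀ v ∈ Icc 0 (δ * n + 2), K ≤ |w v - w n|}

lemma measurable_spT_time {n : ℝ} (hn : 0 < n) : Measurable (fun w : Path => spT w n) := by
  have h1 : Measurable (fun w : Path => n * spT (Path.scale n w) 1) :=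
    (measurable_spT.comp (Path.measurable_scale n)).const_mul n
  have h2 : (fun w : Path => spT w n) = fun w : Path => n * spT (Path.scale n w) 1 := by
    funext w
    rw [spT_scale w hn]
    field_simp
  rw [h2]; exact h1

lemma measurableSet_GoodEv {n ρ δ K : ℝ} (hn : 0 < n) (hδ : 0 ≤ δ) :
    MeasurableSet (GoodEv n ρ δ K) := by
  have h1 : MeasurableSet {w : Path | ρ * n < spT w n} :=
    measurableSet_lt measurable_const (measurable_spT_time hn)
  have h2 : MeasurableSet {w : Path | ∃ v ∈ Icc 0 (δ * n + 2), |w v - w n| < K} := by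
    refine measurableSet_exists_lt' (g := fun (w : Path) v => |w v - w n|) (fun w => ?_)
      (by positivity) (fun v => ?_)
    · have := w.continuous
      fun_prop
    · exact ((Path.measurable_eval v).sub (Path.measurable_eval n)).norm
  have h3 : GoodEv n ρ δ K = {w : Path | ρ * n < spT w n} ∩
      {w : Path | ∃ v ∈ Icc 0 (δ * n + 2), |w v - w n| < K}ᶜ := by
    ext w
    simp only [GoodEv, mem_ofPred_eq, mem_inter_iff, mem_compl_iff, not_exists, not_and, not_lt]
  rw [h3]
  exact h1.inter h2.compl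

lemma IsWiener.good_compl (hμ : IsWiener μ) {n ρ δ K θ : ℝ} (hn : 0 < n)
    (h1 : δ + 2 / n ≤ θ) (h2 : K ≤ θ * √n) :
    μ (GoodEv n ρ δ K)ᶜ ≤ μ {w | spT w 1 ≤ ρ} + μ (Near θ) := by
  have hsq : 0 < √n := Real.sqrt_pos.mpr hn
  have hθ : 0 ≤ θ ∨ θ < 0 := le_or_gt 0 θ
  have hsub : (GoodEv n ρ δ K)ᶜ ⊆ {w | Path.scale n w ∈ {w : Path | spT w 1 ≤ ρ}} ∪
      {w | Path.scale n w ∈ Near θ} := by
    intro w hw
    by_cases h3 : ρ * n < spT w n
    · right
      have h4 : ¬ ∀ v ∈ Icc 0 (δ * n + 2), K ≤ |w v - w n| := fun h => hw ⟨h3, h⟩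
      push Not at h4
      obtain ⟨v, hv, hv2⟩ := h4
      refine ⟨v / n, ⟨div_nonneg hv.1 hn.le, ?_⟩, ?_⟩
      · refine le_trans ?_ h1
        rw [div_le_iff₀ hn]
        have : (δ + 2 / n) * n = δ * n + 2 := by field_simp
        rw [this]; exact hv.2
      · rw [Path.scale_apply hn.le, Path.scale_apply hn.le, mul_one]
        have e1 : n * (v / n) = v := by field_simp
        rw [e1, ← mul_sub, abs_mul, abs_of_pos (inv_pos.mpr hsq)]
        rw [inv_mul_lt_iff₀ hsq]
        calc |w v - w n| < K := hv2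
          _ ≤ θ * √n := h2
          _ = √n * θ := mul_comm _ _
    · left
      simp only [mem_ofPred_eq]
      rw [spT_scale w hn]
      rw [inv_mul_le_iff₀ hn]
      linarith [not_lt.mp h3]
  refine (measure_mono hsub).trans ((measure_union_le _ _).trans ?_)
  have e1 : μ {w | Path.scale n w ∈ {w : Path | spT w 1 ≤ ρ}} = μ {w | spT w 1 ≤ ρ} :=
    hμ.measure_scale hn (measurableSet_le measurable_spT measurable_const)
  rcases hθ with hθ | hθ
  · have e2 : μ {w | Path.scale n w ∈ Near θ} = μ (Near θ) :=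
      hμ.measure_scale hn (measurableSet_Near hθ)
    rw [e1, e2]
  · have : {w | Path.scale n w ∈ Near θ} = ∅ := by
      ext w
      simp only [mem_ofPred_eq, Near, mem_empty_iff_false, iff_false, not_exists, not_and, not_lt]
      intro v hv
      have := hv.1.trans hv.2
      linarith
    rw [e1, this, measure_empty]
    gcongr
    exact bot_le

/-- Transfer of independence to events. -/
lemma IsWiener.indep_events (hμ : IsWiener μ) {n L : ℝ} (hn : 0 ≤ n) (hL : 0 ≤ L)
    {A F : Set Path} (hA : MeasurableSet A) (hF : MeasurableSet F)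
    (hstopA : ∀ w, Path.stop n w ∈ A ↔ w ∈ A) (hstopF : ∀ w, Path.stop L w ∈ F ↔ w ∈ F) :
    μ (A ∩ {w | Path.shift n w ∈ F}) = μ A * μ F := by
  have h1 := (hμ.indepFun_past (u := n) (h := L) hn hL).measure_inter_preimage_eq_mul A F hA hF
  have e1 : (fun w : Path => Path.stop n w) ⁻¹' A = A := by
    ext w; exact hstopA w
  have e2 : (fun w : Path => Path.stop L (Path.shift n w)) ⁻¹' F = {w | Path.shift n w ∈ F} := by
    ext w; exact hstopF _
  have e3 : μ {w | Path.shift n w ∈ F} = μ F := by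
    conv_rhs => rw [← hμ.map_shift hn]
    rw [Measure.map_apply (Path.measurable_shift n) hF]
    rfl
  rw [e1, e2, e3] at h1
  exact h1

lemma volume_diff_of_line {w : Path} {c n L : ℝ} (hL : 0 ≤ L) (hc : 0 ≤ c) (hn : 0 ≤ n)
    (h1 : w ∈ LineEv c n) (h2 : w ∈ LineEv c (n + L)) :
    volume (Sp w (n + L) \ Sp w n) = ENNReal.ofReal (c * L) := by
  have h3 : volume (Sp w (n + L) \ Sp w n) = vS w (n + L) - vS w n :=
    measure_sdiff (Sp_mono w (by linarith)) (isClosed_Sp w.continuous n).measurableSet.nullMeasurableSet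
      (vS_ne_top w n)
  rw [h3, show vS w (n + L) = ENNReal.ofReal (c * (n + L)) from h2,
    show vS w n = ENNReal.ofReal (c * n) from h1, ← ENNReal.ofReal_sub _ (by positivity)]
  congr 1; ring

lemma measurable_volV (n K : ℝ) (I : Set ℝ) (hI : MeasurableSet I) :
    Measurable (fun w : Path => volume (I ∩ VSet n K w)) := by
  have h1 : MeasurableSet {q : ℝ × Path | q.1 ∈ I ∧ q.1 ∈ VSet n K q.2} := by
    refine (measurable_fst hI).inter (MeasurableSet.inter ?_ ?_)
    · exact (measurableSet_Sp measurable_fst measurable_const measurable_snd).compl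
    · exact measurableSet_near (r := fun q : ℝ × Path => q.1) (n := fun _ => n) (w := fun q => q.2) K
        measurable_fst measurable_const measurable_snd
  exact measurable_measure_prodMk_right (μ := volume) h1

lemma measurable_volC (n κ : ℝ) (I : Set ℝ) (hI : MeasurableSet I) :
    Measurable (fun w : Path => volume (I ∩ CSet n κ w)) := by
  have h3 : ∀ y : ℝ, MeasurableSet {q : ℝ × Path | |q.2 (n - q.1 + y) - q.2 n| ≤ κ} := by
    intro y
    have h4 : Measurable (fun q : ℝ × Path => q.2 (n - q.1 + y)) :=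
      Path.measurable_eval_comp measurable_snd (by fun_prop)
    have h5 : Measurable (fun q : ℝ × Path => q.2 n) :=
      Path.measurable_eval_comp measurable_snd measurable_const
    exact measurableSet_le (h4.sub h5).norm measurable_const
  have h1 : MeasurableSet {q : ℝ × Path | q.1 ∈ I ∧ q.1 ∈ CSet n κ q.2} := by
    refine (measurable_fst hI).inter (MeasurableSet.inter ?_ ((h3 (1 / 2)).inter (h3 1)))
    exact (measurableSet_Sp measurable_fst measurable_const measurable_snd).compl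
  exact measurable_measure_prodMk_right (μ := volume) h1

lemma measurable_volBad (n K κ : ℝ) (I : Set ℝ) (hI : MeasurableSet I) :
    Measurable (fun w : Path => volume (I ∩ BadSet n K κ w)) := by
  have h1 : MeasurableSet {q : ℝ × Path | q.1 ∈ I ∧ q.1 ∈ BadSet n K κ q.2} :=
    (measurable_fst hI).inter (measurableSet_Bad n K κ)
  exact measurable_measure_prodMk_right (μ := volume) h1

/-- The main theorem for `S`. -/
theorem measure_LineEv_eq_zero (hμ : IsWiener μ) {c : ℝ} (hc : 0 < c) : μ (LineEv c 1) = 0 := by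
  have hprob := hμ.isProbabilityMeasure
  by_contra hne
  set a := μ (LineEv c 1) with ha
  have ha_top : a ≠ ∞ := measure_ne_top _ _
  have ha8 : a / 8 ≠ 0 := (ENNReal.div_pos hne (by norm_num)).ne'
  obtain ⟨ρ, hρ, hρ2, hρμ⟩ := hμ.exists_rho ha8
  obtain ⟨θ, hθ, hθ1, hθμ⟩ := hμ.exists_theta ha8
  obtain ⟨C, hC0, hC⟩ := hμ.exists_tail (b := 2) (by norm_num)
  set δ := θ / 2 with hδ
  have hδ0 : 0 < δ := by positivity
  -- K' and K
  set K' := C + 1 with hK'
  set K := K' + 1 with hKdef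
  have hK0 : 0 ≤ K := by positivity
  have hp1 : μ (Big 2 K')ᶜ ≠ 0 := by
    intro h
    rw [prob_compl_eq_zero_iff (measurableSet_Big (by norm_num) K')] at h
    have h1 := hC K' (by positivity)
    rw [h] at h1
    have h2 : C / K' ^ 4 < 1 := by
      rw [div_lt_one (by positivity)]
      have : 1 ≤ K' := by linarith
      calc C < K' := by linarith
        _ ≤ K' ^ 4 := le_self_pow₀ this (by norm_num)
    have h3 : ENNReal.ofReal (C / K' ^ 4) < 1 := by
      rw [ENNReal.ofReal_lt_one]; exact h2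
    exact absurd h1 (not_le.mpr h3)
  -- window
  set δ' := min δ (ρ / 2) with hδ'
  have hδ'0 : 0 < δ' := lt_min hδ0 (by positivity)
  obtain ⟨N, hN⟩ := exists_nat_ge (1 / δ')
  -- κ'
  set p2 := μ {w | 3 ≤ w 1} * μ {w | 3 ≤ w 1} with hp2
  have hp2ne : p2 ≠ 0 := mul_ne_zero hμ.pos_const hμ.pos_const
  have hp2top : p2 ≠ ∞ := ENNReal.mul_ne_top (measure_ne_top _ _) (measure_ne_top _ _)
  have hcpos : ENNReal.ofReal c ≠ 0 := by simpa using hc
  set b := ENNReal.ofReal c * (a / 8) * p2 with hb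
  have hbne : b ≠ 0 := mul_ne_zero (mul_ne_zero hcpos ha8) hp2ne
  obtain ⟨κ', hκ'K, hκ'0, hκ'b⟩ : ∃ κ' : ℝ, K ≤ κ' ∧ 0 < κ' ∧
      ENNReal.ofReal (256 * C * N / κ' ^ 2) < b := by
    have h1 : Tendsto (fun x : ℝ => ENNReal.ofReal (256 * C * N / x ^ 2)) atTop (𝓝 0) := by
      have h2 : Tendsto (fun x : ℝ => 256 * C * N / x ^ 2) atTop (𝓝 0) :=
        Tendsto.div_atTop tendsto_const_nhds (tendsto_pow_atTop (by norm_num))
      have := ENNReal.tendsto_ofReal h2
      rwa [ENNReal.ofReal_zero] at this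
    have h2 := (tendsto_order.1 h1).2 b (pos_iff_ne_zero.mpr hbne)
    obtain ⟨x, hx1, hx2, hx3⟩ := (h2.and ((eventually_ge_atTop K).and (eventually_gt_atTop 0))).exists
    exact ⟨x, hx2, hx3, hx1⟩
  set κ := K + 2 * κ' with hκ
  -- scenario (ii)
  have hs2 := hμ.scenario_pos κ
  set p1 := μ (Big 2 K')ᶜ with hp1def
  set q1 := μ {w : Path | κ < w (1 / 2) ∧ w 1 < -κ} with hq1def
  -- choose n
  have hT2 := hμ.tendsto_leave_nat c (L := 2) (by norm_num)
  have hT1 := hμ.tendsto_leave_nat c (L := 1) (by norm_num)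
  have hpa : a / 8 * p1 ≠ 0 := mul_ne_zero ha8 hp1
  have hqa : a / 8 * q1 ≠ 0 := mul_ne_zero ha8 hs2
  have ev1 := (tendsto_order.1 hT2).2 _ (pos_iff_ne_zero.mpr hpa)
  have ev2 := (tendsto_order.1 hT1).2 _ (pos_iff_ne_zero.mpr hqa)
  have ev3 : ∀ᶠ n : ℕ in atTop, (max (max (4 / δ) ((K / θ) ^ 2)) (4 / ρ) + 1) ≤ (n : ℝ) :=
    (tendsto_natCast_atTop_atTop (R := ℝ)).eventually_ge_atTop _
  obtain ⟨m, hm1, hm2, hm3⟩ := (ev1.and (ev2.and ev3)).exists
  set n : ℝ := (m : ℝ) with hn
  have hn1 : 4 / δ ≤ n := by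
    have := (le_max_left (4 / δ) ((K / θ) ^ 2)).trans (le_max_left _ (4 / ρ)); linarith
  have hn2 : (K / θ) ^ 2 ≤ n := by
    have := (le_max_right (4 / δ) ((K / θ) ^ 2)).trans (le_max_left _ (4 / ρ)); linarith
  have hn3 : 4 / ρ ≤ n := by
    have := le_max_right (max (4 / δ) ((K / θ) ^ 2)) (4 / ρ); linarith
  have hn0 : 0 < n := lt_of_lt_of_le (by positivity) hn1
  have hδn : 4 ≤ δ * n := by
    rw [div_le_iff₀ hδ0] at hn1; linarith
  have hρn : 4 ≤ ρ * n := by
    rw [div_le_iff₀ hρ] at hn3; linarith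
  -- good event
  have hgood : μ (GoodEv n ρ δ K)ᶜ ≤ a / 8 + a / 8 := by
    refine (hμ.good_compl (θ := θ) hn0 ?_ ?_).trans (add_le_add hρμ.le hθμ.le)
    · have : 2 / n ≤ δ := by
        rw [div_le_iff₀ hn0]; linarith
      rw [hδ] at this ⊢; linarith
    · have h1 : K / θ ≤ √n := by
        rw [← Real.sqrt_sq (by positivity : 0 ≤ K / θ)]
        exact Real.sqrt_le_sqrt hn2
      rw [div_le_iff₀ hθ] at h1
      linarith
  -- ranges
  set r0 := ρ * n with hr0
  set r1 := (1 - δ) * n with hr1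
  -- E1
  let E1 : Set Path := (LineEv c n ∩ GoodEv n ρ δ K) ∩
    {w | volume (Ioo r0 r1 ∩ VSet n K w) < ENNReal.ofReal (c * 2)}
  let E2 : Set Path := LineEv c n ∩ {w | ENNReal.ofReal (c * 1) < volume (Ioo 1 n ∩ CSet n κ w)}
  let E3 : Set Path := {w | ENNReal.ofReal c ≤ volume (Ioo r0 r1 ∩ BadSet n K κ w)}
  have hgm : MeasurableSet (GoodEv n ρ δ K) := measurableSet_GoodEv hn0 hδ0.le
  have hE1m : MeasurableSet E1 := ((measurableSet_LineEv c n).inter hgm).inter
    (measurableSet_lt (measurable_volV n K _ measurableSet_Ioo) measurable_const)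
  have hE2m : MeasurableSet E2 := (measurableSet_LineEv c n).inter
    (measurableSet_lt measurable_const (measurable_volC n κ _ measurableSet_Ioo))
  have hE3m : MeasurableSet E3 :=
    measurableSet_le measurable_const (measurable_volBad n K κ _ measurableSet_Ioo)
  have hδθ : δ ≤ 1 / 2 := by rw [hδ]; linarith
  -- E1 is determined by the past
  have hstop : ∀ w : Path, ∀ x, x ≤ n → (Path.stop n w) x = w x := fun w x hx =>
    Path.stop_apply_of_le w hx
  have hspT : ∀ w : Path, spT (Path.stop n w) n = spT w n := by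
    intro w; rw [spT, spT, Sp_stop w le_rfl]
  have hline : ∀ w : Path, Path.stop n w ∈ LineEv c n ↔ w ∈ LineEv c n := by
    intro w
    simp only [LineEv, mem_ofPred_eq, vS, Sp_stop w le_rfl]
  have hgstop : ∀ w : Path, Path.stop n w ∈ GoodEv n ρ δ K ↔ w ∈ GoodEv n ρ δ K := by
    intro w
    simp only [GoodEv, mem_ofPred_eq, hspT]
    refine and_congr_right fun _ => forall₂_congr fun v hv => ?_
    rw [hstop w v (by nlinarith [hv.2]), hstop w n le_rfl]
  have hVstop : ∀ w : Path, Ioo r0 r1 ∩ VSet n K (Path.stop n w) = Ioo r0 r1 ∩ VSet n K w := by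
    intro w
    ext r
    refine and_congr_right fun hr => ?_
    simp only [VSet, mem_ofPred_eq, Sp_stop w le_rfl]
    refine and_congr_right fun _ => exists_congr fun y => and_congr_right fun hy => ?_
    rw [hstop w _ (by linarith [hr.1, hy.2]), hstop w n le_rfl]
  have hCstop : ∀ w : Path, Ioo 1 n ∩ CSet n κ (Path.stop n w) = Ioo 1 n ∩ CSet n κ w := by
    intro w
    ext r
    refine and_congr_right fun hr => ?_
    simp only [CSet, mem_ofPred_eq, Sp_stop w le_rfl]
    rw [hstop w (n - r + 1 / 2) (by linarith [hr.1]), hstop w (n - r + 1) (by linarith [hr.1]),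
      hstop w n le_rfl]
  have hE1stop : ∀ w : Path, Path.stop n w ∈ E1 ↔ w ∈ E1 := by
    intro w
    simp only [E1, mem_inter_iff, mem_ofPred_eq, hline, hgstop, hVstop]
  have hE2stop : ∀ w : Path, Path.stop n w ∈ E2 ↔ w ∈ E2 := by
    intro w
    simp only [E2, mem_inter_iff, mem_ofPred_eq, hline, hCstop]
  -- future events
  let F1 : Set Path := (Big 2 K')ᶜ
  let F2 : Set Path := {f : Path | κ < f (1 / 2) ∧ f 1 < -κ}
  have hF1m : MeasurableSet F1 := (measurableSet_Big (by norm_num) K').compl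
  have hF2m : MeasurableSet F2 :=
    (measurableSet_lt measurable_const (Path.measurable_eval _)).inter
      (measurableSet_lt (Path.measurable_eval _) measurable_const)
  have hF1stop : ∀ f : Path, Path.stop 2 f ∈ F1 ↔ f ∈ F1 := by
    intro f
    simp only [F1, mem_compl_iff, Big, mem_ofPred_eq, not_iff_not]
    refine exists_congr fun y => and_congr_right fun hy => ?_
    rw [Path.stop_apply_of_le _ hy.2]
  have hF2stop : ∀ f : Path, Path.stop 1 f ∈ F2 ↔ f ∈ F2 := by
    intro f
    simp only [F2, mem_ofPred_eq]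
    rw [Path.stop_apply_of_le _ (by norm_num : (1 / 2 : ℝ) ≤ 1), Path.stop_apply_of_le _ le_rfl]
  have hE1 : μ E1 ≤ a / 8 := by
    have h1 := hμ.indep_events (L := 2) hn0.le (by norm_num) hE1m hF1m hE1stop hF1stop
    have h2 : μ (E1 ∩ {w | Path.shift n w ∈ F1}) ≤ μ (LineEv c n \ LineEv c (n + 2)) := by
      refine measure_mono ?_
      rintro w ⟨⟨⟨h3, h4⟩, h5⟩, h6⟩
      refine ⟨h3, fun h7 => ?_⟩
      have h8 := volume_diff_of_line (by norm_num) hc.le hn0.le h3 h7
      have h9 : ∀ y ∈ Icc (0 : ℝ) 2, |w (n + y) - w n| ≤ K' := by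
        intro y hy
        by_contra hcon
        push Not at hcon
        apply h6
        refine ⟨y, hy, ?_⟩
        rwa [Path.shift_apply _ _ hy.1]
      have h10 := measure_mono (μ := volume)
        (new_subset_V (δ := δ) (K := K) (K' := K') hn0 (by linarith) h4.1 h4.2 h9)
      rw [h8] at h10
      exact absurd h5 (not_lt.mpr h10)
    rw [h1] at h2
    have h3 := h2.trans hm1.le
    exact (ENNReal.mul_le_mul_iff_left hp1 (measure_ne_top _ _)).mp h3
  have hE2 : μ E2 ≤ a / 8 := by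
    have h1 := hμ.indep_events (L := 1) hn0.le (by norm_num) hE2m hF2m hE2stop hF2stop
    have h2 : μ (E2 ∩ {w | Path.shift n w ∈ F2}) ≤ μ (LineEv c n \ LineEv c (n + 1)) := by
      refine measure_mono ?_
      rintro w ⟨⟨h3, h5⟩, h6⟩
      refine ⟨h3, fun h7 => ?_⟩
      have h8 := volume_diff_of_line (by norm_num) hc.le hn0.le h3 h7
      obtain ⟨h9, h9'⟩ := h6
      rw [Path.shift_apply _ _ (by norm_num)] at h9 h9'
      have h10 := measure_mono (μ := volume) (C_subset_new h9 h9')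
      rw [h8] at h10
      exact absurd h5 (not_lt.mpr h10)
    rw [h1] at h2
    have h3 := h2.trans hm2.le
    exact (ENNReal.mul_le_mul_iff_left hs2 (measure_ne_top _ _)).mp h3
  -- E3 via first moment
  have hE3 : μ E3 ≤ a / 8 := by
    have hl0 : 0 < δ' * n := by positivity
    have hδ'ρ : δ' * n ≤ ρ / 2 * n := mul_le_mul_of_nonneg_right (min_le_right _ _) hn0.le
    have hδ'δ : δ' * n ≤ δ * n := mul_le_mul_of_nonneg_right (min_le_left _ _) hn0.le
    have h1 := hμ.bad_expect (n := n) (r0 := r0) (r1 := r1) (l := δ' * n) (K := K) (κ := κ)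
      (κ' := κ') (C := C) (N := N) hl0 (by rw [hr0]; linarith) (by rw [hr1]; linarith)
      (by
        rw [div_le_iff₀ hδ'0] at hN
        have h2 : n ≤ N * (δ' * n) := by nlinarith
        rw [hr1]; nlinarith) hκ'0 hκ'K le_rfl hC0 hC
    have h2 : ENNReal.ofReal c * μ E3 ≤ ∫⁻ w, volume (Ioo r0 r1 ∩ BadSet n K κ w) ∂μ :=
      mul_meas_ge_le_lintegral (measurable_volBad n K κ _ measurableSet_Ioo) _
    have h3 : (ENNReal.ofReal c * μ E3) * p2 ≤ (ENNReal.ofReal c * (a / 8)) * p2 :=
      (mul_le_mul' h2 le_rfl).trans (h1.trans hκ'b.le)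
    have h4 := (ENNReal.mul_le_mul_iff_left hp2ne hp2top).mp h3
    exact (ENNReal.mul_le_mul_iff_right hcpos ENNReal.ofReal_ne_top).mp h4
  -- covering
  have hcov : LineEv c n ⊆ E1 ∪ (E2 ∪ (E3 ∪ (GoodEv n ρ δ K)ᶜ)) := by
    intro w hw
    by_contra hcon
    simp only [mem_union, not_or, mem_compl_iff, not_not] at hcon
    obtain ⟨h1, h2, h3, h4⟩ := hcon
    have h5 : ENNReal.ofReal (c * 2) ≤ volume (Ioo r0 r1 ∩ VSet n K w) := by
      by_contra h; exact h1 ⟨⟨hw, h4⟩, not_le.mp h⟩
    have h6 : volume (Ioo 1 n ∩ CSet n κ w) ≤ ENNReal.ofReal (c * 1) := by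
      by_contra h; exact h2 ⟨hw, not_le.mp h⟩
    have h7 : volume (Ioo r0 r1 ∩ BadSet n K κ w) < ENNReal.ofReal c := not_le.mp h3
    have h8 : volume (Ioo r0 r1 ∩ VSet n K w) ≤
        volume (Ioo 1 n ∩ CSet n κ w) + volume (Ioo r0 r1 ∩ BadSet n K κ w) :=
      (measure_mono (V_subset (by linarith) (by rw [hr1]; nlinarith))).trans (measure_union_le _ _)
    have h9 : ENNReal.ofReal (c * 2) < ENNReal.ofReal (c * 1) + ENNReal.ofReal c :=
      (h5.trans h8).trans_lt (ENNReal.add_lt_add_of_le_of_lt (h6.trans_lt ENNReal.ofReal_lt_top).ne h6 h7)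
    rw [← ENNReal.ofReal_add (by positivity) hc.le] at h9
    have e1 : c * 1 + c = c * 2 := by ring
    rw [e1] at h9
    exact lt_irrefl _ h9
  have hfinal : a ≤ a / 8 + (a / 8 + (a / 8 + (a / 8 + a / 8))) := by
    have e1 : a = μ (LineEv c n) := by
      rw [ha, ← hμ.measure_scale hn0 (measurableSet_LineEv c 1)]
      congr 1
      ext w
      simp only [mem_ofPred_eq, LineEv_scale hn0, mul_one]
    calc a = μ (LineEv c n) := e1
      _ ≤ μ (E1 ∪ (E2 ∪ (E3 ∪ (GoodEv n ρ δ K)ᶜ))) := measure_mono hcov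
      _ ≤ μ E1 + (μ E2 + (μ E3 + μ (GoodEv n ρ δ K)ᶜ)) :=
        (measure_union_le _ _).trans (add_le_add le_rfl ((measure_union_le _ _).trans
          (add_le_add le_rfl (measure_union_le _ _))))
      _ ≤ _ := add_le_add hE1 (add_le_add hE2 (add_le_add hE3 hgood))
  -- contradiction
  have h1 : a.toReal ≤ a.toReal / 8 + (a.toReal / 8 + (a.toReal / 8 + (a.toReal / 8 + a.toReal / 8))) := by
    have hfin : a / 8 ≠ ∞ := ENNReal.div_ne_top ha_top (by norm_num)
    have h2 := ENNReal.toReal_mono (by simp [hfin]) hfinal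
    have h3 : (a / 8).toReal = a.toReal / 8 := by rw [ENNReal.toReal_div]; norm_num
    rw [ENNReal.toReal_add hfin (by simp [hfin]), ENNReal.toReal_add hfin (by simp [hfin]),
      ENNReal.toReal_add hfin (by simp [hfin]), ENNReal.toReal_add hfin hfin, h3] at h2
    exact h2
  have h2 : 0 < a.toReal := ENNReal.toReal_pos hne ha_top
  linarith

end Pool.Agent.Lib.MP_097655_pr
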