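import Pool.Agent.Lib.MP_097655_pr.Wiener

set_option autoImplicit false

open MeasureTheory ProbabilityTheory Set Filter
open scoped NNReal ENNReal Topology

namespace Pool.Agent.Lib.MP_097655_pr

/-- Invariance of events under scaling. -/
lemma IsWiener.measure_scale {μ : Measure Path} (hμ : IsWiener μ) {k : ℝ} (hk : 0 < k)
    {s : Set Path} (hs : MeasurableSet s) : μ {w | Path.scale k w ∈ s} = μ s := by
  conv_rhs => rw [← hμ.map_scale hk]
  rw [Measure.map_apply (Path.measurable_scale k) hs]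
  rfl

/-- Self-similarity principle: a measurable functional `X` of the Brownian path whose rescaled
version `t * X (scale t w)` can only return to the line `c * t` immediately to the right of a time
`t` on a null set `N` has no atom at `c`. -/
theorem atom_zero {μ : Measure Path} (hμ : IsWiener μ) {X : Path → ℝ} (hX : Measurable X) (c : ℝ)
    (N : Set (ℝ × Path)) (hNm : MeasurableSet N)
    (hN : ∀ t ∈ Icc (1 : ℝ) 2, μ {w | (t, w) ∈ N} = 0)
    (H : ∀ w : Path, ∀ t ∈ Icc (1 : ℝ) 2, X (Path.scale t w) = c →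
      (∀ ε > 0, ∃ s ∈ Ioo t (t + ε), X (Path.scale s w) = c) → (t, w) ∈ N) :
    μ {w | X w = c} = 0 := by
  have := hμ.isProbabilityMeasure
  set ν : Measure ℝ := volume.restrict (Icc (1 : ℝ) 2) with hν
  have hνuniv : ν univ = 1 := by
    rw [hν, Measure.restrict_apply_univ, Real.volume_Icc]; norm_num
  have : IsFiniteMeasure ν := ⟨by rw [hνuniv]; exact ENNReal.one_lt_top⟩
  let E : Set (ℝ × Path) := {p | X (Path.scale p.1 p.2) = c}
  have hE : MeasurableSet E :=
    (hX.comp Path.measurable_scale_uncurry) (measurableSet_singleton c)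
  have hXc : MeasurableSet {w : Path | X w = c} := hX (measurableSet_singleton c)
  have h1 : (ν.prod μ) E = μ {w | X w = c} := by
    rw [Measure.prod_apply hE]
    have : ∀ᵐ t ∂ν, μ (Prod.mk t ⁻¹' E) = μ {w | X w = c} := by
      rw [hν, ae_restrict_iff' measurableSet_Icc]
      refine Filter.Eventually.of_forall fun t ht => ?_
      have ht0 : 0 < t := lt_of_lt_of_le one_pos ht.1
      exact hμ.measure_scale ht0 hXc
    rw [lintegral_congr_ae this, lintegral_const, hνuniv, mul_one]
  have h2 : (ν.prod μ) N = 0 := by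
    rw [Measure.prod_apply hNm]
    have : ∀ᵐ t ∂ν, μ (Prod.mk t ⁻¹' N) = 0 := by
      rw [hν, ae_restrict_iff' measurableSet_Icc]
      exact Filter.Eventually.of_forall fun t ht => hN t ht
    rw [lintegral_congr_ae this, lintegral_zero]
  have h3 : (ν.prod μ) E ≤ (ν.prod μ) N := by
    rw [Measure.prod_apply_symm hE, Measure.prod_apply_symm hNm]
    refine lintegral_mono fun w => ?_
    -- countable exceptional set
    let A : Set ℝ := {t | t ∈ Icc (1 : ℝ) 2 ∧ X (Path.scale t w) = c}
    let C : Set ℝ := {x ∈ A | 𝓝[A ∩ Ioi x] x = ⊥}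
    have hC : C.Countable := countable_setOfPred_isolated_right_within
    have hsub : (fun t => (t, w)) ⁻¹' E ∩ Icc (1 : ℝ) 2 ⊆ ((fun t => (t, w)) ⁻¹' N) ∪ C := by
      rintro t ⟨htE, ht⟩
      have htA : t ∈ A := ⟨ht, htE⟩
      by_cases hiso : 𝓝[A ∩ Ioi t] t = ⊥
      · exact Or.inr ⟨htA, hiso⟩
      · left
        refine H w t ht htE fun ε hε => ?_
        have hne : (𝓝[A ∩ Ioi t] t).NeBot := ⟨hiso⟩
        have h5 : A ∩ Ioi t ∈ 𝓝[A ∩ Ioi t] t := self_mem_nhdsWithin
        have h6 : Iio (t + ε) ∈ 𝓝[A ∩ Ioi t] t :=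
          mem_nhdsWithin_of_mem_nhds (Iio_mem_nhds (by linarith))
        obtain ⟨s, hs⟩ := hne.nonempty_of_mem (inter_mem h5 h6)
        exact ⟨s, ⟨hs.1.2, hs.2⟩, hs.1.1.2⟩
    calc ν ((fun t => (t, w)) ⁻¹' E) = volume (((fun t => (t, w)) ⁻¹' E) ∩ Icc (1 : ℝ) 2) := by
          rw [hν, Measure.restrict_apply' measurableSet_Icc]
      _ = volume ((((fun t => (t, w)) ⁻¹' E) ∩ Icc (1 : ℝ) 2) ∩ Icc (1 : ℝ) 2) := by
          rw [inter_assoc, inter_self]
      _ ≤ volume ((((fun t => (t, w)) ⁻¹' N) ∪ C) ∩ Icc (1 : ℝ) 2) := by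
          exact measure_mono (inter_subset_inter_left _ hsub)
      _ = ν (((fun t => (t, w)) ⁻¹' N) ∪ C) := by
          rw [hν, Measure.restrict_apply' measurableSet_Icc]
      _ ≤ ν ((fun t => (t, w)) ⁻¹' N) + ν C := measure_union_le _ _
      _ = ν ((fun t => (t, w)) ⁻¹' N) := by
          have : ν C = 0 := by
            rw [hν]
            exact Measure.absolutelyContinuous_of_le Measure.restrict_le_self (hC.measure_zero _)
          rw [this, add_zero]
  rw [← h1]
  exact le_antisymm (h3.trans h2.le) bot_le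

/-- The null set used for `T` and `R`. -/
lemma IsWiener.measure_eval_eq {μ : Measure Path} (hμ : IsWiener μ) {s t : ℝ} (hs : 0 ≤ s)
    (ht : 0 ≤ t) (hst : s ≠ t) : μ {w | w s = w t} = 0 := by
  have h1 := IsPreBrownianReal.hasLaw_sub hμ s.toNNReal t.toNNReal
  have hv : nndist (s.toNNReal : ℝ) (t.toNNReal : ℝ) ≠ 0 := by
    rw [Real.coe_toNNReal s hs, Real.coe_toNNReal t ht]
    rw [ne_eq, nndist_eq_zero]
    exact hst
  have h2 : μ {w | w s - w t = 0} = 0 := by
    have h3 := h1.measure_eq (p := fun x => x = 0) (measurableSet_singleton 0)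
    have : NullSingletonClass (gaussianReal 0 (nndist s.toNNReal.1 t.toNNReal.1)) :=
      nullSingletonClass_gaussianReal hv
    simp only [Pi.sub_apply, Real.coe_toNNReal s hs, Real.coe_toNNReal t ht] at h3
    rw [h3]
    exact measure_singleton 0
  simpa only [sub_eq_zero] using h2

end Pool.Agent.Lib.MP_097655_pr
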