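import Pool.Agent.Lib.MP_097655_pr.SelfSim

set_option autoImplicit false

open MeasureTheory ProbabilityTheory Set Filter
open scoped NNReal ENNReal Topology

namespace Pool.Agent.Lib.MP_097655_pr

/-- Span set of a function up to time `t`. -/
def Sp (w : ℝ → ℝ) (t : ℝ) : Set ℝ := {r | 0 ≤ r ∧ ∃ v, r ≤ v ∧ v ≤ t ∧ w v = w (v - r)}

/-- Lengths of complete excursions up to time `t`. -/
def Exc (w : ℝ → ℝ) (t : ℝ) : Set ℝ :=
  {l | ∃ p q, 0 ≤ p ∧ p < q ∧ q ≤ t ∧ w p = w q ∧ (∀ u ∈ Ioo p q, w u ≠ w p) ∧ l = q - p}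

/-- First positive time missing from the span set. -/
noncomputable def spT (w : ℝ → ℝ) (t : ℝ) : ℝ := sInf {r | 0 < r ∧ r ∉ Sp w t}

/-- Longest complete excursion. -/
noncomputable def spR (w : ℝ → ℝ) (t : ℝ) : ℝ := sSup (Exc w t)

lemma Sp_mono (w : ℝ → ℝ) {s t : ℝ} (h : s ≤ t) : Sp w s ⊆ Sp w t := by
  rintro r ⟨h0, v, h1, h2, h3⟩
  exact ⟨h0, v, h1, h2.trans h, h3⟩

lemma Sp_subset_Icc (w : ℝ → ℝ) (t : ℝ) : Sp w t ⊆ Icc 0 t := by
  rintro r ⟨h0, v, h1, h2, h3⟩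
  exact ⟨h0, h1.trans h2⟩

lemma Exc_subset (w : ℝ → ℝ) (t : ℝ) : Exc w t ⊆ Ioc 0 t := by
  rintro l ⟨p, q, h0, h1, h2, h3, h4, rfl⟩
  exact ⟨by linarith, by linarith⟩

lemma isClosed_Sp {w : ℝ → ℝ} (hw : Continuous w) (t : ℝ) : IsClosed (Sp w t) := by
  -- image of a compact set
  have h1 : IsCompact {p : ℝ × ℝ | p ∈ Icc (0 : ℝ) t ×ˢ Icc (0 : ℝ) t ∧ p.2 ≤ p.1 ∧ w p.1 = w p.2} := by
    refine (isCompact_Icc.prod isCompact_Icc).of_isClosed_subset ?_ fun p hp => hp.1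
    refine (isClosed_Icc.prod isClosed_Icc).inter ?_
    exact (isClosed_le continuous_snd continuous_fst).inter
      (isClosed_eq (hw.comp continuous_fst) (hw.comp continuous_snd))
  have h2 : Sp w t = (fun p : ℝ × ℝ => p.1 - p.2) ''
      {p : ℝ × ℝ | p ∈ Icc (0 : ℝ) t ×ˢ Icc (0 : ℝ) t ∧ p.2 ≤ p.1 ∧ w p.1 = w p.2} := by
    ext r
    constructor
    · rintro ⟨h0, v, h3, h4, h5⟩
      exact ⟨(v, v - r), ⟨⟨⟨h0.trans h3, h4⟩, ⟨by simpa using h3, by simp; linarith⟩⟩,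
        by simpa using h0, h5⟩, by simp⟩
    · rintro ⟨⟨v, u⟩, ⟨⟨⟨h3, h4⟩, ⟨h5, h6⟩⟩, h7, h8⟩, rfl⟩
      simp only at h3 h4 h5 h6 h7 h8 ⊢
      exact ⟨by linarith, v, by linarith, h4, by simpa using h8⟩
  rw [h2]
  exact (h1.image (by fun_prop)).isClosed

lemma nonempty_compl (w : ℝ → ℝ) (t : ℝ) : {r | 0 < r ∧ r ∉ Sp w t}.Nonempty := by
  refine ⟨max t 0 + 1, by positivity, fun h => ?_⟩
  have := (Sp_subset_Icc w t h).2
  have := le_max_left t 0
  linarith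

lemma bddBelow_compl (w : ℝ → ℝ) (t : ℝ) : BddBelow {r | 0 < r ∧ r ∉ Sp w t} :=
  ⟨0, fun _ h => h.1.le⟩

lemma spT_nonneg (w : ℝ → ℝ) (t : ℝ) : 0 ≤ spT w t :=
  le_csInf (nonempty_compl w t) fun _ h => h.1.le

lemma spT_le (w : ℝ → ℝ) {t : ℝ} (ht : 0 ≤ t) : spT w t ≤ t := by
  by_contra h
  push Not at h
  have h1 : (t + spT w t) / 2 < spT w t := by linarith
  have h2 : (t + spT w t) / 2 ∉ {r | 0 < r ∧ r ∉ Sp w t} := notMem_of_lt_csInf h1 (bddBelow_compl w t)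
  apply h2
  refine ⟨by linarith, fun h3 => ?_⟩
  have := (Sp_subset_Icc w t h3).2
  linarith

lemma mem_Sp_of_lt_spT {w : ℝ → ℝ} {t r : ℝ} (h0 : 0 < r) (h : r < spT w t) : r ∈ Sp w t := by
  by_contra hr
  exact notMem_of_lt_csInf h (bddBelow_compl w t) ⟨h0, hr⟩

lemma bddAbove_Exc (w : ℝ → ℝ) (t : ℝ) : BddAbove (Exc w t) :=
  ⟨t, fun _ h => (Exc_subset w t h).2⟩

lemma spR_nonneg (w : ℝ → ℝ) (t : ℝ) : 0 ≤ spR w t :=
  Real.sSup_nonneg fun _ h => (Exc_subset w t h).1.le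

lemma spR_le (w : ℝ → ℝ) {t : ℝ} (ht : 0 ≤ t) : spR w t ≤ t :=
  Real.sSup_le (fun _ h => (Exc_subset w t h).2) ht

/-- Key deterministic fact for `T`. -/
lemma eq_of_spT {w : ℝ → ℝ} (hw : Continuous w) {t c : ℝ} (hc0 : 0 < c)
    (h1 : spT w t = c * t) (h2 : ∀ ε > 0, ∃ s ∈ Ioo t (t + ε), spT w s = c * s) :
    w t = w (t - c * t) := by
  by_contra hne
  -- continuity neighbourhood
  have hcont : ContinuousAt (fun p : ℝ × ℝ => w p.1 - w p.2) (t, t - c * t) := by fun_prop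
  have hnhds : {p : ℝ × ℝ | w p.1 - w p.2 ≠ 0} ∈ 𝓝 (t, t - c * t) := by
    apply hcont.eventually_ne
    simpa [sub_eq_zero] using hne
  rw [Metric.mem_nhds_iff] at hnhds
  obtain ⟨ε, hε, hball⟩ := hnhds
  obtain ⟨s, ⟨hs1, hs2⟩, hs3⟩ := h2 (ε / (1 + c)) (by positivity)
  have hlt : spT w t < c * s := by
    rw [h1]; exact mul_lt_mul_of_pos_left hs1 hc0
  obtain ⟨r, ⟨hr0, hrn⟩, hrlt⟩ := exists_lt_of_csInf_lt (nonempty_compl w t) hlt
  have hrge : c * t ≤ r := h1 ▸ csInf_le (bddBelow_compl w t) ⟨hr0, hrn⟩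
  have hrs : r ∈ Sp w s := mem_Sp_of_lt_spT hr0 (hs3.symm ▸ hrlt)
  obtain ⟨-, v, hv1, hv2, hv3⟩ := hrs
  have hvt : t < v := by
    by_contra hcon
    exact hrn ⟨hr0.le, v, hv1, not_lt.mp hcon, hv3⟩
  have hst : (s - t) * (1 + c) < ε := by
    have : s - t < ε / (1 + c) := by linarith
    rwa [lt_div_iff₀ (by positivity)] at this
  have hmem : ((v, v - r) : ℝ × ℝ) ∈ Metric.ball (t, t - c * t) ε := by
    rw [Metric.mem_ball, Prod.dist_eq, max_lt_iff]
    constructor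
    · simp only [Real.dist_eq, abs_lt]
      constructor
      · linarith
      · nlinarith
    · simp only [Real.dist_eq, abs_lt]
      constructor
      · nlinarith
      · nlinarith
  have := hball hmem
  simp only [ne_eq, mem_ofPred_eq] at this
  exact this (by linarith)

/-- Key deterministic fact for `R`. -/
lemma eq_of_spR {w : ℝ → ℝ} (hw : Continuous w) {t c : ℝ} (hc0 : 0 < c)
    (h1 : spR w t = c * t) (h2 : ∀ ε > 0, ∃ s ∈ Ioo t (t + ε), spR w s = c * s) :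
    w t = w (t - c * t) := by
  by_contra hne
  -- continuity neighbourhood
  have hcont : ContinuousAt (fun p : ℝ × ℝ => w p.1 - w p.2) (t, t - c * t) := by fun_prop
  have hnhds : {p : ℝ × ℝ | w p.1 - w p.2 ≠ 0} ∈ 𝓝 (t, t - c * t) := by
    apply hcont.eventually_ne
    simpa [sub_eq_zero] using hne
  rw [Metric.mem_nhds_iff] at hnhds
  obtain ⟨ε, hε, hball⟩ := hnhds
  obtain ⟨s, ⟨hs1, hs2⟩, hs3⟩ := h2 (ε / (1 + c)) (by positivity)
  have hlt : spR w t < c * s := by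
    rw [h1]; exact mul_lt_mul_of_pos_left hs1 hc0
  have hne2 : (Exc w s).Nonempty := by
    by_contra hcon
    rw [not_nonempty_iff_eq_empty] at hcon
    have : spR w s = 0 := by rw [spR, hcon, Real.sSup_empty]
    rw [this] at hs3
    have : 0 < c * s := by
      have := spR_nonneg w t
      linarith
    linarith
  obtain ⟨r, hrE, hrlt⟩ := exists_lt_of_lt_csSup hne2 (show spR w t < sSup (Exc w s) from by
    change _ < spR w s; rw [hs3]; exact hlt)
  have hrle : r ≤ c * s := hs3 ▸ le_csSup (bddAbove_Exc w s) hrE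
  obtain ⟨p, q, hp0, hpq, hqs, hwpq, hexc, rfl⟩ := hrE
  have hqt : t < q := by
    by_contra hcon
    have : q - p ≤ spR w t := le_csSup (bddAbove_Exc w t)
      ⟨p, q, hp0, hpq, not_lt.mp hcon, hwpq, hexc, rfl⟩
    linarith
  have hst : (s - t) * (1 + c) < ε := by
    have : s - t < ε / (1 + c) := by linarith
    rwa [lt_div_iff₀ (by positivity)] at this
  have hmem : ((q, p) : ℝ × ℝ) ∈ Metric.ball (t, t - c * t) ε := by
    rw [Metric.mem_ball, Prod.dist_eq, max_lt_iff]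
    constructor
    · simp only [Real.dist_eq, abs_lt]
      constructor
      · linarith
      · nlinarith
    · simp only [Real.dist_eq, abs_lt]
      constructor
      · nlinarith
      · nlinarith
  have := hball hmem
  simp only [ne_eq, mem_ofPred_eq] at this
  exact this (by linarith)

end Pool.Agent.Lib.MP_097655_pr
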