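import Pool.Agent.Lib.MP_097655_pr.Span

set_option autoImplicit false

open MeasureTheory ProbabilityTheory Set Filter
open scoped NNReal ENNReal Topology

namespace Pool.Agent.Lib.MP_097655_pr

/-- Existence of a complete excursion above a level. -/
lemma exists_excursion {w : ℝ → ℝ} (hw : Continuous w) {q1 s1 s2 q2 l : ℝ} (h1 : q1 ≤ s1)
    (h12 : s1 ≤ s2) (h2 : s2 ≤ q2) (hq1 : w q1 ≤ l) (hq2 : w q2 ≤ l)
    (hs : ∀ u ∈ Icc s1 s2, l < w u) :
    ∃ p q, q1 ≤ p ∧ p < s1 ∧ s2 < q ∧ q ≤ q2 ∧ w p = l ∧ w q = l ∧ ∀ u ∈ Ioo p q, l < w u := by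
  -- last time before s1 below level l
  let A : Set ℝ := {u | u ∈ Icc q1 s1 ∧ w u ≤ l}
  have hAc : IsCompact A := isCompact_Icc.inter_right (isClosed_le hw continuous_const)
  have hAn : A.Nonempty := ⟨q1, ⟨le_rfl, h1⟩, hq1⟩
  let p := sSup A
  have hpA : p ∈ A := hAc.sSup_mem hAn
  let D : Set ℝ := {u | u ∈ Icc s2 q2 ∧ w u ≤ l}
  have hDc : IsCompact D := isCompact_Icc.inter_right (isClosed_le hw continuous_const)
  have hDn : D.Nonempty := ⟨q2, ⟨h2, le_rfl⟩, hq2⟩
  let q := sInf D
  have hqD : q ∈ D := hDc.sInf_mem hDn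
  have hps : p < s1 := by
    rcases hpA.1.2.lt_or_eq with h | h
    · exact h
    · have := hs s1 ⟨le_rfl, h12⟩
      have h3 := hpA.2
      rw [h] at h3
      linarith
  have hsq : s2 < q := by
    rcases hqD.1.1.lt_or_eq with h | h
    · exact h
    · have := hs s2 ⟨h12, le_rfl⟩
      have h3 := hqD.2
      rw [← h] at h3
      linarith
  have hpgt : ∀ u, p < u → u ≤ s1 → l < w u := by
    intro u hu1 hu2
    by_contra hcon
    have : u ∈ A := ⟨⟨hpA.1.1.trans hu1.le, hu2⟩, not_lt.mp hcon⟩
    have := le_csSup hAc.bddAbove this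
    exact absurd hu1 (not_lt.mpr this)
  have hqgt : ∀ u, u < q → s2 ≤ u → l < w u := by
    intro u hu1 hu2
    by_contra hcon
    have : u ∈ D := ⟨⟨hu2, hu1.le.trans hqD.1.2⟩, not_lt.mp hcon⟩
    have := csInf_le hDc.bddBelow this
    exact absurd hu1 (not_lt.mpr this)
  have hall : ∀ u ∈ Ioo p q, l < w u := by
    rintro u ⟨hu1, hu2⟩
    rcases le_total u s1 with h | h
    · exact hpgt u hu1 h
    · rcases le_total u s2 with h' | h'
      · exact hs u ⟨h, h'⟩
      · exact hqgt u hu2 h'
  have hpq : p < q := by linarith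
  have hwp : l ≤ w p := by
    have hcl : IsClosed {u | l ≤ w u} := isClosed_le continuous_const hw
    have : p ∈ closure (Ioo p q) := by
      rw [closure_Ioo hpq.ne]; exact ⟨le_rfl, hpq.le⟩
    exact hcl.closure_subset_iff.mpr (fun u hu => (hall u hu).le) this
  have hwq : l ≤ w q := by
    have hcl : IsClosed {u | l ≤ w u} := isClosed_le continuous_const hw
    have : q ∈ closure (Ioo p q) := by
      rw [closure_Ioo hpq.ne]; exact ⟨hpq.le, le_rfl⟩
    exact hcl.closure_subset_iff.mpr (fun u hu => (hall u hu).le) this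
  exact ⟨p, q, hpA.1.1, hps, hsq, hqD.1.2, le_antisymm hpA.2 hwp, le_antisymm hqD.2 hwq, hall⟩

/-- Complete excursions are either positive or negative. -/
lemma excursion_sign {w : ℝ → ℝ} (hw : Continuous w) {p q : ℝ}
    (h : ∀ u ∈ Ioo p q, w u ≠ w p) :
    (∀ u ∈ Ioo p q, w p < w u) ∨ (∀ u ∈ Ioo p q, w u < w p) := by
  by_contra hcon
  push Not at hcon
  obtain ⟨⟨u, hu, hu2⟩, ⟨v, hv, hv2⟩⟩ := hcon
  have hu3 : w u < w p := lt_of_le_of_ne hu2 (h u hu)
  have hv3 : w p < w v := lt_of_le_of_ne hv2 (Ne.symm (h v hv))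
  have hIVT : w p ∈ w '' uIcc u v :=
    intermediate_value_uIcc hw.continuousOn (by
      rw [mem_uIcc]; left; exact ⟨hu3.le, hv3.le⟩)
  obtain ⟨x, hx, hxp⟩ := hIVT
  have hxI : x ∈ Ioo p q := by
    rw [mem_uIcc] at hx
    rcases hx with hx | hx
    · exact ⟨lt_of_lt_of_le hu.1 hx.1, lt_of_le_of_lt hx.2 hv.2⟩
    · exact ⟨lt_of_lt_of_le hv.1 hx.1, lt_of_le_of_lt hx.2 hu.2⟩
  exact h x hxI hxp

/-- Shorter than an excursion implies being a span. -/
lemma mem_Sp_of_le_exc {w : ℝ → ℝ} (hw : Continuous w) {t l r : ℝ} (hl : l ∈ Exc w t) (hr0 : 0 ≤ r)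
    (hr : r ≤ l) : r ∈ Sp w t := by
  obtain ⟨p, q, hp0, hpq, hqt, hwpq, hexc, rfl⟩ := hl
  refine ⟨hr0, ?_⟩
  -- the function u ↦ w (u + r) - w u on [p, q - r]
  have key : ∃ u ∈ Icc p (q - r), w (u + r) - w u = 0 := by
    have hcont : ContinuousOn (fun u => w (u + r) - w u) (Icc p (q - r)) := by fun_prop
    have hle : p ≤ q - r := by linarith
    rcases excursion_sign hw hexc with hpos | hneg
    · have h1 : 0 ≤ w (p + r) - w p := by
        rcases hr0.eq_or_lt with h0 | h0
        · simp [← h0]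
        · rcases hr.eq_or_lt with h3 | h3
          · have : p + r = q := by linarith
            rw [this, hwpq]; simp
          · have := hpos (p + r) ⟨by linarith, by linarith⟩
            linarith
      have h2 : w (q - r + r) - w (q - r) ≤ 0 := by
        rw [sub_add_cancel]
        rcases hr0.eq_or_lt with h0 | h0
        · simp [← h0]
        · rcases hr.eq_or_lt with h3 | h3
          · have : q - r = p := by linarith
            rw [this, hwpq]; simp
          · have := hpos (q - r) ⟨by linarith, by linarith⟩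
            linarith
      have := intermediate_value_Icc' hle hcont
      exact this ⟨h2, h1⟩
    · have h1 : w (p + r) - w p ≤ 0 := by
        rcases hr0.eq_or_lt with h0 | h0
        · simp [← h0]
        · rcases hr.eq_or_lt with h3 | h3
          · have : p + r = q := by linarith
            rw [this, hwpq]; simp
          · have := hneg (p + r) ⟨by linarith, by linarith⟩
            linarith
      have h2 : 0 ≤ w (q - r + r) - w (q - r) := by
        rw [sub_add_cancel]
        rcases hr0.eq_or_lt with h0 | h0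
        · simp [← h0]
        · rcases hr.eq_or_lt with h3 | h3
          · have : q - r = p := by linarith
            rw [this, hwpq]; simp
          · have := hneg (q - r) ⟨by linarith, by linarith⟩
            linarith
      have := intermediate_value_Icc hle hcont
      exact this ⟨h1, h2⟩
  obtain ⟨u, hu, hu0⟩ := key
  refine ⟨u + r, by linarith [hu.1], by linarith [hu.2], ?_⟩
  rw [add_sub_cancel_right]
  linarith

lemma spR_le_spT {w : ℝ → ℝ} (hw : Continuous w) (t : ℝ) : spR w t ≤ spT w t := by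
  refine le_csInf (nonempty_compl w t) ?_
  rintro r ⟨hr0, hr⟩
  by_contra hcon
  push Not at hcon
  have hne : (Exc w t).Nonempty := by
    by_contra h
    rw [not_nonempty_iff_eq_empty] at h
    have : spR w t = 0 := by rw [spR, h, Real.sSup_empty]
    linarith
  obtain ⟨l, hl, hrl⟩ := exists_lt_of_lt_csSup hne (show r < sSup (Exc w t) from hcon)
  exact hr (mem_Sp_of_le_exc hw hl hr0.le hrl.le)

/-- If there is no complete excursion, the path is monotone or antitone. -/
lemma mono_of_spR_eq_zero {w : ℝ → ℝ} (hw : Continuous w) {t : ℝ} (h : spR w t = 0) :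
    MonotoneOn w (Icc 0 t) ∨ AntitoneOn w (Icc 0 t) := by
  by_contra hcon
  push Not at hcon
  have hE : ∀ l ∈ Exc w t, False := by
    intro l hl
    have h1 := le_csSup (bddAbove_Exc w t) hl
    have h2 := (Exc_subset w t hl).1
    change l ≤ spR w t at h1
    linarith
  rw [not_monotoneOn_not_antitoneOn_iff_exists_lt_lt] at hcon
  obtain ⟨a, ha, b, hb, c, hc, hab, hbc, h3⟩ := hcon
  rcases h3 with ⟨h3, h4⟩ | ⟨h3, h4⟩
  · -- w a < w b, w c < w b
    obtain ⟨l, hl1, hl2⟩ := exists_between (max_lt h3 h4)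
    obtain ⟨p, q, hp1, hp2, hq1, hq2, hwp, hwq, hall⟩ := exists_excursion hw (l := l) hab.le le_rfl hbc.le
      ((le_max_left _ _).trans hl1.le) ((le_max_right _ _).trans hl1.le) (by
        intro u hu
        have : u = b := le_antisymm hu.2 hu.1
        rw [this]; exact hl2)
    refine hE (q - p) ⟨p, q, ha.1.trans hp1, hp2.trans hq1, hq2.trans hc.2, by rw [hwp, hwq], ?_, rfl⟩
    intro u hu
    rw [hwp]
    exact (hall u hu).ne'
  · -- w b < w a, w b < w c
    obtain ⟨l, hl1, hl2⟩ := exists_between (lt_min h3 h4)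
    have hl3 := lt_min_iff.mp hl2
    obtain ⟨p, q, hp1, hp2, hq1, hq2, hwp, hwq, hall⟩ :=
      exists_excursion (w := fun x => - w x) (by fun_prop) (l := -l) hab.le le_rfl hbc.le
      (by simpa using hl3.1.le) (by simpa using hl3.2.le) (by
        intro u hu
        have : u = b := le_antisymm hu.2 hu.1
        rw [this]; simpa using hl1)
    simp only [neg_inj, neg_lt_neg_iff] at hwp hwq hall
    refine hE (q - p) ⟨p, q, ha.1.trans hp1, hp2.trans hq1, hq2.trans hc.2, by rw [hwp, hwq], ?_, rfl⟩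
    intro u hu
    rw [hwp]
    exact (hall u hu).ne

end Pool.Agent.Lib.MP_097655_pr
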