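import Pool.Agent.Lib.MP_097655_pr.SpanMeas

set_option autoImplicit false

open MeasureTheory ProbabilityTheory Set Filter
open scoped NNReal ENNReal Topology

namespace Pool.Agent.Lib.MP_097655_pr

/-- Rational characterisation of membership in the span set. -/
lemma mem_Sp_iff {w : ℝ → ℝ} (hw : Continuous w) {r t : ℝ} :
    r ∈ Sp w t ↔ 0 ≤ r ∧ r ≤ t ∧ ∀ n : ℕ, ∃ q : ℚ, (0 ≤ (q : ℝ) ∧ (q : ℝ) ≤ 1) ∧
      |w (r + q * (t - r)) - w (q * (t - r))| < 1 / ((n : ℝ) + 1) := by
  constructor
  · rintro ⟨h0, v, h1, h2, h3⟩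
    refine ⟨h0, h1.trans h2, fun n => ?_⟩
    -- real parameter
    obtain ⟨s, hs0, hs1, hs⟩ : ∃ s : ℝ, 0 ≤ s ∧ s ≤ 1 ∧ v = r + s * (t - r) := by
      rcases (h1.trans h2).eq_or_lt with h | h
      · exact ⟨0, le_rfl, zero_le_one, by linarith⟩
      · refine ⟨(v - r) / (t - r), div_nonneg (by linarith) (by linarith), ?_, ?_⟩
        · rw [div_le_one (by linarith)]; linarith
        · field_simp [(sub_pos.mpr h).ne']
          ring
    have hg : Continuous (fun s : ℝ => |w (r + s * (t - r)) - w (s * (t - r))|) := by fun_prop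
    have hgs : |w (r + s * (t - r)) - w (s * (t - r))| < 1 / ((n : ℝ) + 1) := by
      have : w (r + s * (t - r)) - w (s * (t - r)) = 0 := by
        rw [← hs, h3]
        have : v - r = s * (t - r) := by linarith
        rw [this, sub_self]
      rw [this, abs_zero]
      positivity
    -- approximate s by rationals in [0,1]
    have hopen : IsOpen {s : ℝ | |w (r + s * (t - r)) - w (s * (t - r))| < 1 / ((n : ℝ) + 1)} :=
      isOpen_lt hg continuous_const
    obtain ⟨ε, hε, hball⟩ := Metric.isOpen_iff.mp hopen s hgs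
    obtain ⟨q, hq1, hq2⟩ : ∃ q : ℚ, max 0 (s - ε) ≤ (q : ℝ) ∧ (q : ℝ) ≤ min 1 (s + ε) ∧
        |(q : ℝ) - s| < ε := by
      rcases lt_or_ge s 1 with hs' | hs'
      · obtain ⟨q, h4, h5⟩ := exists_rat_btwn (lt_min hs' (by linarith : s < s + ε))
        rw [lt_min_iff] at h5
        refine ⟨q, max_le (hs0.trans h4.le) (by linarith), le_min h5.1.le h5.2.le, ?_⟩
        rw [abs_lt]; constructor <;> linarith
      · obtain ⟨q, h4, h5⟩ := exists_rat_btwn (max_lt (by linarith : (0 : ℝ) < s) (by linarith : s - ε < s))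
        rw [max_lt_iff] at h4
        refine ⟨q, max_le h4.1.le h4.2.le, le_min (h5.le.trans hs1) (by linarith), ?_⟩
        rw [abs_lt]; constructor <;> linarith
    refine ⟨q, ⟨(le_max_left _ _).trans hq1, hq2.1.trans (min_le_left _ _)⟩, ?_⟩
    have : (q : ℝ) ∈ Metric.ball s ε := by
      rw [Metric.mem_ball, Real.dist_eq]; exact hq2.2
    exact hball this
  · rintro ⟨h0, h1, h2⟩
    refine ⟨h0, ?_⟩
    have hg : ContinuousOn (fun s : ℝ => |w (r + s * (t - r)) - w (s * (t - r))|) (Icc 0 1) := by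
      fun_prop
    obtain ⟨s, hs, hmin⟩ := isCompact_Icc.exists_isMinOn (nonempty_Icc.mpr zero_le_one) hg
    have hs0 : |w (r + s * (t - r)) - w (s * (t - r))| = 0 := by
      by_contra hcon
      have hpos : 0 < |w (r + s * (t - r)) - w (s * (t - r))| := lt_of_le_of_ne (abs_nonneg _) (Ne.symm hcon)
      obtain ⟨n, hn⟩ := exists_nat_one_div_lt hpos
      obtain ⟨q, hq, hq2⟩ := h2 n
      have := hmin (show (q : ℝ) ∈ Icc (0 : ℝ) 1 from hq)
      simp only [mem_ofPred_eq] at this
      linarith
    rw [abs_eq_zero] at hs0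
    refine ⟨r + s * (t - r), ?_, ?_, ?_⟩
    · have := mul_nonneg hs.1 (sub_nonneg.mpr h1); linarith
    · have := mul_le_mul_of_nonneg_right hs.2 (sub_nonneg.mpr h1); linarith
    · have : r + s * (t - r) - r = s * (t - r) := by ring
      rw [this]; linarith

/-- Joint measurability of the span relation. -/
lemma measurableSet_Sp {α : Type*} [MeasurableSpace α] {r t : α → ℝ} {w : α → Path}
    (hr : Measurable r) (ht : Measurable t) (hw : Measurable w) :
    MeasurableSet {a | r a ∈ Sp (w a) (t a)} := by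
  have : {a | r a ∈ Sp (w a) (t a)} = {a | 0 ≤ r a} ∩ ({a | r a ≤ t a} ∩
      ⋂ n : ℕ, ⋃ q : ℚ, ({a | 0 ≤ (q : ℝ) ∧ (q : ℝ) ≤ 1} ∩
        {a | |w a (r a + q * (t a - r a)) - w a (q * (t a - r a))| < 1 / ((n : ℝ) + 1)})) := by
    ext a
    simp only [mem_ofPred_eq, mem_inter_iff, mem_iInter, mem_iUnion]
    exact mem_Sp_iff (w a).continuous
  rw [this]
  refine (measurableSet_le measurable_const hr).inter ((measurableSet_le hr ht).inter ?_)
  refine MeasurableSet.iInter fun n => MeasurableSet.iUnion fun q => ?_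
  refine (MeasurableSet.const _).inter (measurableSet_lt ?_ measurable_const)
  have h1 : Measurable (fun a => w a (r a + q * (t a - r a))) :=
    Path.measurable_eval_comp hw (by fun_prop)
  have h2 : Measurable (fun a => w a (q * (t a - r a))) :=
    Path.measurable_eval_comp hw (by fun_prop)
  exact (h1.sub h2).norm

lemma measurable_spT : Measurable (fun w : Path => spT w 1) := by
  refine measurable_of_Ioi fun a => ?_
  rcases lt_or_ge a 0 with ha | ha
  · have : (fun w : Path => spT w 1) ⁻¹' Ioi a = univ := by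
      ext w; simp only [mem_preimage, mem_Ioi, mem_univ, iff_true]
      exact ha.trans_le (spT_nonneg _ _)
    rw [this]; exact MeasurableSet.univ
  · have : (fun w : Path => spT w 1) ⁻¹' Ioi a = ⋃ b : ℚ, ({w | a < (b : ℝ)} ∩
        ⋂ r : ℚ, ({w | ¬ (0 < (r : ℝ) ∧ (r : ℝ) < b)} ∪ {w : Path | (r : ℝ) ∈ Sp w 1})) := by
      ext w
      simp only [mem_preimage, mem_Ioi, mem_iUnion, mem_inter_iff, mem_ofPred_eq, mem_iInter,
        mem_union]
      constructor
      · intro h
        obtain ⟨b, hb1, hb2⟩ := exists_rat_btwn h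
        refine ⟨b, hb1, fun r => ?_⟩
        by_cases hr : 0 < (r : ℝ) ∧ (r : ℝ) < b
        · right; exact mem_Sp_of_lt_spT hr.1 (hr.2.trans hb2)
        · left; exact hr
      · rintro ⟨b, hb1, hb2⟩
        refine hb1.trans_le (le_csInf (nonempty_compl _ _) ?_)
        rintro r ⟨hr0, hr⟩
        by_contra hcon
        push Not at hcon
        apply hr
        have hcl := isClosed_Sp w.continuous 1
        have h3 : r ∈ closure ((Ioo 0 (b : ℝ)) ∩ range ((↑) : ℚ → ℝ)) := by
          have hd : Dense (range ((↑) : ℚ → ℝ)) := Rat.denseRange_cast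
          have := hd.open_subset_closure_inter (isOpen_Ioo (a := (0 : ℝ)) (b := (b : ℝ)))
          exact this ⟨hr0, hcon⟩
        refine hcl.closure_subset_iff.mpr ?_ h3
        rintro _ ⟨hx, ⟨q, rfl⟩⟩
        rcases hb2 q with h4 | h4
        · exact absurd hx h4
        · exact h4
    rw [this]
    refine MeasurableSet.iUnion fun b => (MeasurableSet.const _).inter (MeasurableSet.iInter fun r =>
      (MeasurableSet.const _).union ?_)
    exact measurableSet_Sp measurable_const measurable_const measurable_id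

end Pool.Agent.Lib.MP_097655_pr
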