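import Pool.Agent.Lib.MP_097655_pr.SpanMeas2

set_option autoImplicit false

open MeasureTheory ProbabilityTheory Set Filter
open scoped NNReal ENNReal Topology Pointwise

namespace Pool.Agent.Lib.MP_097655_pr

/-- existence of a positive excursion longer than `a`, in terms of rational data -/
def PosExc (a : ℝ) (w : ℝ → ℝ) : Prop :=
  ∃ s1 s2 l : ℚ, (a < (s2 : ℝ) - s1 ∧ (s1 : ℝ) < s2 ∧ 0 ≤ (s1 : ℝ) ∧ (s2 : ℝ) ≤ 1) ∧
    (∀ q : ℚ, (s1 : ℝ) ≤ q → (q : ℝ) ≤ s2 → (l : ℝ) ≤ w q) ∧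
    (∃ q : ℚ, (0 ≤ (q : ℝ) ∧ (q : ℝ) ≤ s1) ∧ w q < l) ∧
    (∃ q : ℚ, ((s2 : ℝ) ≤ q ∧ (q : ℝ) ≤ 1) ∧ w q < l)

lemma le_of_forall_rat {w : ℝ → ℝ} (hw : Continuous w) {s1 s2 l : ℝ} (h12 : s1 < s2)
    (h : ∀ q : ℚ, s1 ≤ (q : ℝ) → (q : ℝ) ≤ s2 → l ≤ w q) : ∀ u ∈ Icc s1 s2, l ≤ w u := by
  intro u hu
  have hcl : IsClosed {u | l ≤ w u} := isClosed_le continuous_const hw
  have h3 : u ∈ closure ((Ioo s1 s2) ∩ range ((↑) : ℚ → ℝ)) := by
    have hd : Dense (range ((↑) : ℚ → ℝ)) := Rat.denseRange_cast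
    have h4 := hd.open_subset_closure_inter (isOpen_Ioo (a := s1) (b := s2))
    have h5 : closure (Ioo s1 s2) ⊆ closure ((Ioo s1 s2) ∩ range ((↑) : ℚ → ℝ)) :=
      closure_minimal h4 isClosed_closure
    rw [closure_Ioo h12.ne] at h5
    exact h5 hu
  refine hcl.closure_subset_iff.mpr ?_ h3
  rintro _ ⟨hx, ⟨q, rfl⟩⟩
  exact h q hx.1.le hx.2.le

lemma posExc_imp {w : ℝ → ℝ} (hw : Continuous w) {a : ℝ} (h : PosExc a w) :
    ∃ l ∈ Exc w 1, a < l := by
  obtain ⟨s1, s2, l, ⟨h1, h2, h3, h4⟩, h5, ⟨q1, ⟨h6, h7⟩, h8⟩, ⟨q2, ⟨h9, h10⟩, h11⟩⟩ := h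
  have hge := le_of_forall_rat hw h2 h5
  obtain ⟨l', hl1, hl2⟩ := exists_between (max_lt h8 h11)
  obtain ⟨p, q, hp1, hp2, hq1, hq2, hwp, hwq, hall⟩ := exists_excursion hw h7 h2.le h9
    ((le_max_left _ _).trans hl1.le) ((le_max_right _ _).trans hl1.le)
    (fun u hu => hl2.trans_le (hge u hu))
  refine ⟨q - p, ⟨p, q, h6.trans hp1, by linarith, hq2.trans h10, by rw [hwp, hwq], ?_, rfl⟩,
    by linarith⟩
  intro u hu
  rw [hwp]
  exact (hall u hu).ne'

lemma posExc_of {w : ℝ → ℝ} (hw : Continuous w) {a p q : ℝ} (hp : 0 ≤ p) (hpq : p < q)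
    (hq : q ≤ 1) (hwpq : w p = w q) (hexc : ∀ u ∈ Ioo p q, w p < w u) (ha : a < q - p) :
    PosExc a w := by
  -- choose rational s1 s2
  set m := max a 0 with hm
  have hm1 : m < q - p := max_lt ha (by linarith)
  have hm0 : 0 ≤ m := le_max_right _ _
  obtain ⟨s1, hs1, hs1'⟩ := exists_rat_btwn (show p < p + (q - p - m) / 2 by linarith)
  obtain ⟨s2, hs2, hs2'⟩ := exists_rat_btwn (show q - (q - p - m) / 2 < q by linarith)
  have h12 : m < (s2 : ℝ) - s1 := by linarith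
  have h12' : (s1 : ℝ) < s2 := by linarith
  -- minimum on [s1, s2]
  obtain ⟨x, hx, hmin⟩ := (isCompact_Icc (a := (s1 : ℝ)) (b := s2)).exists_isMinOn
    (nonempty_Icc.mpr h12'.le) hw.continuousOn
  have hxI : x ∈ Ioo p q := ⟨hs1.trans_le hx.1, hx.2.trans_lt hs2'⟩
  obtain ⟨l, hl1, hl2⟩ := exists_rat_btwn (hexc x hxI)
  refine ⟨s1, s2, l, ⟨(le_max_left _ _).trans_lt h12, h12', by linarith, by linarith⟩, ?_, ?_, ?_⟩
  · intro q' h1 h2
    exact hl2.le.trans (hmin (show (q' : ℝ) ∈ Icc (s1 : ℝ) s2 from ⟨h1, h2⟩))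
  · have hopen : IsOpen {u | w u < (l : ℝ)} := isOpen_lt hw continuous_const
    obtain ⟨ε, hε, hball⟩ := Metric.isOpen_iff.mp hopen p hl1
    obtain ⟨q', h1, h2⟩ := exists_rat_btwn (show p < min (s1 : ℝ) (p + ε) from lt_min hs1 (by linarith))
    rw [lt_min_iff] at h2
    refine ⟨q', ⟨by linarith, h2.1.le⟩, ?_⟩
    have : (q' : ℝ) ∈ Metric.ball p ε := by
      rw [Metric.mem_ball, Real.dist_eq, abs_lt]; constructor <;> linarith
    exact hball this
  · have hopen : IsOpen {u | w u < (l : ℝ)} := isOpen_lt hw continuous_const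
    obtain ⟨ε, hε, hball⟩ := Metric.isOpen_iff.mp hopen q (show w q < (l : ℝ) by rw [← hwpq]; exact hl1)
    obtain ⟨q', h1, h2⟩ := exists_rat_btwn (show max (s2 : ℝ) (q - ε) < q from max_lt hs2' (by linarith))
    rw [max_lt_iff] at h1
    refine ⟨q', ⟨h1.1.le, by linarith⟩, ?_⟩
    have : (q' : ℝ) ∈ Metric.ball q ε := by
      rw [Metric.mem_ball, Real.dist_eq, abs_lt]; constructor <;> linarith
    exact hball this

lemma Exc_neg (w : ℝ → ℝ) (t : ℝ) : Exc (fun x => - w x) t = Exc w t := by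
  ext l
  simp only [Exc, mem_ofPred_eq, neg_inj, ne_eq]

lemma lt_spR_iff {w : ℝ → ℝ} (hw : Continuous w) {a : ℝ} (ha : 0 ≤ a) :
    a < spR w 1 ↔ PosExc a w ∨ PosExc a (fun x => - w x) := by
  constructor
  · intro h
    have hne : (Exc w 1).Nonempty := by
      by_contra h'
      rw [not_nonempty_iff_eq_empty] at h'
      have : spR w 1 = 0 := by rw [spR, h', Real.sSup_empty]
      linarith
    obtain ⟨l, hl, hal⟩ := exists_lt_of_lt_csSup hne (show a < sSup (Exc w 1) from h)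
    obtain ⟨p, q, hp0, hpq, hqt, hwpq, hexc, rfl⟩ := hl
    rcases excursion_sign hw hexc with h1 | h1
    · left; exact posExc_of hw hp0 hpq hqt hwpq h1 hal
    · right
      exact posExc_of (w := fun x => - w x) (by fun_prop) hp0 hpq hqt (by simp [hwpq])
        (fun u hu => by simpa using h1 u hu) hal
  · rintro (h | h)
    · obtain ⟨l, hl, hal⟩ := posExc_imp hw h
      exact hal.trans_le (le_csSup (bddAbove_Exc w 1) hl)
    · obtain ⟨l, hl, hal⟩ := posExc_imp (w := fun x => - w x) (by fun_prop) h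
      rw [Exc_neg] at hl
      exact hal.trans_le (le_csSup (bddAbove_Exc w 1) hl)

lemma measurableSet_posExc (a : ℝ) : MeasurableSet {w : Path | PosExc a w} := by
  have : {w : Path | PosExc a w} = ⋃ s1 : ℚ, ⋃ s2 : ℚ, ⋃ l : ℚ,
    ({w : Path | a < (s2 : ℝ) - s1 ∧ (s1 : ℝ) < s2 ∧ 0 ≤ (s1 : ℝ) ∧ (s2 : ℝ) ≤ 1} ∩
    ((⋂ q : ℚ, {w : Path | (s1 : ℝ) ≤ q → (q : ℝ) ≤ s2 → (l : ℝ) ≤ w q}) ∩
    ((⋃ q : ℚ, ({w : Path | 0 ≤ (q : ℝ) ∧ (q : ℝ) ≤ s1} ∩ {w : Path | w q < l})) ∩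
    (⋃ q : ℚ, ({w : Path | (s2 : ℝ) ≤ q ∧ (q : ℝ) ≤ 1} ∩ {w : Path | w q < l}))))) := by
    ext w
    simp only [PosExc, mem_ofPred_eq, mem_iUnion, mem_inter_iff, mem_iInter]
  rw [this]
  refine MeasurableSet.iUnion fun s1 => MeasurableSet.iUnion fun s2 => MeasurableSet.iUnion fun l => ?_
  refine (MeasurableSet.const _).inter (MeasurableSet.inter ?_ (MeasurableSet.inter ?_ ?_))
  · refine MeasurableSet.iInter fun q => ?_
    by_cases h1 : (s1 : ℝ) ≤ q
    · by_cases h2 : (q : ℝ) ≤ s2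
      · simp only [h1, h2, forall_const]
        exact measurableSet_le measurable_const (Path.measurable_eval _)
      · simp only [h2, false_imp_iff, imp_true_iff]
        exact MeasurableSet.const _
    · simp only [h1, false_imp_iff]
      exact MeasurableSet.const _
  · exact MeasurableSet.iUnion fun q => (MeasurableSet.const _).inter
      (measurableSet_lt (Path.measurable_eval _) measurable_const)
  · exact MeasurableSet.iUnion fun q => (MeasurableSet.const _).inter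
      (measurableSet_lt (Path.measurable_eval _) measurable_const)

lemma measurable_spR : Measurable (fun w : Path => spR w 1) := by
  refine measurable_of_Ioi fun a => ?_
  rcases lt_or_ge a 0 with ha | ha
  · have : (fun w : Path => spR w 1) ⁻¹' Ioi a = univ := by
      ext w; simp only [mem_preimage, mem_Ioi, mem_univ, iff_true]
      exact ha.trans_le (spR_nonneg _ _)
    rw [this]; exact MeasurableSet.univ
  · have : (fun w : Path => spR w 1) ⁻¹' Ioi a =
        {w : Path | PosExc a w} ∪ Path.refl ⁻¹' {w : Path | PosExc a w} := by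
      ext w
      simp only [mem_preimage, mem_Ioi, mem_union, mem_ofPred_eq]
      exact lt_spR_iff w.continuous ha
    rw [this]
    exact (measurableSet_posExc a).union (Path.measurable_refl (measurableSet_posExc a))

/-! ### scaling -/

lemma Sp_scale (w : Path) {k : ℝ} (hk : 0 < k) (t r : ℝ) :
    r ∈ Sp (Path.scale k w) t ↔ k * r ∈ Sp w (k * t) := by
  have hsq : (√k)⁻¹ ≠ 0 := inv_ne_zero (Real.sqrt_ne_zero'.mpr hk)
  constructor
  · rintro ⟨h0, v, h1, h2, h3⟩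
    rw [Path.scale_apply hk.le, Path.scale_apply hk.le] at h3
    have h4 := mul_left_cancel₀ hsq h3
    refine ⟨by positivity, k * v, mul_le_mul_of_nonneg_left h1 hk.le,
      mul_le_mul_of_nonneg_left h2 hk.le, ?_⟩
    rw [h4]; congr 1; ring
  · rintro ⟨h0, v, h1, h2, h3⟩
    refine ⟨nonneg_of_mul_nonneg_right h0 hk, v / k, ?_, ?_, ?_⟩
    · rw [le_div_iff₀ hk]; linarith
    · rw [div_le_iff₀ hk]; linarith
    · rw [Path.scale_apply hk.le, Path.scale_apply hk.le]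
      have e1 : k * (v / k) = v := by field_simp
      have e2 : k * (v / k - r) = v - k * r := by field_simp
      rw [e1, e2, h3]

lemma spT_scale (w : Path) {k : ℝ} (hk : 0 < k) : spT (Path.scale k w) 1 = k⁻¹ * spT w k := by
  have : {r | 0 < r ∧ r ∉ Sp (Path.scale k w) 1} = k⁻¹ • {r | 0 < r ∧ r ∉ Sp w k} := by
    ext r
    rw [mem_smul_set_iff_inv_smul_mem₀ (inv_ne_zero hk.ne'), inv_inv]
    simp only [mem_ofPred_eq, smul_eq_mul, Sp_scale w hk, mul_one]
    constructor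
    · rintro ⟨h1, h2⟩; exact ⟨by positivity, h2⟩
    · rintro ⟨h1, h2⟩; exact ⟨(mul_pos_iff_of_pos_left hk).mp h1, h2⟩
  rw [spT, this, Real.sInf_smul_of_nonneg (inv_nonneg.mpr hk.le)]
  rfl

lemma Exc_scale (w : Path) {k : ℝ} (hk : 0 < k) (t l : ℝ) :
    l ∈ Exc (Path.scale k w) t ↔ k * l ∈ Exc w (k * t) := by
  have hsq : (√k)⁻¹ ≠ 0 := inv_ne_zero (Real.sqrt_ne_zero'.mpr hk)
  constructor
  · rintro ⟨p, q, hp0, hpq, hqt, hwpq, hexc, rfl⟩
    rw [Path.scale_apply hk.le, Path.scale_apply hk.le] at hwpq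
    refine ⟨k * p, k * q, by positivity, mul_lt_mul_of_pos_left hpq hk,
      mul_le_mul_of_nonneg_left hqt hk.le, mul_left_cancel₀ hsq hwpq, ?_, by ring⟩
    rintro u ⟨hu1, hu2⟩ hcon
    refine hexc (u / k) ⟨?_, ?_⟩ ?_
    · rw [lt_div_iff₀ hk]; linarith
    · rw [div_lt_iff₀ hk]; linarith
    · rw [Path.scale_apply hk.le, Path.scale_apply hk.le]
      have e1 : k * (u / k) = u := by field_simp
      rw [e1, hcon]
  · rintro ⟨p, q, hp0, hpq, hqt, hwpq, hexc, h⟩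
    refine ⟨p / k, q / k, by positivity, div_lt_div_of_pos_right hpq hk, ?_, ?_, ?_, ?_⟩
    · rw [div_le_iff₀ hk]; linarith
    · rw [Path.scale_apply hk.le, Path.scale_apply hk.le]
      have e1 : k * (p / k) = p := by field_simp
      have e2 : k * (q / k) = q := by field_simp
      rw [e1, e2, hwpq]
    · rintro u ⟨hu1, hu2⟩ hcon
      rw [Path.scale_apply hk.le, Path.scale_apply hk.le] at hcon
      have hcon2 := mul_left_cancel₀ hsq hcon
      have e1 : k * (p / k) = p := by field_simp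
      rw [e1] at hcon2
      rw [div_lt_iff₀ hk] at hu1
      rw [lt_div_iff₀ hk] at hu2
      exact hexc (k * u) ⟨by linarith, by linarith⟩ hcon2
    · field_simp; linarith

lemma spR_scale (w : Path) {k : ℝ} (hk : 0 < k) : spR (Path.scale k w) 1 = k⁻¹ * spR w k := by
  have : Exc (Path.scale k w) 1 = k⁻¹ • Exc w k := by
    ext r
    rw [mem_smul_set_iff_inv_smul_mem₀ (inv_ne_zero hk.ne'), inv_inv]
    simp only [smul_eq_mul, Exc_scale w hk, mul_one]
  rw [spR, this, Real.sSup_smul_of_nonneg (inv_nonneg.mpr hk.le)]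
  rfl

end Pool.Agent.Lib.MP_097655_pr
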