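import Pool.Agent.Lib.MP_097655_pr.TR

set_option autoImplicit false

open MeasureTheory ProbabilityTheory Set Filter
open scoped NNReal ENNReal Topology Pointwise

namespace Pool.Agent.Lib.MP_097655_pr

/-! ### measurability of existential statements over compact time intervals -/

lemma exists_Icc_lt_iff_rat {g : ℝ → ℝ} (hg : Continuous g) {b K : ℝ} (hb : 0 ≤ b) :
    (∃ y ∈ Icc 0 b, g y < K) ↔ ∃ q : ℚ, (0 ≤ (q : ℝ) ∧ (q : ℝ) ≤ 1) ∧ g (q * b) < K := by
  constructor
  · rintro ⟨y, hy, hyK⟩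
    obtain ⟨s, hs0, hs1, rfl⟩ : ∃ s : ℝ, 0 ≤ s ∧ s ≤ 1 ∧ y = s * b := by
      rcases hb.eq_or_lt with h | h
      · exact ⟨0, le_rfl, zero_le_one, by rw [zero_mul]; rw [← h] at hy; exact le_antisymm hy.2 hy.1⟩
      · exact ⟨y / b, div_nonneg hy.1 hb, (div_le_one h).mpr hy.2, by field_simp⟩
    have hopen : IsOpen {s : ℝ | g (s * b) < K} := isOpen_lt (by fun_prop) continuous_const
    obtain ⟨ε, hε, hball⟩ := Metric.isOpen_iff.mp hopen s hyK
    obtain ⟨q, hq1, hq2, hq3⟩ : ∃ q : ℚ, 0 ≤ (q : ℝ) ∧ (q : ℝ) ≤ 1 ∧ |(q : ℝ) - s| < ε := by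
      rcases lt_or_ge s 1 with hs' | hs'
      · obtain ⟨q, h4, h5⟩ := exists_rat_btwn (lt_min hs' (by linarith : s < s + ε))
        rw [lt_min_iff] at h5
        refine ⟨q, by linarith, h5.1.le, ?_⟩
        rw [abs_lt]; constructor <;> linarith
      · obtain ⟨q, h4, h5⟩ := exists_rat_btwn (max_lt (by linarith : (0 : ℝ) < s) (by linarith : s - ε < s))
        rw [max_lt_iff] at h4
        refine ⟨q, h4.1.le, by linarith, ?_⟩
        rw [abs_lt]; constructor <;> linarith
    refine ⟨q, ⟨hq1, hq2⟩, ?_⟩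
    have : (q : ℝ) ∈ Metric.ball s ε := by
      rw [Metric.mem_ball, Real.dist_eq]; exact hq3
    exact hball this
  · rintro ⟨q, ⟨h1, h2⟩, h3⟩
    exact ⟨q * b, ⟨by positivity, by nlinarith⟩, h3⟩

lemma measurableSet_exists_lt {α : Type*} [MeasurableSpace α] {g : α → ℝ → ℝ}
    (hc : ∀ a, Continuous (g a)) {b K : α → ℝ} (hb : ∀ a, 0 ≤ b a)
    (hm : ∀ q : ℝ, Measurable (fun a => g a (q * b a))) (hK : Measurable K) :
    MeasurableSet {a | ∃ y ∈ Icc 0 (b a), g a y < K a} := by
  have : {a | ∃ y ∈ Icc 0 (b a), g a y < K a} =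
      ⋃ q : ℚ, ({a | 0 ≤ (q : ℝ) ∧ (q : ℝ) ≤ 1} ∩ {a | g a (q * b a) < K a}) := by
    ext a
    simp only [mem_ofPred_eq, mem_iUnion, mem_inter_iff]
    exact exists_Icc_lt_iff_rat (hc a) (hb a)
  rw [this]
  exact MeasurableSet.iUnion fun q => (MeasurableSet.const _).inter (measurableSet_lt (hm q) hK)

lemma measurableSet_exists_lt' {α : Type*} [MeasurableSpace α] {g : α → ℝ → ℝ}
    (hc : ∀ a, Continuous (g a)) {b K : ℝ} (hb : 0 ≤ b)
    (hm : ∀ y : ℝ, Measurable (fun a => g a y)) :
    MeasurableSet {a | ∃ y ∈ Icc 0 b, g a y < K} :=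
  measurableSet_exists_lt (b := fun _ => b) (K := fun _ => K) hc (fun _ => hb) (fun _ => hm _)
    measurable_const

/-! ### Lévy's maximal inequality -/

/-- symmetric increments -/
lemma IsWiener.measure_incr_nonneg {μ : Measure Path} (hμ : IsWiener μ) (s t : ℝ) :
    1 ≤ 2 * μ {w | 0 ≤ w t - w s} := by
  have := hμ.isProbabilityMeasure
  have hm : MeasurableSet {w : Path | 0 ≤ w t - w s} :=
    measurableSet_le measurable_const ((Path.measurable_eval _).sub (Path.measurable_eval _))
  have h1 : μ {w | w t - w s ≤ 0} = μ {w | 0 ≤ w t - w s} := by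
    conv_rhs => rw [← hμ.map_refl]
    rw [Measure.map_apply Path.measurable_refl hm]
    congr 1
    ext w
    simp only [mem_ofPred_eq, mem_preimage, Path.refl_apply]
    constructor <;> intro h <;> linarith
  have h2 : (univ : Set Path) ⊆ {w | 0 ≤ w t - w s} ∪ {w | w t - w s ≤ 0} := by
    intro w _
    rcases le_total 0 (w t - w s) with h | h
    · exact Or.inl h
    · exact Or.inr h
  have h3 : (1 : ℝ≥0∞) ≤ μ {w | 0 ≤ w t - w s} + μ {w | w t - w s ≤ 0} := by
    rw [← measure_univ (μ := μ)]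
    exact (measure_mono h2).trans (measure_union_le _ _)
  rw [h1, ← two_mul] at h3
  exact h3

/-- A past event followed by a nonnegative increment. -/
lemma IsWiener.measure_le_two_mul {μ : Measure Path} (hμ : IsWiener μ) {s t : ℝ} (hs : 0 ≤ s)
    (hst : s ≤ t) {A : Set Path} (hA : MeasurableSet A) :
    μ {w | Path.stop s w ∈ A} ≤ 2 * μ ({w | Path.stop s w ∈ A} ∩ {w | 0 ≤ w t - w s}) := by
  have := hμ.isProbabilityMeasure
  let D : Set Path := {f | 0 ≤ f (t - s)}
  have hD : MeasurableSet D := measurableSet_le measurable_const (Path.measurable_eval _)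
  have e1 : {w : Path | 0 ≤ w t - w s} = {w | Path.stop (t - s) (Path.shift s w) ∈ D} := by
    ext w
    simp only [mem_ofPred_eq, D]
    rw [Path.stop_apply_of_le _ le_rfl, Path.shift_apply s w (sub_nonneg.mpr hst)]
    congr! 2
    rw [add_sub_cancel]
  have e2 := (hμ.indepFun_past (u := s) (h := t - s) hs (sub_nonneg.mpr hst)).measure_inter_preimage_eq_mul
    A D hA hD
  have e3 : μ ({w | Path.stop s w ∈ A} ∩ {w | 0 ≤ w t - w s}) =
      μ {w | Path.stop s w ∈ A} * μ {w : Path | 0 ≤ w t - w s} := by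
    rw [e1]; exact e2
  rw [e3]
  calc μ {w | Path.stop s w ∈ A} = μ {w | Path.stop s w ∈ A} * 1 := (mul_one _).symm
    _ ≤ μ {w | Path.stop s w ∈ A} * (2 * μ {w | 0 ≤ w t - w s}) :=
        mul_le_mul_right (hμ.measure_incr_nonneg s t) _
    _ = _ := by ring

/-- Lévy's maximal inequality on a finite grid. -/
lemma IsWiener.levy_discrete {μ : Measure Path} (hμ : IsWiener μ) (t : ℕ → ℝ) (ht : Monotone t)
    (h0 : ∀ k, 0 ≤ t k) {x : ℝ} (hx : 0 ≤ x) (N : ℕ) :
    μ {w | ∃ k ≤ N, x < |w (t k)|} ≤ 2 * μ {w | x < |w (t N)|} := by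
  have := hμ.isProbabilityMeasure
  -- first passage events
  let B : ℕ → Set Path := fun k => {w | (∀ i < k, |w (t i)| ≤ x) ∧ x < |w (t k)|}
  have hBm : ∀ k, MeasurableSet (B k) := by
    intro k
    have : B k = (⋂ i : ℕ, {w : Path | i < k → |w (t i)| ≤ x}) ∩ {w | x < |w (t k)|} := by
      ext w; simp only [B, mem_ofPred_eq, mem_inter_iff, mem_iInter]
    rw [this]
    refine (MeasurableSet.iInter fun i => ?_).inter
      (measurableSet_lt measurable_const (Path.measurable_eval _).norm)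
    by_cases hi : i < k
    · simp only [hi, forall_const]
      exact measurableSet_le (Path.measurable_eval _).norm measurable_const
    · simp only [hi, false_imp_iff]; exact MeasurableSet.const _
  have hBd : Pairwise (Function.onFun Disjoint B) := by
    intro i j hij
    rw [Function.onFun, Set.disjoint_left]
    rintro w ⟨h1, h2⟩ ⟨h3, h4⟩
    rcases lt_or_gt_of_ne hij with h | h
    · exact absurd (h3 i h) (not_le.mpr h2)
    · exact absurd (h1 j h) (not_le.mpr h4)
  have hunion : {w : Path | ∃ k ≤ N, x < |w (t k)|} = ⋃ k ∈ Finset.range (N + 1), B k := by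
    ext w
    simp only [mem_ofPred_eq, mem_iUnion, Finset.mem_range, exists_prop]
    constructor
    · rintro ⟨k, hk, hk2⟩
      classical
      have hex : ∃ k, x < |w (t k)| := ⟨k, hk2⟩
      refine ⟨Nat.find hex, ?_, ?_, Nat.find_spec hex⟩
      · have := Nat.find_min' hex hk2; omega
      · intro i hi
        exact not_lt.mp (Nat.find_min hex hi)
    · rintro ⟨k, hk, hk2⟩
      exact ⟨k, by omega, hk2.2⟩
  have hkey : ∀ k ≤ N, μ (B k) ≤ 2 * μ (B k ∩ {w | x < |w (t N)|}) := by
    intro k hk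
    -- signed parts
    let Bp : Set Path := {w | (∀ i < k, |w (t i)| ≤ x) ∧ x < w (t k)}
    let Bm : Set Path := {w | (∀ i < k, |w (t i)| ≤ x) ∧ x < - w (t k)}
    have hBp : MeasurableSet Bp := by
      have : Bp = (⋂ i : ℕ, {w : Path | i < k → |w (t i)| ≤ x}) ∩ {w | x < w (t k)} := by
        ext w; simp only [Bp, mem_ofPred_eq, mem_inter_iff, mem_iInter]
      rw [this]
      refine (MeasurableSet.iInter fun i => ?_).inter
        (measurableSet_lt measurable_const (Path.measurable_eval _))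
      by_cases hi : i < k
      · simp only [hi, forall_const]
        exact measurableSet_le (Path.measurable_eval _).norm measurable_const
      · simp only [hi, false_imp_iff]; exact MeasurableSet.const _
    have hBpm : ∀ w : Path, w ∈ Bm ↔ Path.refl w ∈ Bp := by
      intro w
      simp only [Bp, Bm, mem_ofPred_eq, Path.refl_apply, abs_neg]
    have hsplit : B k = Bp ∪ Bm := by
      ext w
      simp only [B, Bp, Bm, mem_ofPred_eq, mem_union, lt_abs]
      tauto
    have hstop : ∀ w : Path, Path.stop (t k) w ∈ Bp ↔ w ∈ Bp := by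
      intro w
      simp only [Bp, mem_ofPred_eq]
      rw [Path.stop_apply_of_le w le_rfl]
      refine and_congr_left fun _ => forall_congr' fun i => ?_
      refine ⟨fun h hi => ?_, fun h hi => ?_⟩
      · have := h hi; rwa [Path.stop_apply_of_le w (ht hi.le)] at this
      · rw [Path.stop_apply_of_le w (ht hi.le)]; exact h hi
    have hp : μ Bp ≤ 2 * μ (Bp ∩ {w | 0 ≤ w (t N) - w (t k)}) := by
      have := hμ.measure_le_two_mul (h0 k) (ht hk) hBp
      simp only [hstop] at this
      exact this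
    have hm' : μ Bm = μ Bp := by
      conv_rhs => rw [← hμ.map_refl]
      rw [Measure.map_apply Path.measurable_refl hBp]
      congr 1
      ext w; exact hBpm w
    have hm : μ Bm ≤ 2 * μ (Bm ∩ {w | 0 ≤ - (w (t N) - w (t k))}) := by
      have hmeas : MeasurableSet (Bp ∩ {w : Path | 0 ≤ w (t N) - w (t k)}) :=
        hBp.inter (measurableSet_le measurable_const
          ((Path.measurable_eval _).sub (Path.measurable_eval _)))
      have e : μ (Bm ∩ {w | 0 ≤ - (w (t N) - w (t k))}) =
          μ (Bp ∩ {w | 0 ≤ w (t N) - w (t k)}) := by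
        conv_rhs => rw [← hμ.map_refl]
        rw [Measure.map_apply Path.measurable_refl hmeas]
        congr 1
        ext w
        simp only [mem_inter_iff, mem_preimage, mem_ofPred_eq, hBpm w, Path.refl_apply]
        constructor
        · rintro ⟨h1, h2⟩; exact ⟨h1, by linarith⟩
        · rintro ⟨h1, h2⟩; exact ⟨h1, by linarith⟩
      rw [e, hm']; exact hp
    have hdisj : Disjoint (Bp ∩ {w : Path | 0 ≤ w (t N) - w (t k)})
        (Bm ∩ {w : Path | 0 ≤ - (w (t N) - w (t k))}) := by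
      rw [Set.disjoint_left]
      rintro w ⟨⟨-, h1⟩, -⟩ ⟨⟨-, h2⟩, -⟩
      linarith
    have hmeas2 : MeasurableSet (Bm ∩ {w : Path | 0 ≤ - (w (t N) - w (t k))}) := by
      refine MeasurableSet.inter ?_ (measurableSet_le measurable_const
          ((Path.measurable_eval _).sub (Path.measurable_eval _)).neg)
      have : Bm = Path.refl ⁻¹' Bp := by ext w; exact hBpm w
      rw [this]; exact Path.measurable_refl hBp
    calc μ (B k) ≤ μ Bp + μ Bm := by rw [hsplit]; exact measure_union_le _ _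
      _ ≤ 2 * μ (Bp ∩ {w | 0 ≤ w (t N) - w (t k)}) + 2 * μ (Bm ∩ {w | 0 ≤ - (w (t N) - w (t k))}) :=
        add_le_add hp hm
      _ = 2 * μ ((Bp ∩ {w | 0 ≤ w (t N) - w (t k)}) ∪ (Bm ∩ {w | 0 ≤ - (w (t N) - w (t k))})) := by
        rw [measure_union hdisj hmeas2, mul_add]
      _ ≤ 2 * μ (B k ∩ {w | x < |w (t N)|}) := by
        gcongr
        rintro w (⟨h1, h2⟩ | ⟨h1, h2⟩)
        · refine ⟨by rw [hsplit]; exact Or.inl h1, ?_⟩
          simp only [mem_ofPred_eq] at h2 ⊢
          rw [lt_abs]; left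
          have := h1.2
          linarith
        · refine ⟨by rw [hsplit]; exact Or.inr h1, ?_⟩
          simp only [mem_ofPred_eq] at h2 ⊢
          rw [lt_abs]; right
          have := h1.2
          linarith
  calc μ {w | ∃ k ≤ N, x < |w (t k)|} = μ (⋃ k ∈ Finset.range (N + 1), B k) := by rw [hunion]
    _ ≤ ∑ k ∈ Finset.range (N + 1), μ (B k) := measure_biUnion_finset_le _ _
    _ ≤ ∑ k ∈ Finset.range (N + 1), 2 * μ (B k ∩ {w | x < |w (t N)|}) := by
      refine Finset.sum_le_sum fun k hk => hkey k ?_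
      rw [Finset.mem_range] at hk; omega
    _ = 2 * μ (⋃ k ∈ Finset.range (N + 1), (B k ∩ {w | x < |w (t N)|})) := by
      rw [← Finset.mul_sum, measure_biUnion_finset]
      · intro i _ j _ hij
        exact (hBd hij).mono inter_subset_left inter_subset_left
      · intro k _
        exact (hBm k).inter (measurableSet_lt measurable_const (Path.measurable_eval _).norm)
    _ ≤ 2 * μ {w | x < |w (t N)|} := by
      gcongr
      exact iUnion₂_subset fun k _ => inter_subset_right

/-- Paths whose absolute value exceeds `x` on `[0, b]`. -/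
def Big (b x : ℝ) : Set Path := {w | ∃ y ∈ Icc 0 b, x < |w y|}

lemma measurableSet_Big {b : ℝ} (hb : 0 ≤ b) (x : ℝ) : MeasurableSet (Big b x) := by
  have : Big b x = {w : Path | ∃ y ∈ Icc 0 b, -|w y| < -x} := by
    ext w; simp only [Big, mem_ofPred_eq, neg_lt_neg_iff]
  rw [this]
  exact measurableSet_exists_lt' (g := fun (w : Path) y => -|w y|)
    (fun w => by have := w.continuous; fun_prop) hb (fun y => (Path.measurable_eval y).norm.neg)

lemma Big_refl (b x : ℝ) (w : Path) : Path.refl w ∈ Big b x ↔ w ∈ Big b x := by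
  simp only [Big, mem_ofPred_eq, Path.refl_apply, abs_neg]

lemma IsWiener.measure_Big_le {μ : Measure Path} (hμ : IsWiener μ) {b x : ℝ} (hb : 0 ≤ b)
    (hx : 0 ≤ x) : μ (Big b x) ≤ 2 * μ {w | x < |w b|} := by
  let G : ℕ → Set Path := fun j => {w | ∃ k : ℕ, k ≤ 2 ^ j ∧ x < |w ((k : ℝ) * b / 2 ^ j)|}
  have hG : Monotone G := by
    refine monotone_nat_of_le_succ fun j => ?_
    rintro w ⟨k, hk, hk2⟩
    refine ⟨2 * k, by rw [pow_succ]; omega, ?_⟩
    have : ((2 * k : ℕ) : ℝ) * b / 2 ^ (j + 1) = (k : ℝ) * b / 2 ^ j := by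
      push_cast; rw [pow_succ]; field_simp
    rw [this]; exact hk2
  have hB : Big b x ⊆ ⋃ j, G j := by
    rintro w ⟨y, hy, hyx⟩
    have hopen : IsOpen {u : ℝ | x < |w u|} :=
      isOpen_lt continuous_const (by have := w.continuous; fun_prop)
    obtain ⟨ε, hε, hball⟩ := Metric.isOpen_iff.mp hopen y hyx
    obtain ⟨j, hj⟩ := exists_pow_lt_of_lt_one (show 0 < ε / (b + 1) by positivity)
      (show (1 / 2 : ℝ) < 1 by norm_num)
    rw [mem_iUnion]
    have hj2 : b / 2 ^ j < ε := by
      rw [lt_div_iff₀ (by positivity)] at hj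
      have : (1 / 2 : ℝ) ^ j = 1 / 2 ^ j := by rw [one_div_pow]
      rw [this] at hj
      calc b / 2 ^ j ≤ 1 / 2 ^ j * (b + 1) := by
            rw [div_mul_eq_mul_div, one_mul]
            gcongr; linarith
        _ < ε := hj
    refine ⟨j, ?_⟩
    rcases hb.eq_or_lt with hb0 | hb0
    · refine ⟨0, Nat.zero_le _, ?_⟩
      have : y = 0 := by rw [← hb0] at hy; exact le_antisymm hy.2 hy.1
      rw [this] at hyx
      simpa using hyx
    · refine ⟨⌊y * 2 ^ j / b⌋₊, ?_, ?_⟩
      · apply Nat.floor_le_of_le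
        rw [div_le_iff₀ hb0]
        push_cast
        have := mul_le_mul_of_nonneg_right hy.2 (show (0 : ℝ) ≤ 2 ^ j by positivity)
        linarith
      · apply hball
        rw [Metric.mem_ball, Real.dist_eq, abs_lt]
        have h1 : (⌊y * 2 ^ j / b⌋₊ : ℝ) ≤ y * 2 ^ j / b :=
          Nat.floor_le (div_nonneg (mul_nonneg hy.1 (by positivity)) hb)
        have h2 : y * 2 ^ j / b < ⌊y * 2 ^ j / b⌋₊ + 1 := Nat.lt_floor_add_one _
        have h3 : (⌊y * 2 ^ j / b⌋₊ : ℝ) * b / 2 ^ j ≤ y := by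
          rw [div_le_iff₀ (by positivity)]
          rw [le_div_iff₀ hb0] at h1
          exact h1
        have h4 : y < (⌊y * 2 ^ j / b⌋₊ : ℝ) * b / 2 ^ j + b / 2 ^ j := by
          rw [div_lt_iff₀ hb0] at h2
          rw [← add_div, lt_div_iff₀ (by positivity)]
          linarith
        constructor <;> linarith
  calc μ (Big b x) ≤ μ (⋃ j, G j) := measure_mono hB
    _ = ⨆ j, μ (G j) := hG.measure_iUnion
    _ ≤ 2 * μ {w | x < |w b|} := by
      refine iSup_le fun j => ?_
      have h1 : Monotone (fun k : ℕ => (k : ℝ) * b / 2 ^ j) := by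
        intro k l hkl
        have : (k : ℝ) ≤ l := by exact_mod_cast hkl
        simp only
        gcongr
      have h2 := hμ.levy_discrete (fun k : ℕ => (k : ℝ) * b / 2 ^ j) h1 (fun k => by positivity) hx
        (2 ^ j)
      have h3 : ((2 ^ j : ℕ) : ℝ) * b / 2 ^ j = b := by
        push_cast; field_simp
      simp only [h3] at h2
      exact h2

/-- Polynomial tail bound for the maximum. -/
lemma IsWiener.exists_tail {μ : Measure Path} (hμ : IsWiener μ) {b : ℝ} (hb : 0 ≤ b) :
    ∃ C : ℝ, 0 ≤ C ∧ ∀ x, 0 < x → μ (Big b x) ≤ ENNReal.ofReal (C / x ^ 4) := by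
  have hL : MemLp (fun w : Path => w b) 4 μ := by
    have h1 := (hμ.isGaussianProcess.hasGaussianLaw_eval b.toNNReal).memLp (p := 4) (by norm_num)
    simpa only [← IsWiener.apply_eq_toNNReal] using h1
  have hfin : eLpNorm (fun w : Path => w b) 4 μ ≠ ∞ := hL.eLpNorm_lt_top.ne
  let D : ℝ := (eLpNorm (fun w : Path => w b) 4 μ).toReal
  refine ⟨2 * D ^ 4, by positivity, fun x hx => ?_⟩
  have h1 : μ {w | x < |w b|} ≤ ENNReal.ofReal (D ^ 4 / x ^ 4) := by
    have h2 := meas_ge_le_mul_pow_eLpNorm_enorm μ (p := 4) (by norm_num) (by norm_num)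
      hL.aestronglyMeasurable (ε := ENNReal.ofReal x) (by simpa using hx) (by simp)
    have h3 : {w : Path | x < |w b|} ⊆ {w | ENNReal.ofReal x ≤ ‖w b‖ₑ} := by
      intro w hw
      simp only [mem_ofPred_eq] at hw ⊢
      rw [← ofReal_norm, Real.norm_eq_abs]
      exact ENNReal.ofReal_le_ofReal hw.le
    refine (measure_mono h3).trans (h2.trans_eq ?_)
    have h4 : (4 : ℝ≥0∞).toReal = ((4 : ℕ) : ℝ) := by norm_num
    rw [h4, ENNReal.rpow_natCast, ENNReal.rpow_natCast, ← ENNReal.ofReal_toReal hfin,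
      ← ENNReal.ofReal_inv_of_pos hx, ← ENNReal.ofReal_pow (by positivity),
      ← ENNReal.ofReal_pow (by positivity), ← ENNReal.ofReal_mul (by positivity)]
    congr 1
    simp only [D]
    field_simp
  calc μ (Big b x) ≤ 2 * μ {w | x < |w b|} := hμ.measure_Big_le hb hx.le
    _ ≤ 2 * ENNReal.ofReal (D ^ 4 / x ^ 4) := by gcongr
    _ = ENNReal.ofReal (2 * D ^ 4 / x ^ 4) := by
      rw [mul_div_assoc, ENNReal.ofReal_mul (by norm_num)]
      norm_num

end Pool.Agent.Lib.MP_097655_pr
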