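import Pool.Agent.Lib.MP_097655_pr.SpanMeas3

set_option autoImplicit false

open MeasureTheory ProbabilityTheory Set Filter
open scoped NNReal ENNReal Topology Pointwise

namespace Pool.Agent.Lib.MP_097655_pr

/-- Paths that are nondecreasing on `[0, t]`. -/
def MonoPaths (t : ℝ) : Set Path := {w | MonotoneOn w (Icc 0 t)}

lemma monotoneOn_iff_rat {w : ℝ → ℝ} (hw : Continuous w) :
    MonotoneOn w (Icc 0 1) ↔ ∀ q q' : ℚ, 0 ≤ (q : ℝ) → (q : ℝ) ≤ q' → (q' : ℝ) ≤ 1 → w q ≤ w q' := by
  constructor
  · intro h q q' h1 h2 h3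
    exact h ⟨h1, h2.trans h3⟩ ⟨h1.trans h2, h3⟩ h2
  · intro h x hx y hy hxy
    rcases hxy.eq_or_lt with rfl | hxy
    · exact le_rfl
    by_contra hcon
    push Not at hcon
    obtain ⟨l, hl1, hl2⟩ := exists_between hcon
    have ho1 : IsOpen {u | w u < l} := isOpen_lt hw continuous_const
    have ho2 : IsOpen {u | l < w u} := isOpen_lt continuous_const hw
    obtain ⟨ε, hε, hb1⟩ := Metric.isOpen_iff.mp ho1 y hl1
    obtain ⟨δ, hδ, hb2⟩ := Metric.isOpen_iff.mp ho2 x hl2
    obtain ⟨q, h1, h2⟩ := exists_rat_btwn (show x < min ((x + y) / 2) (x + δ) from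
      lt_min (by linarith) (by linarith))
    obtain ⟨q', h3, h4⟩ := exists_rat_btwn (show max ((x + y) / 2) (y - ε) < y from
      max_lt (by linarith) (by linarith))
    rw [lt_min_iff] at h2
    rw [max_lt_iff] at h3
    have hq : (q : ℝ) ∈ Metric.ball x δ := by
      rw [Metric.mem_ball, Real.dist_eq, abs_lt]; constructor <;> linarith
    have hq' : (q' : ℝ) ∈ Metric.ball y ε := by
      rw [Metric.mem_ball, Real.dist_eq, abs_lt]; constructor <;> linarith
    have h5 : l < w q := hb2 hq
    have h6 : w q' < l := hb1 hq'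
    have h7 := h q q' (hx.1.trans h1.le) (by linarith) (by linarith [hy.2])
    linarith

lemma measurableSet_monoPaths_one : MeasurableSet (MonoPaths 1) := by
  have : MonoPaths 1 = ⋂ q : ℚ, ⋂ q' : ℚ,
      {w : Path | 0 ≤ (q : ℝ) → (q : ℝ) ≤ q' → (q' : ℝ) ≤ 1 → w q ≤ w q'} := by
    ext w
    simp only [MonoPaths, mem_ofPred_eq, mem_iInter]
    exact monotoneOn_iff_rat w.continuous
  rw [this]
  refine MeasurableSet.iInter fun q => MeasurableSet.iInter fun q' => ?_
  by_cases h1 : 0 ≤ (q : ℝ) ∧ (q : ℝ) ≤ q' ∧ (q' : ℝ) ≤ 1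
  · simp only [h1.1, h1.2.1, h1.2.2, forall_const]
    exact measurableSet_le (Path.measurable_eval _) (Path.measurable_eval _)
  · have : {w : Path | 0 ≤ (q : ℝ) → (q : ℝ) ≤ q' → (q' : ℝ) ≤ 1 → w q ≤ w q'} = univ := by
      ext w
      simp only [mem_ofPred_eq, mem_univ, iff_true]
      intro a b c
      exact absurd ⟨a, b, c⟩ h1
    rw [this]; exact MeasurableSet.univ

/-- Independence of past and (stopped) future. -/
lemma IsWiener.indepFun_past {μ : Measure Path} (hμ : IsWiener μ) {u h : ℝ} (hu : 0 ≤ u)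
    (hh : 0 ≤ h) :
    IndepFun (fun w : Path => Path.stop u w) (fun w : Path => Path.stop h (Path.shift u w)) μ :=
  (hμ.indepFun_middle hu hh).comp measurable_fst measurable_id

lemma measure_monoPaths {μ : Measure Path} (hμ : IsWiener μ) : μ (MonoPaths 1) = 0 := by
  have := hμ.isProbabilityMeasure
  have hM := measurableSet_monoPaths_one
  -- a ≤ a * a
  have h1 : μ (MonoPaths 1) ≤ μ (MonoPaths 1) * μ (MonoPaths 1) := by
    have e1 : μ (MonoPaths 1) = μ {w | Path.scale 2 w ∈ MonoPaths 1} :=
      (hμ.measure_scale two_pos hM).symm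
    have e2 : {w | Path.scale 2 w ∈ MonoPaths 1} ⊆
        (fun w : Path => Path.stop 1 w) ⁻¹' MonoPaths 1 ∩
          (fun w : Path => Path.stop 1 (Path.shift 1 w)) ⁻¹' MonoPaths 1 := by
      intro w hw
      have hw2 : MonotoneOn w (Icc 0 2) := by
        intro x hx y hy hxy
        have h3 := hw (a := x / 2) ⟨by linarith [hx.1], by linarith [hx.2]⟩ (b := y / 2)
          ⟨by linarith [hy.1], by linarith [hy.2]⟩ (by linarith)
        rw [Path.scale_apply (by norm_num), Path.scale_apply (by norm_num)] at h3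
        have e3 : (2 : ℝ) * (x / 2) = x := by ring
        have e4 : (2 : ℝ) * (y / 2) = y := by ring
        rw [e3, e4] at h3
        exact le_of_mul_le_mul_left h3 (by positivity)
      constructor
      · intro x hx y hy hxy
        rw [Path.stop_apply_of_le w hx.2, Path.stop_apply_of_le w hy.2]
        exact hw2 ⟨hx.1, by linarith [hx.2]⟩ ⟨hy.1, by linarith [hy.2]⟩ hxy
      · intro x hx y hy hxy
        rw [Path.stop_apply_of_le _ hx.2, Path.stop_apply_of_le _ hy.2,
          Path.shift_apply 1 w hx.1, Path.shift_apply 1 w hy.1]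
        have := hw2 (a := 1 + x) ⟨by linarith [hx.1], by linarith [hx.2]⟩ (b := 1 + y)
          ⟨by linarith [hy.1], by linarith [hy.2]⟩ (by linarith)
        linarith
    have e3 := (hμ.indepFun_past (u := 1) (h := 1) (by norm_num) (by norm_num)).measure_inter_preimage_eq_mul
      (MonoPaths 1) (MonoPaths 1) hM hM
    have e4 : μ ((fun w : Path => Path.stop 1 w) ⁻¹' MonoPaths 1) ≤ μ (MonoPaths 1) := by
      refine measure_mono fun w hw => ?_
      intro x hx y hy hxy
      have h3 := hw hx hy hxy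
      rwa [Path.stop_apply_of_le w hx.2, Path.stop_apply_of_le w hy.2] at h3
    have e5 : μ ((fun w : Path => Path.stop 1 (Path.shift 1 w)) ⁻¹' MonoPaths 1) ≤
        μ (MonoPaths 1) := by
      conv_rhs => rw [← hμ.map_shift (t := 1) (by norm_num)]
      rw [Measure.map_apply (Path.measurable_shift 1) hM]
      refine measure_mono fun w hw => ?_
      intro x hx y hy hxy
      have h3 := hw hx hy hxy
      rwa [Path.stop_apply_of_le _ hx.2, Path.stop_apply_of_le _ hy.2] at h3
    calc μ (MonoPaths 1) = μ {w | Path.scale 2 w ∈ MonoPaths 1} := e1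
      _ ≤ _ := measure_mono e2
      _ = _ := e3
      _ ≤ μ (MonoPaths 1) * μ (MonoPaths 1) := mul_le_mul' e4 e5
  by_contra hne
  have h2 : 1 ≤ μ (MonoPaths 1) := by
    by_contra hlt
    push Not at hlt
    have : μ (MonoPaths 1) * μ (MonoPaths 1) < μ (MonoPaths 1) * 1 :=
      ENNReal.mul_lt_mul_right hne (measure_ne_top _ _) hlt
    rw [mul_one] at this
    exact absurd h1 (not_le.mpr this)
  have h3 : μ (MonoPaths 1) = 1 := le_antisymm prob_le_one h2
  have h4 : μ (Path.refl ⁻¹' MonoPaths 1) = 1 := by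
    rw [← Measure.map_apply Path.measurable_refl hM, hμ.map_refl, h3]
  have h5 : ∀ᵐ w ∂μ, w ∈ MonoPaths 1 := by
    rw [← prob_compl_eq_zero_iff hM] at h3
    exact h3
  have h6 : ∀ᵐ w ∂μ, w ∈ Path.refl ⁻¹' MonoPaths 1 := by
    rw [← prob_compl_eq_zero_iff (Path.measurable_refl hM)] at h4
    exact h4
  have h7 : ∀ᵐ w ∂μ, w 0 = w 1 := by
    filter_upwards [h5, h6] with w h8 h9
    have h10 := h8 (a := 0) ⟨le_rfl, zero_le_one⟩ (b := 1) ⟨zero_le_one, le_rfl⟩ zero_le_one
    have h11 := h9 (a := 0) ⟨le_rfl, zero_le_one⟩ (b := 1) ⟨zero_le_one, le_rfl⟩ zero_le_one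
    rw [Path.refl_apply, Path.refl_apply] at h11
    linarith
  have h8 : μ {w | w 0 = w 1} = 0 := hμ.measure_eval_eq le_rfl zero_le_one zero_ne_one
  have h9 : μ univ ≤ μ {w | w 0 = w 1} + μ {w | ¬ w 0 = w 1} := by
    rw [show (univ : Set Path) = {w | w 0 = w 1} ∪ {w | ¬ w 0 = w 1} from by
      ext w; simp [em]]
    exact measure_union_le _ _
  rw [h8, ae_iff.mp h7, measure_univ] at h9
  simp at h9

lemma measure_spR_zero {μ : Measure Path} (hμ : IsWiener μ) : μ {w | spR w 1 = 0} = 0 := by
  have h1 : {w : Path | spR w 1 = 0} ⊆ MonoPaths 1 ∪ Path.refl ⁻¹' MonoPaths 1 := by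
    intro w hw
    rcases mono_of_spR_eq_zero w.continuous hw with h | h
    · exact Or.inl h
    · right
      intro x hx y hy hxy
      rw [Path.refl_apply, Path.refl_apply]
      exact neg_le_neg (h hx hy hxy)
  refine measure_mono_null h1 ?_
  rw [measure_union_null_iff]
  refine ⟨measure_monoPaths hμ, ?_⟩
  rw [← Measure.map_apply Path.measurable_refl measurableSet_monoPaths_one, hμ.map_refl]
  exact measure_monoPaths hμ

lemma spR_pos_of_spT {w : Path} (h : spR w 1 ≠ 0) : 0 < spT w 1 :=
  lt_of_lt_of_le (lt_of_le_of_ne (spR_nonneg _ _) (Ne.symm h)) (spR_le_spT w.continuous 1)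

/-- The general consequence for `T` and `R`. -/
lemma atom_zero' {μ : Measure Path} (hμ : IsWiener μ) {X : (ℝ → ℝ) → ℝ → ℝ}
    (hX : Measurable (fun w : Path => X w 1))
    (hscale : ∀ (w : Path) {k : ℝ}, 0 < k → X (Path.scale k w) 1 = k⁻¹ * X w k)
    (hnn : ∀ w : Path, 0 ≤ X w 1) (hle : ∀ w : Path, X w 1 ≤ 1)
    (hzero : μ {w : Path | X w 1 = 0} = 0)
    (hkey : ∀ (w : Path) (t c : ℝ), 0 < c → X w t = c * t →
      (∀ ε > 0, ∃ s ∈ Ioo t (t + ε), X w s = c * s) → w t = w (t - c * t)) (c : ℝ) :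
    μ {w : Path | X w 1 = c} = 0 := by
  rcases lt_trichotomy c 0 with hc | hc | hc
  · have : {w : Path | X w 1 = c} = ∅ := by
      ext w; simp only [mem_ofPred_eq, mem_empty_iff_false, iff_false]
      intro h; have := hnn w; linarith
    rw [this, measure_empty]
  · rw [hc]; exact hzero
  · rcases lt_or_ge 1 c with hc1 | hc1
    · have : {w : Path | X w 1 = c} = ∅ := by
        ext w; simp only [mem_ofPred_eq, mem_empty_iff_false, iff_false]
        intro h; have := hle w; linarith
      rw [this, measure_empty]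
    · refine atom_zero hμ hX c {p | p.2 p.1 = p.2 (p.1 - c * p.1)} ?_ ?_ ?_
      · exact measurableSet_eq_fun (Path.measurable_eval_comp measurable_snd measurable_fst)
          (Path.measurable_eval_comp measurable_snd (by fun_prop))
      · intro t ht
        have ht0 : 0 < t := lt_of_lt_of_le one_pos ht.1
        exact hμ.measure_eval_eq (s := t) (t := t - c * t) ht0.le
          (by nlinarith) (by
            have : 0 < c * t := by positivity
            intro h; linarith)
      · intro w t ht h1 h2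
        have ht0 : 0 < t := lt_of_lt_of_le one_pos ht.1
        have conv : ∀ s, 0 < s → (X (Path.scale s w) 1 = c ↔ X w s = c * s) := by
          intro s hs
          rw [hscale w hs]
          constructor
          · intro h; field_simp at h; linarith
          · intro h; rw [h]; field_simp
        refine hkey w t c hc ((conv t ht0).mp h1) fun ε hε => ?_
        obtain ⟨s, hs, hs2⟩ := h2 ε hε
        exact ⟨s, hs, (conv s (ht0.trans hs.1)).mp hs2⟩

theorem measure_spT_eq {μ : Measure Path} (hμ : IsWiener μ) (c : ℝ) :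
    μ {w : Path | spT w 1 = c} = 0 := by
  refine atom_zero' hμ measurable_spT (fun w k hk => spT_scale w hk) (fun w => spT_nonneg _ _)
    (fun w => spT_le _ zero_le_one) ?_ (fun w t c hc h1 h2 => eq_of_spT w.continuous hc h1 h2) c
  refine measure_mono_null (fun w hw => ?_) (measure_spR_zero hμ)
  by_contra h
  have := spR_pos_of_spT h
  rw [mem_ofPred_eq] at hw
  linarith

theorem measure_spR_eq {μ : Measure Path} (hμ : IsWiener μ) (c : ℝ) :
    μ {w : Path | spR w 1 = c} = 0 :=
  atom_zero' hμ measurable_spR (fun w k hk => spR_scale w hk) (fun w => spR_nonneg _ _)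
    (fun w => spR_le _ zero_le_one) (measure_spR_zero hμ)
    (fun w t c hc h1 h2 => eq_of_spR w.continuous hc h1 h2) c

end Pool.Agent.Lib.MP_097655_pr
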