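import Pool.Agent.Lib.MP_097655_pr.Basic

set_option autoImplicit false

open MeasureTheory ProbabilityTheory Set Filter
open scoped NNReal ENNReal Topology

namespace Pool.Agent.Lib.MP_097655_pr

/-- Every Brownian motion has a version with values in the path space. -/
lemma exists_path_version {Ω : Type*} {mΩ : MeasurableSpace Ω} {P : Measure Ω} {B : ℝ≥0 → Ω → ℝ}
    (hB : IsBrownianReal B P) :
    ∃ b : Ω → Path, Measurable b ∧ ∀ᵐ ω ∂P, ∀ t : ℝ≥0, b ω (t : ℝ) = B t ω := by
  classical
  -- measurable modifications at each time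
  let g : ℝ≥0 → Ω → ℝ := fun t => (hB.aemeasurable t).mk (B t)
  have hg : ∀ t, Measurable (g t) := fun t => (hB.aemeasurable t).measurable_mk
  have hgB : ∀ t, B t =ᵐ[P] g t := fun t => (hB.aemeasurable t).ae_eq_mk
  have hgood : ∀ᵐ ω ∂P, Continuous (fun t => B t ω) ∧ B 0 ω = 0 ∧
      ∀ q : ℚ, B (q : ℝ).toNNReal ω = g (q : ℝ).toNNReal ω := by
    have h1 : ∀ᵐ ω ∂P, ∀ q : ℚ, B (q : ℝ).toNNReal ω = g (q : ℝ).toNNReal ω := by
      rw [ae_all_iff]; intro q; exact hgB _
    filter_upwards [hB.cont, hB.eval_zero_ae_eq_zero, h1] with ω h2 h3 h4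
    exact ⟨h2, h3, h4⟩
  let N : Set Ω := toMeasurable P {ω | ¬ (Continuous (fun t => B t ω) ∧ B 0 ω = 0 ∧
      ∀ q : ℚ, B (q : ℝ).toNNReal ω = g (q : ℝ).toNNReal ω)}
  have hNm : MeasurableSet N := measurableSet_toMeasurable _ _
  have hN0 : P N = 0 := by rw [measure_toMeasurable]; exact hgood
  have hNc : ∀ ω, ω ∉ N → Continuous (fun t => B t ω) ∧ B 0 ω = 0 ∧
      ∀ q : ℚ, B (q : ℝ).toNNReal ω = g (q : ℝ).toNNReal ω := by
    intro ω hω
    by_contra hcon
    exact hω (subset_toMeasurable P _ hcon)
  let f : Ω → ℝ → ℝ := fun ω x => if ω ∈ N then 0 else B x.toNNReal ω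
  have hf : ∀ ω, Continuous (f ω) ∧ ∀ x, x ≤ 0 → f ω x = 0 := by
    intro ω
    by_cases hω : ω ∈ N
    · simp only [f, hω, if_true]
      exact ⟨continuous_const, fun _ _ => trivial⟩
    · simp only [f, hω, if_false]
      obtain ⟨h1, h2, _⟩ := hNc ω hω
      refine ⟨h1.comp continuous_real_toNNReal, fun x hx => ?_⟩
      rw [Real.toNNReal_of_nonpos hx, h2]
  refine ⟨fun ω => ⟨f ω, (hf ω).1, (hf ω).2⟩, ?_, ?_⟩
  · refine Path.measurable_of_eval fun x => ?_
    change Measurable (fun ω => f ω x)
    -- rational times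
    have hq : ∀ q : ℚ, Measurable (fun ω => f ω (q : ℝ)) := by
      intro q
      have : (fun ω => f ω (q : ℝ)) = fun ω => if ω ∈ N then 0 else g (q : ℝ).toNNReal ω := by
        funext ω
        by_cases hω : ω ∈ N
        · simp only [f, hω, if_true]
        · simp only [f, hω, if_false]
          exact (hNc ω hω).2.2 q
      rw [this]
      exact Measurable.ite hNm measurable_const (hg _)
    -- general time
    obtain ⟨u, hu⟩ : ∃ u : ℕ → ℚ, Tendsto (fun n => (u n : ℝ)) atTop (𝓝 x) := by
      obtain ⟨u, -, -, hu⟩ :=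
        (Rat.denseRange_cast (𝕜 := ℝ)).exists_seq_strictMono_tendsto Rat.cast_mono x
      exact ⟨u, hu⟩
    refine measurable_of_tendsto_metrizable (f := fun n ω => f ω (u n : ℝ)) (fun n => hq (u n)) ?_
    rw [tendsto_pi_nhds]
    intro ω
    exact ((hf ω).1.tendsto x).comp hu
  · have hNae : ∀ᵐ ω ∂P, ω ∉ N := by
      rw [ae_iff]; simpa using hN0
    filter_upwards [hNae] with ω hω t

    simp only [f, hω, if_false, Real.toNNReal_coe]

lemma isWiener_of_brownian {Ω : Type*} {mΩ : MeasurableSpace Ω} {P : Measure Ω}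
    {B : ℝ≥0 → Ω → ℝ} (hB : IsBrownianReal B P) {b : Ω → Path} (hb : Measurable b)
    (hbB : ∀ᵐ ω ∂P, ∀ t : ℝ≥0, b ω (t : ℝ) = B t ω) : IsWiener (P.map b) := by
  refine isWiener_map hb ?_
  refine hB.toIsPreBrownianReal.congr fun t => ?_
  filter_upwards [hbB] with ω hω using (hω t).symm

namespace IsWiener

variable {μ : Measure Path}

lemma map_scale (h : IsWiener μ) {k : ℝ} (hk : 0 < k) : μ.map (Path.scale k) = μ := by
  refine IsWiener.unique ?_ h
  refine isWiener_map (Path.measurable_scale k) ?_
  have hk' : k.toNNReal ≠ 0 := by simpa using hk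
  have h1 := IsPreBrownianReal.smul h hk'
  refine h1.congr fun t => ?_
  refine Filter.Eventually.of_forall fun w => ?_
  simp only [NNReal.coe_mul]
  rw [Path.scale_apply hk.le, Real.coe_toNNReal k hk.le]

lemma map_refl (h : IsWiener μ) : μ.map Path.refl = μ := by
  refine IsWiener.unique ?_ h
  exact isWiener_map Path.measurable_refl (IsPreBrownianReal.neg h)

lemma map_shift (h : IsWiener μ) {t : ℝ} (ht : 0 ≤ t) : μ.map (Path.shift t) = μ := by
  refine IsWiener.unique ?_ h
  refine isWiener_map (Path.measurable_shift t) ?_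
  have h1 := IsPreBrownianReal.shift h t.toNNReal
  refine h1.congr fun s => ?_
  refine Filter.Eventually.of_forall fun w => ?_
  simp only [NNReal.coe_add]
  rw [Path.shift_apply t w s.coe_nonneg, Real.coe_toNNReal t ht]

/-- Gaussian process structure of the coordinate process -/
lemma isGaussianProcess (h : IsWiener μ) :
    IsGaussianProcess (fun (t : ℝ≥0) (w : Path) => w (t : ℝ)) μ :=
  IsPreBrownianReal.isGaussianProcess h

lemma apply_eq_toNNReal (w : Path) (x : ℝ) : w x = w ((x.toNNReal : ℝ≥0) : ℝ) := by
  rcases le_total 0 x with hx | hx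
  · rw [Real.coe_toNNReal x hx]
  · rw [Real.toNNReal_of_nonpos hx, w.of_nonpos hx]; simp

lemma memLp_eval (h : IsWiener μ) (x : ℝ) : MemLp (fun w : Path => w x) 2 μ := by
  have h1 := (h.isGaussianProcess.hasGaussianLaw_eval x.toNNReal).memLp_two
  simpa only [← apply_eq_toNNReal] using h1

lemma covariance_eval (h : IsWiener μ) {x y : ℝ} (hx : 0 ≤ x) (hy : 0 ≤ y) :
    cov[fun w : Path => w x, fun w : Path => w y; μ] = min x y := by
  have h1 := IsPreBrownianReal.covariance_fun_eval h x.toNNReal y.toNNReal
  simp only [← apply_eq_toNNReal] at h1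
  rw [h1, NNReal.coe_min, Real.coe_toNNReal x hx, Real.coe_toNNReal y hy]

lemma covariance_sub_sub (h : IsWiener μ) {a b c d : ℝ} (ha : 0 ≤ a) (hb : 0 ≤ b) (hc : 0 ≤ c)
    (hd : 0 ≤ d) :
    cov[fun w : Path => w a - w b, fun w : Path => w c - w d; μ] =
      min a c - min a d - min b c + min b d := by
  have := h.isProbabilityMeasure
  have hcd : MemLp (fun w : Path => w c - w d) 2 μ := (h.memLp_eval c).sub (h.memLp_eval d)
  rw [covariance_fun_sub_left (h.memLp_eval a) (h.memLp_eval b) hcd,
    covariance_fun_sub_right (h.memLp_eval a) (h.memLp_eval c) (h.memLp_eval d),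
    covariance_fun_sub_right (h.memLp_eval b) (h.memLp_eval c) (h.memLp_eval d),
    h.covariance_eval ha hc, h.covariance_eval ha hd, h.covariance_eval hb hc,
    h.covariance_eval hb hd]
  ring

/-- The past up to `u` together with the future increments after `u + h` is independent of the
increments on `[u, u + h]`. -/
lemma indepFun_middle (hW : IsWiener μ) {u h : ℝ} (hu : 0 ≤ u) (hh : 0 ≤ h) :
    IndepFun (fun w : Path => (Path.stop u w, Path.shift (u + h) w))
      (fun w : Path => Path.stop h (Path.shift u w)) μ := by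
  have := hW.isProbabilityMeasure
  have hG := hW.isGaussianProcess
  -- scalar processes
  let X : (ℝ ⊕ ℝ) → Path → ℝ := Sum.elim (fun x w => Path.stop u w x)
    (fun x w => Path.shift (u + h) w x)
  let Y : ℝ → Path → ℝ := fun x w => Path.stop h (Path.shift u w) x
  have hX1 : ∀ x w, X (Sum.inl x) w = w (max (min x u) 0) - w 0 := by
    intro x w
    change w (min x u) = _
    rcases le_total 0 (min x u) with h0 | h0
    · rw [max_eq_left h0]; simp
    · rw [max_eq_right h0, w.of_nonpos h0]; simp
  have hX2 : ∀ x w, X (Sum.inr x) w = w (u + h + max x 0) - w (u + h) := fun x w => rfl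
  have hY1 : ∀ x w, Y x w = w (u + max (min x h) 0) - w u := fun x w => rfl
  have mX : ∀ s, Measurable (X s) := by
    rintro (x | x)
    · exact (Path.measurable_eval x).comp (Path.measurable_stop u)
    · exact (Path.measurable_eval x).comp (Path.measurable_shift (u + h))
  have mY : ∀ s, Measurable (Y s) := by
    intro x
    exact (Path.measurable_eval x).comp ((Path.measurable_stop h).comp (Path.measurable_shift u))
  have key : ∀ a b : ℝ, ∃ I : Finset ℝ≥0, ∃ L : (I → ℝ) →L[ℝ] ℝ, ∀ w : Path,
      w a - w b = L (I.restrict (fun t : ℝ≥0 => w (t : ℝ))) := by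
    intro a b
    refine ⟨{a.toNNReal, b.toNNReal},
      { toFun x := x ⟨a.toNNReal, by simp⟩ - x ⟨b.toNNReal, by simp⟩
        map_add' x y := by simp; abel
        map_smul' c x := by simp; ring }, fun w => ?_⟩
    rw [apply_eq_toNNReal w a, apply_eq_toNNReal w b]
    simp
  have hXY : IndepFun (fun w s => X s w) (fun w s => Y s w) μ := by
    apply IsGaussianProcess.indepFun_of_covariance_eq_zero
    · apply hG.of_isGaussianProcess
      rintro ((x | x) | x)
      · obtain ⟨I, L, hL⟩ := key (max (min x u) 0) 0
        exact ⟨I, L, fun w => by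
          simp only [Sum.elim_inl]
          rw [hX1, hL]⟩
      · obtain ⟨I, L, hL⟩ := key (u + h + max x 0) (u + h)
        exact ⟨I, L, fun w => by
          simp only [Sum.elim_inl]
          rw [hX2, hL]⟩
      · obtain ⟨I, L, hL⟩ := key (u + max (min x h) 0) u
        exact ⟨I, L, fun w => by
          simp only [Sum.elim_inr]
          rw [hY1, hL]⟩
    · exact fun s => (mX s).aemeasurable
    · exact fun s => (mY s).aemeasurable
    · rintro (x | x) y
      · have e1 : X (Sum.inl x) = fun w => w (max (min x u) 0) - w 0 := funext (hX1 x)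
        have e2 : Y y = fun w => w (u + max (min y h) 0) - w u := funext (hY1 y)
        have h1 : max (min x u) 0 ≤ u := max_le (min_le_right _ _) hu
        rw [e1, e2, hW.covariance_sub_sub (le_max_right _ _) le_rfl
          (add_nonneg hu (le_max_right _ _)) hu, min_eq_left h1,
          min_eq_left (h1.trans (le_add_of_nonneg_right (le_max_right _ _))),
          min_eq_left (add_nonneg hu (le_max_right _ _)), min_eq_left hu]
        ring
      · have e1 : X (Sum.inr x) = fun w => w (u + h + max x 0) - w (u + h) := funext (hX2 x)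
        have e2 : Y y = fun w => w (u + max (min y h) 0) - w u := funext (hY1 y)
        have h1 : 0 ≤ max x 0 := le_max_right _ _
        have h2 : 0 ≤ max (min y h) 0 := le_max_right _ _
        have h3 : max (min y h) 0 ≤ h := max_le (min_le_right _ _) hh
        have q1 : min (u + h + max x 0) (u + max (min y h) 0) = u + max (min y h) 0 :=
          min_eq_right (by linarith)
        have q2 : min (u + h + max x 0) u = u := min_eq_right (by linarith)
        have q3 : min (u + h) (u + max (min y h) 0) = u + max (min y h) 0 :=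
          min_eq_right (by linarith)
        have q4 : min (u + h) u = u := min_eq_right (by linarith)
        rw [e1, e2, hW.covariance_sub_sub (by positivity) (by positivity) (by positivity) hu,
          q1, q2, q3, q4]
        ring
  -- transfer to path valued random variables
  have hI : Indep (MeasurableSpace.comap (fun w s => X s w) MeasurableSpace.pi)
      (MeasurableSpace.comap (fun w s => Y s w) MeasurableSpace.pi) μ := hXY
  change Indep (MeasurableSpace.comap _ _) (MeasurableSpace.comap _ _) μ
  refine indep_of_indep_of_le_right (indep_of_indep_of_le_left hI ?_) ?_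
  · rw [← measurable_iff_comap_le]
    have hXm : ∀ s, Measurable[MeasurableSpace.comap (fun w s => X s w) MeasurableSpace.pi] (X s) :=
      fun s => (measurable_pi_apply (X := fun _ : ℝ ⊕ ℝ => ℝ) s).comp
        (comap_measurable (fun (w : Path) (s : ℝ ⊕ ℝ) => X s w))
    refine @Measurable.prodMk _ _ _ _ _ (_) _ _ ?_ ?_
    · exact @Path.measurable_of_eval _ (_) _ fun x => hXm (Sum.inl x)
    · exact @Path.measurable_of_eval _ (_) _ fun x => hXm (Sum.inr x)
  · rw [← measurable_iff_comap_le]
    have hYm : ∀ s, Measurable[MeasurableSpace.comap (fun w s => Y s w) MeasurableSpace.pi] (Y s) :=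
      fun s => (measurable_pi_apply s).comp (comap_measurable _)
    exact @Path.measurable_of_eval _ (_) _ fun x => hYm x

end IsWiener

end Pool.Agent.Lib.MP_097655_pr
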